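import Pool.Agent.H184.G2.Chk

set_option autoImplicit false

/-!
# Soundness of the collected position tests
-/

namespace Pool.Agent.H184.G2

open Pool.Agent.H184.Gomoku

theorem AND_iff {a b : Bool} : AND a b = true ↔ a = true ∧ b = true := by
  cases a <;> cases b <;> simp [AND]

theorem tb_shl (a s i : ℕ) : (Nat.shiftLeft a s).testBit i = (decide (s ≤ i) && a.testBit (i - s)) :=
  Nat.testBit_shiftLeft a

theorem tb_rep {v s n : ℕ} (hv : v < 2 ^ s) (hs : 0 < s) (i : ℕ) :
    (rep v s n).testBit i = (decide (i / s < n) && v.testBit (i % s)) := by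
  induction n generalizing i with
  | zero => simp [rep]
  | succ n ih =>
    have e : rep v s (n + 1) = Nat.lor (Nat.shiftLeft (rep v s n) s) v := rfl
    rw [e, tb_lor, tb_shl, ih]
    by_cases hi : i < s
    · rw [Nat.div_eq_of_lt hi, Nat.mod_eq_of_lt hi]
      simp [Nat.not_le.2 hi]
    · rw [not_lt] at hi
      have h1 : v.testBit i = false := by
        apply Nat.testBit_lt_two_pow
        exact lt_of_lt_of_le hv (Nat.pow_le_pow_right (by norm_num) hi)
      have h2 : (i - s) / s = i / s - 1 := by
        have := Nat.sub_mul_div i s 1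
        rwa [Nat.mul_one] at this
      have h3 : (i - s) % s = i % s := (Nat.mod_eq_sub_mod hi).symm
      have h4 : 1 ≤ i / s := (Nat.le_div_iff_mul_le hs).2 (by omega)
      rw [h1, h2, h3, Bool.or_false]
      simp only [hi, decide_true, Bool.true_and]
      congr 1
      rw [decide_eq_decide]
      omega

theorem shl_sub (n : ℕ) : Nat.sub (Nat.shiftLeft 1 n) 1 = 2 ^ n - 1 := by
  have : Nat.shiftLeft 1 n = 2 ^ n := Nat.one_shiftLeft n
  rw [this, Nat.sub_eq]

theorem tb_ones (i : ℕ) : ONES.testBit i = decide (i < 1024) := by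
  unfold ONES
  rw [shl_sub, Nat.testBit_two_pow_sub_one]

theorem ones_lt : ONES < 2 ^ 1024 := by
  unfold ONES
  rw [shl_sub]
  exact Nat.sub_lt (Nat.two_pow_pos _) Nat.one_pos

theorem tb_LO (i : ℕ) : LO.testBit i = (decide (i / 7168 < 41) && decide (i % 7168 < 1024)) := by
  unfold LO
  rw [tb_rep (lt_of_lt_of_le ones_lt (Nat.pow_le_pow_right (by norm_num) (by norm_num))) (by norm_num), tb_ones]

theorem tb_RR (i : ℕ) : RR.testBit i = (decide (i / 1024 < 287) && R.testBit (i % 1024)) := by
  unfold RR
  rw [tb_rep R_lt (by norm_num)]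

/-! ### items -/

/-- some of five -/
def or5 (g : ℕ → Bool) (i s : ℕ) : Bool := g i || g (i + s) || g (i + 2 * s) || g (i + 3 * s) || g (i + 4 * s)
/-- how many of five -/
def cnt5 (g : ℕ → Bool) (i s : ℕ) : ℕ :=
  (g i).toNat + (g (i + s)).toNat + (g (i + 2 * s)).toNat + (g (i + 3 * s)).toNat + (g (i + 4 * s)).toNat

/-- free cells in a set -/
def fN (A D K : ℕ → Bool) (i : ℕ) : Bool := K i && !(A i || D i)

/-- no line without attacker stones is dangerous -/
def WinOK (A D K1 K2 K3 : ℕ → Bool) : Prop :=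
  ∀ s i : ℕ, IsStep s → i + 4 * s < 1024 → or5 A i s = false → 1 ≤ cnt5 D i s →
    ¬ 4 ≤ cnt5 D i s + (or5 (fN A D K1) i s).toNat + (or5 (fN A D K2) i s).toNat + (or5 (fN A D K3) i s).toNat

/-- what is tested for an item -/
structure ItemOK (f : ℕ → Bool) : Prop where
  free : ∀ i < 1024, (f (5120 + i) = true ∨ f (6144 + i) = true) →
    f i = false ∧ f (1024 + i) = false ∧ f (2048 + i) = false ∧ f (3072 + i) = false ∧ f (4096 + i) = false
  five : ∀ y < 1024, f (6144 + y) = true →
    Five {c | ∃ i < 1024, cell i = c ∧ (f i = true ∨ f (5120 + i) = true ∨ f (6144 + i) = true)}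
  disj : ∀ i < 1024, (f i = true ∨ f (5120 + i) = true) → f (1024 + i) = false
  inR : ∀ i < 1024, (f i = true ∨ f (5120 + i) = true ∨ f (1024 + i) = true) → R.testBit i = true
  win : WinOK (fun i => f i || f (5120 + i)) (fun i => f (1024 + i)) (fun i => f (2048 + i))
    (fun i => f (3072 + i)) (fun i => f (4096 + i))

theorem fzs_spec {A D N1 N2 N3 s s2 s3 s4 : ℕ} (hs : IsLine s s2 s3 s4)
    (h : fzs A D N1 N2 N3 s s2 s3 s4 = true) (i : ℕ)
    (b0 b1 b2 b3 b4 l1 l2 l3 : Bool) (e0 : D.testBit i = b0) (e1 : D.testBit (i + s) = b1)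
    (e2 : D.testBit (i + 2 * s) = b2) (e3 : D.testBit (i + 3 * s) = b3) (e4 : D.testBit (i + 4 * s) = b4)
    (hA : (hit A s s2 s4).testBit i = false) (g1 : (hit N1 s s2 s4).testBit i = l1)
    (g2 : (hit N2 s s2 s4).testBit i = l2) (g3 : (hit N3 s s2 s4).testBit i = l3)
    (hpos : 1 ≤ b0.toNat + b1.toNat + b2.toNat + b3.toNat + b4.toNat) :
    ¬ 4 ≤ b0.toNat + b1.toNat + b2.toNat + b3.toNat + b4.toNat + l1.toNat + l2.toNat + l3.toNat := by
  obtain ⟨rfl, rfl, rfl⟩ := hs
  unfold fzs at h
  rw [sub_iff] at h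
  have h := h i
  rw [hA] at h
  simp only [tb_lor, tb_land, tb_xor, tb_shr] at h
  have f1 : s + i = i + s := by ring
  have f2 : 2 * s + i = i + 2 * s := by ring
  have f3 : 3 * s + i = i + 3 * s := by ring
  have f4 : 4 * s + i = i + 4 * s := by ring
  rw [f1, f2, f3, f4, e0, e1, e2, e3, e4, g1, g2, g3] at h
  revert h hpos
  clear e0 e1 e2 e3 e4 hA g1 g2 g3
  revert b0 b1 b2 b3 b4 l1 l2 l3
  decide

theorem cvr_spec {q s y : ℕ} (h : (cvr q s (2 * s) (4 * s)).testBit y = true) :
    ∃ k ≤ 4, k * s ≤ y ∧ ∀ m < 5, q.testBit (y - k * s + m * s) = true := by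
  have key : ∀ i, (all5 q s (2 * s) (4 * s)).testBit i = true → ∀ m < 5, q.testBit (i + m * s) = true := by
    intro i hi
    unfold all5 at hi
    simp only [tb_land, tb_shr, Bool.and_eq_true] at hi
    obtain ⟨⟨⟨h0, h1⟩, h2, h3⟩, h4⟩ := hi
    intro m hm
    have e1 : s + i = i + 1 * s := by ring
    have e2 : 2 * s + i = i + 2 * s := by ring
    have e3 : s + (2 * s + i) = i + 3 * s := by ring
    have e4 : 4 * s + i = i + 4 * s := by ring
    rw [e1] at h1
    rw [e2] at h2
    rw [e3] at h3
    rw [e4] at h4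
    interval_cases m
    · simpa using h0
    · exact h1
    · exact h2
    · exact h3
    · exact h4
  unfold cvr spread at h
  simp only [tb_lor, tb_shl, Bool.or_eq_true, Bool.and_eq_true, decide_eq_true_eq] at h
  rcases h with ((h | ⟨h1, h⟩) | ⟨h1, (h | ⟨h2, h⟩)⟩) | ⟨h1, h⟩
  · exact ⟨0, by norm_num, by simp, by simpa using key _ h⟩
  · refine ⟨1, by norm_num, by simpa using h1, ?_⟩
    have := key _ h
    rwa [Nat.one_mul]
  · exact ⟨2, by norm_num, h1, key _ h⟩
  · refine ⟨3, by norm_num, by omega, ?_⟩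
    have := key _ h
    have e : y - 2 * s - s = y - 3 * s := by omega
    rwa [e] at this
  · exact ⟨4, le_rfl, h1, key _ h⟩

theorem five_of_cells {S : Set Cell} {i s : ℕ} (hs : IsStep s) (hS : ∀ m < 5, cell (i + m * s) ∈ S)
    (hR : ∀ m < 5, R.testBit (i + m * s) = true) : Five S := by
  have r0 := R_spec (hR 0 (by norm_num))
  have r4 := R_spec (hR 4 (by norm_num))
  rcases hs with rfl | rfl | rfl | rfl
  · refine ⟨cell i, (1, 0), by simp [dirs], fun k hk => ?_⟩
    have e : cell i + (k : ℤ) • ((1 : ℤ), (0 : ℤ)) = cell (i + k * 1) := by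
      unfold cell
      simp only [Prod.smul_mk, smul_eq_mul, Prod.mk_add_mk, Prod.mk.injEq]
      constructor <;> omega
    rw [e]; exact hS k hk
  · refine ⟨cell (i + 4 * 31), (1, -1), by simp [dirs], fun k hk => ?_⟩
    have e : cell (i + 4 * 31) + (k : ℤ) • ((1 : ℤ), (-1 : ℤ)) = cell (i + (4 - k) * 31) := by
      unfold cell
      simp only [Prod.smul_mk, smul_eq_mul, Prod.mk_add_mk, Prod.mk.injEq]
      constructor <;> omega
    rw [e]; exact hS (4 - k) (by omega)
  · refine ⟨cell i, (0, 1), by simp [dirs], fun k hk => ?_⟩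
    have e : cell i + (k : ℤ) • ((0 : ℤ), (1 : ℤ)) = cell (i + k * 32) := by
      unfold cell
      simp only [Prod.smul_mk, smul_eq_mul, Prod.mk_add_mk, Prod.mk.injEq]
      constructor <;> omega
    rw [e]; exact hS k hk
  · refine ⟨cell i, (1, 1), by simp [dirs], fun k hk => ?_⟩
    have e : cell i + (k : ℤ) • ((1 : ℤ), (1 : ℤ)) = cell (i + k * 33) := by
      unfold cell
      simp only [Prod.smul_mk, smul_eq_mul, Prod.mk_add_mk, Prod.mk.injEq]
      constructor <;> omega
    rw [e]; exact hS k hk

theorem tb_hit' {A s : ℕ} (i : ℕ) :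
    (hit A s (2 * s) (4 * s)).testBit i = or5 (fun n => A.testBit n) i s := tb_hit isLine_of_step i

theorem or5_congr {g h : ℕ → Bool} {o i s : ℕ} (hlt : i + 4 * s < 1024) (e : ∀ n < 1024, g (o + n) = h n) :
    or5 g (o + i) s = or5 h i s := by
  unfold or5
  have e1 : o + i + s = o + (i + s) := by ring
  have e2 : o + i + 2 * s = o + (i + 2 * s) := by ring
  have e3 : o + i + 3 * s = o + (i + 3 * s) := by ring
  have e4 : o + i + 4 * s = o + (i + 4 * s) := by ring
  rw [e1, e2, e3, e4, e _ (by omega), e _ (by omega), e _ (by omega), e _ (by omega), e _ (by omega)]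

theorem item_of_bulk2 {a d k1 k2 k3 bx bY : ℕ} (h : bulk2 a d k1 k2 k3 bx bY = true) (q : ℕ) (f : ℕ → Bool)
    (ha : ∀ i < 1024, a.testBit (1024 * q + i) = f i)
    (hd : ∀ i < 1024, d.testBit (1024 * q + i) = f (1024 + i))
    (h1 : ∀ i < 1024, k1.testBit (1024 * q + i) = f (2048 + i))
    (h2 : ∀ i < 1024, k2.testBit (1024 * q + i) = f (3072 + i))
    (h3 : ∀ i < 1024, k3.testBit (1024 * q + i) = f (4096 + i))
    (hx : ∀ i < 1024, bx.testBit (1024 * q + i) = f (5120 + i))
    (hy : ∀ i < 1024, bY.testBit (1024 * q + i) = f (6144 + i)) : ItemOK f := by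
  unfold bulk2 bulk3 at h
  rw [AND_iff, AND_iff, AND_iff, AND_iff, AND_iff, AND_iff, AND_iff] at h
  obtain ⟨c1, c2, c3, c4, z1, z2, z3, z4⟩ := h
  have c1 : Nat.land (Nat.lor bx bY) (Nat.lor (Nat.lor a d) (Nat.lor (Nat.lor k1 k2) k3)) = 0 :=
    Nat.eq_of_beq_eq_true c1
  have c2 : Nat.land (Nat.lor a bx) d = 0 := Nat.eq_of_beq_eq_true c2
  rw [sub_iff] at c3 c4
  have hR : ∀ i < 1024, (f i = true ∨ f (5120 + i) = true ∨ f (6144 + i) = true ∨ f (1024 + i) = true) →
      R.testBit i = true := by
    intro i hi hf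
    have := c3 (1024 * q + i) (by
      rw [tb_lor, tb_lor, tb_lor, ha i hi, hx i hi, hy i hi, hd i hi]
      rcases hf with h | h | h | h <;> simp [h])
    rw [tb_RR, Bool.and_eq_true] at this
    have e : (1024 * q + i) % 1024 = i := by omega
    rw [e] at this
    exact this.2
  refine ⟨?_, ?_, ?_, ?_, ?_⟩
  · intro i hi hf
    have := congrArg (fun n => Nat.testBit n (1024 * q + i)) c1
    simp only [tb_land, tb_lor, Nat.zero_testBit] at this
    rw [ha i hi, hd i hi, h1 i hi, h2 i hi, h3 i hi, hx i hi, hy i hi] at this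
    revert this hf
    generalize f i = x0
    generalize f (1024 + i) = x1
    generalize f (2048 + i) = x2
    generalize f (3072 + i) = x3
    generalize f (4096 + i) = x4
    generalize f (5120 + i) = x5
    generalize f (6144 + i) = x6
    revert x0 x1 x2 x3 x4 x5 x6
    decide
  · intro y hy1 hfy
    have hcv := c4 (1024 * q + y) (by rw [hy y hy1]; exact hfy)
    rw [tb_lor, tb_lor, tb_lor, Bool.or_eq_true, Bool.or_eq_true, Bool.or_eq_true] at hcv
    have main : ∀ s, IsStep s →
        (cvr (Nat.lor a (Nat.lor bx bY)) s (2 * s) (4 * s)).testBit (1024 * q + y) = true →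
        Five {c | ∃ i < 1024, cell i = c ∧ (f i = true ∨ f (5120 + i) = true ∨ f (6144 + i) = true)} := by
      intro s hs hc
      obtain ⟨k, hk, hky, hm⟩ := cvr_spec hc
      have hyR := R_spec (hR y hy1 (Or.inr (Or.inr (Or.inl hfy))))
      have hs33 : s ≤ 33 := by rcases hs with rfl | rfl | rfl | rfl <;> norm_num
      have hks : k * s ≤ 132 := by
        calc k * s ≤ 4 * 33 := Nat.mul_le_mul hk hs33
          _ = 132 := by norm_num
      have hpos : ∀ m < 5, y - k * s + m * s < 1024 := by
        intro m hm5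
        have : m * s ≤ 132 := by
          calc m * s ≤ 4 * 33 := Nat.mul_le_mul (by omega) hs33
            _ = 132 := by norm_num
        omega
      have hbits : ∀ m < 5, f (y - k * s + m * s) = true ∨ f (5120 + (y - k * s + m * s)) = true ∨
          f (6144 + (y - k * s + m * s)) = true := by
        intro m hm5
        have := hm m hm5
        have e : 1024 * q + y - k * s + m * s = 1024 * q + (y - k * s + m * s) := by omega
        rw [e, tb_lor, tb_lor, ha _ (hpos m hm5), hx _ (hpos m hm5), hy _ (hpos m hm5), Bool.or_eq_true,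
          Bool.or_eq_true] at this
        exact this
      refine five_of_cells hs (fun m hm5 => ⟨_, hpos m hm5, rfl, hbits m hm5⟩) (fun m hm5 => ?_)
      apply hR _ (hpos m hm5)
      rcases hbits m hm5 with h | h | h
      · exact Or.inl h
      · exact Or.inr (Or.inl h)
      · exact Or.inr (Or.inr (Or.inl h))
    rcases hcv with (h | h) | (h | h)
    · exact main 1 (Or.inl rfl) h
    · exact main 32 (Or.inr (Or.inr (Or.inl rfl))) h
    · exact main 33 (Or.inr (Or.inr (Or.inr rfl))) h
    · exact main 31 (Or.inr (Or.inl rfl)) h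
  · intro i hi hf
    have := congrArg (fun n => Nat.testBit n (1024 * q + i)) c2
    simp only [tb_land, tb_lor, Nat.zero_testBit] at this
    rw [ha i hi, hd i hi, hx i hi] at this
    revert this hf
    generalize f i = x0
    generalize f (1024 + i) = x1
    generalize f (5120 + i) = x5
    revert x0 x1 x5
    decide
  · intro i hi hf
    apply hR i hi
    rcases hf with h | h | h
    · exact Or.inl h
    · exact Or.inr (Or.inl h)
    · exact Or.inr (Or.inr (Or.inr h))
  · intro s i hs hi hA hD
    have hA' : (hit (Nat.lor a bx) s (2 * s) (4 * s)).testBit (1024 * q + i) = false := by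
      rw [tb_hit', or5_congr (h := fun n => f n || f (5120 + n)) hi]
      · exact hA
      · intro n hn; rw [tb_lor, ha n hn, hx n hn]
    have hN : ∀ (k : ℕ) (o : ℕ), (∀ i < 1024, k.testBit (1024 * q + i) = f (o + i)) →
        (hit (Nat.xor k (Nat.land k (Nat.lor (Nat.lor a bx) d))) s (2 * s) (4 * s)).testBit (1024 * q + i) =
        or5 (fN (fun i => f i || f (5120 + i)) (fun i => f (1024 + i)) (fun i => f (o + i))) i s := by
      intro k o hk
      rw [tb_hit', or5_congr hi]
      intro n hn
      rw [tb_xor, tb_land, tb_lor, tb_lor, hk n hn, ha n hn, hx n hn, hd n hn]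
      unfold fN
      dsimp only
      generalize f n = x0
      generalize f (5120 + n) = x1
      generalize f (1024 + n) = x2
      generalize f (o + n) = x3
      revert x0 x1 x2 x3
      decide
    have key : fzs (Nat.lor a bx) d (Nat.xor k1 (Nat.land k1 (Nat.lor (Nat.lor a bx) d)))
        (Nat.xor k2 (Nat.land k2 (Nat.lor (Nat.lor a bx) d)))
        (Nat.xor k3 (Nat.land k3 (Nat.lor (Nat.lor a bx) d))) s (2 * s) (3 * s) (4 * s) = true := by
      rcases hs with rfl | rfl | rfl | rfl
      · exact z1
      · exact z4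
      · exact z2
      · exact z3
    have e1 : 1024 * q + i + s = 1024 * q + (i + s) := by ring
    have e2 : 1024 * q + i + 2 * s = 1024 * q + (i + 2 * s) := by ring
    have e3 : 1024 * q + i + 3 * s = 1024 * q + (i + 3 * s) := by ring
    have e4 : 1024 * q + i + 4 * s = 1024 * q + (i + 4 * s) := by ring
    exact fzs_spec isLine_of_step key (1024 * q + i) _ _ _ _ _ _ _ _ (hd i (by omega))
      (by rw [e1]; exact hd _ (by omega)) (by rw [e2]; exact hd _ (by omega)) (by rw [e3]; exact hd _ (by omega))
      (by rw [e4]; exact hd _ (by omega)) hA' (hN k1 2048 h1) (hN k2 3072 h2) (hN k3 4096 h3) hD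

theorem item_false {f : ℕ → Bool} (hf : ∀ n, f n = false) : ItemOK f := by
  refine ⟨?_, ?_, ?_, ?_, ?_⟩
  · intro i _ _; exact ⟨hf _, hf _, hf _, hf _, hf _⟩
  · intro y _ h; rw [hf] at h; exact absurd h Bool.false_ne_true
  · intro i _ _; exact hf _
  · intro i _ h; simp [hf] at h
  · intro s i _ _ _ h
    simp [cnt5, hf] at h

/-- all items of an accumulator have been tested -/
def AccOK (acc : ℕ) : Prop := ∀ b, ItemOK (fun n => acc.testBit (7168 * b + n))

theorem len_eq (l : List ℕ) : len l = l.length := by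
  induction l with
  | nil => rfl
  | cons a t ih =>
    have : len (a :: t) = Nat.succ (len t) := rfl
    rw [this, ih]; rfl

theorem small_iff (l : List ℕ) (h : small l = true) : ∀ a ∈ l, a < 2 ^ 293888 := by
  induction l with
  | nil => simp
  | cons a t ih =>
    have e : small (a :: t) = AND (Nat.beq (Nat.shiftRight a 293888) 0) (small t) := rfl
    rw [e, AND_iff] at h
    intro x hx
    rcases List.mem_cons.1 hx with rfl | hx
    · have h0 : Nat.shiftRight x 293888 = 0 := Nat.eq_of_beq_eq_true h.1
      have h1 : x >>> 293888 = 0 := h0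
      rw [Nat.shiftRight_eq_div_pow] at h1
      exact (Nat.div_eq_zero_iff_lt (Nat.two_pow_pos _)).1 h1
    · exact ih h.2 x hx

theorem tb_ext (f : ℕ) (l : List ℕ) : l.length ≤ 7 → ∀ b g i, g < 7 → i < 1024 →
    (ext f l).testBit (7168 * b + 1024 * g + i) =
      (match l[g]? with
        | some a => decide (b < 41) && a.testBit (f + (7168 * b + i))
        | none => false) := by
  induction l with
  | nil => intro _ b g i _ _; simp [ext]
  | cons a t ih =>
    intro hlen b g i hg hi
    rw [List.length_cons] at hlen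
    have ih := ih (by omega)
    have e : ext f (a :: t) = Nat.lor (Nat.shiftLeft (ext f t) 1024) (Nat.land (Nat.shiftRight a f) LO) := rfl
    rw [e, tb_lor, tb_shl, tb_land, tb_shr, tb_LO]
    cases g with
    | zero =>
      have e1 : (7168 * b + 1024 * 0 + i) / 7168 = b := by omega
      have e2 : (7168 * b + 1024 * 0 + i) % 7168 = i := by omega
      rw [e1, e2]
      have e3 : (decide (1024 ≤ 7168 * b + 1024 * 0 + i) && (ext f t).testBit (7168 * b + 1024 * 0 + i - 1024)) =
          false := by
        cases b with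
        | zero =>
          rw [decide_eq_false (show ¬ 1024 ≤ 7168 * 0 + 1024 * 0 + i by omega), Bool.false_and]
        | succ b =>
          have e4 : 7168 * (b + 1) + 1024 * 0 + i - 1024 = 7168 * b + 1024 * 6 + i := by omega
          rw [e4, ih b 6 i (by norm_num) hi]
          rw [List.getElem?_eq_none (by omega)]
          simp
      rw [e3, Bool.false_or, List.getElem?_cons_zero]
      have e5 : f + (7168 * b + 1024 * 0 + i) = f + (7168 * b + i) := by omega
      rw [e5]
      simp only [hi, decide_true, Bool.and_true]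
      rw [Bool.and_comm]
    | succ g =>
      have e1 : (7168 * b + 1024 * (g + 1) + i) % 7168 = 1024 * (g + 1) + i := by omega
      have e2 : ¬ (1024 * (g + 1) + i < 1024) := by omega
      have e3 : 7168 * b + 1024 * (g + 1) + i - 1024 = 7168 * b + 1024 * g + i := by omega
      have e4 : 1024 ≤ 7168 * b + 1024 * (g + 1) + i := by omega
      rw [e1, e3, ih b g i (by omega) hi, List.getElem?_cons_succ]
      simp [e2, e4]

theorem bulk_sound {l : List ℕ} (h : bulk l = true) : ∀ a ∈ l, AccOK a := by
  unfold bulk at h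
  rw [AND_iff, AND_iff] at h
  obtain ⟨hl, hs, hb⟩ := h
  have hl : l.length ≤ 7 := by
    rw [len_eq] at hl
    exact Nat.le_of_ble_eq_true hl
  have hs := small_iff l hs
  intro a ha b
  by_cases hb41 : b < 41
  · obtain ⟨g, hg⟩ := List.getElem?_of_mem ha
    have hglt : g < l.length := by
      by_contra hc
      rw [List.getElem?_eq_none (by omega)] at hg
      exact absurd hg (by simp)
    have key : ∀ f i, i < 1024 → (ext f l).testBit (1024 * (7 * b + g) + i) = a.testBit (7168 * b + (f + i)) := by
      intro f i hi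
      have := tb_ext f l hl b g i (by omega) hi
      rw [hg] at this
      simp only [hb41, decide_true, Bool.true_and] at this
      have e1 : 1024 * (7 * b + g) + i = 7168 * b + 1024 * g + i := by ring
      have e2 : f + (7168 * b + i) = 7168 * b + (f + i) := by ring
      rw [e1, this, e2]
    refine item_of_bulk2 hb (7 * b + g) _ ?_ (key 1024) (key 2048) (key 3072) (key 4096) (key 5120) (key 6144)
    intro i hi
    have := key 0 i hi
    rwa [Nat.zero_add] at this
  · apply item_false
    intro n
    apply Nat.testBit_lt_two_pow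
    refine lt_of_lt_of_le (hs a ha) (Nat.pow_le_pow_right (by norm_num) ?_)
    omega

/-- the pending items -/
def Pend (acc : ℕ) (l : List ℕ) : Prop := AccOK acc ∧ ∀ a ∈ l, AccOK a

theorem psh_sound {a : ℕ} {l : List ℕ} {c : ℕ} {kk : ℕ → List ℕ → ℕ → Bool} (h : psh a l c kk = true) :
    ∃ a' l' c', kk a' l' c' = true ∧ (Pend a' l' → Pend a l) := by
  unfold psh at h
  cases h1 : Nat.ble LIM a with
  | false =>
    rw [h1] at h
    exact ⟨a, l, c, h, id⟩
  | true =>
    rw [h1] at h
    have h : psh2 a l c kk = true := h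
    unfold psh2 at h
    cases h2 : Nat.beq c 6 with
    | false =>
      rw [h2] at h
      refine ⟨0, a :: l, Nat.succ c, h, fun hp => ⟨hp.2 a List.mem_cons_self, fun x hx => hp.2 x (List.mem_cons_of_mem _ hx)⟩⟩
    | true =>
      rw [h2] at h
      have h : psh3 a l kk = true := h
      unfold psh3 at h
      rw [AND_iff] at h
      have := bulk_sound h.1
      exact ⟨0, [], 0, h.2, fun _ => ⟨this a List.mem_cons_self, fun x hx => this x (List.mem_cons_of_mem _ hx)⟩⟩

theorem push_sound {acc item : ℕ} (hi : item < 2 ^ 7168) (h : AccOK (Nat.lor (Nat.shiftLeft acc 7168) item)) :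
    AccOK acc ∧ ItemOK (fun n => (Nat.lor (Nat.shiftLeft acc 7168) item).testBit n) := by
  constructor
  · intro b
    have := h (b + 1)
    convert this using 2 with n
    rw [tb_lor, tb_shl]
    have e1 : 7168 * (b + 1) + n - 7168 = 7168 * b + n := by omega
    have e2 : 7168 ≤ 7168 * (b + 1) + n := by omega
    have e3 : item.testBit (7168 * (b + 1) + n) = false := by
      apply Nat.testBit_lt_two_pow
      exact lt_of_lt_of_le hi (Nat.pow_le_pow_right (by norm_num) (by omega))
    rw [e1, e3]
    simp [e2]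
  · have := h 0
    convert this using 2 with n
    rw [Nat.mul_zero, Nat.zero_add]

end Pool.Agent.H184.G2
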