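import Pool.Agent.H184.Gomoku.Sound2

set_option autoImplicit false

/-!
# A faster checker for threat trees

A state is one natural number with five fields of 1024 bits: stones of the attacker, stones of the defender,
and up to three sets of cells which the attacker may not use (complements of masks). All position tests are
collected in an accumulator and done at once for many positions.
-/

namespace Pool.Agent.H184.G2

open Pool.Agent.H184.Gomoku

/-- conjunction which does not evaluate the second argument when the first is false -/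
def AND (a b : Bool) : Bool := @Bool.rec (fun _ => Bool) false b a

/-- `n` copies of `v`, with step `s` -/
def rep (v s n : ℕ) : ℕ := @Nat.rec (fun _ => ℕ) 0 (fun _ r => Nat.lor (Nat.shiftLeft r s) v) n

def ONES : ℕ := Nat.sub (Nat.shiftLeft 1 1024) 1
def LO : ℕ := rep ONES 7168 41
def RR : ℕ := rep R 1024 287
def LIM : ℕ := Nat.shiftLeft 1 50176
def B2 : ℕ := Nat.shiftLeft 1 2048
def B5 : ℕ := Nat.shiftLeft 1 5120
def B6 : ℕ := Nat.shiftLeft 1 6144
def MD : ℕ := Nat.shiftLeft ONES 1024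
def MK : ℕ := Nat.sub (Nat.shiftLeft 1 2048) 1
def W2 : ℕ := Nat.shiftLeft ONES 2048

def fzs (A D N1 N2 N3 s s2 s3 s4 : ℕ) : Bool :=
  (fun d1 d2 d3 d4 => (fun o1 s1 => (fun c1 c2 s2' l1 l2 l3 => (fun l12 o12 c12 =>
    (fun c4 => (fun c3 => sub (Nat.lor c4 (Nat.lor (Nat.land c3 (Nat.lor o12 l3))
        (Nat.lor (Nat.land c12 (Nat.lor l12 (Nat.land l3 o12)))
          (Nat.land (Nat.lor (Nat.lor o1 d2) (Nat.lor d3 d4)) (Nat.land l12 l3))))) (hit A s s2 s4))
      (Nat.lor c4 (Nat.land c12 s2')))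
    (Nat.land c1 c2))
    (Nat.land l1 l2) (Nat.lor l1 l2) (Nat.lor c1 c2))
    (Nat.lor (Nat.land D d1) (Nat.land d2 o1))
    (Nat.lor (Nat.land s1 d3) (Nat.land d4 (Nat.lor s1 d3)))
    (Nat.xor (Nat.xor s1 d3) d4) (hit N1 s s2 s4) (hit N2 s s2 s4) (hit N3 s s2 s4))
    (Nat.lor D d1) (Nat.xor (Nat.xor D d1) d2))
  (Nat.shiftRight D s) (Nat.shiftRight D s2) (Nat.shiftRight D s3) (Nat.shiftRight D s4)

/-- first cells of complete lines -/
def all5 (q s s2 s4 : ℕ) : ℕ :=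
  (fun q1 => Nat.land (Nat.land q1 (Nat.shiftRight q1 s2)) (Nat.shiftRight q s4)) (Nat.land q (Nat.shiftRight q s))
/-- all cells of the lines with first cell in `f` -/
def spread (f s s2 s4 : ℕ) : ℕ :=
  (fun q1 => Nat.lor (Nat.lor q1 (Nat.shiftLeft q1 s2)) (Nat.shiftLeft f s4)) (Nat.lor f (Nat.shiftLeft f s))
def cvr (q s s2 s4 : ℕ) : ℕ := spread (all5 q s s2 s4) s s2 s4

def bulk3 (a d q bY ad k1 k2 k3 : ℕ) : Bool :=
  AND (Nat.beq (Nat.land a d) 0) (AND (sub (Nat.lor q d) RR)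
    (AND (sub bY (Nat.lor (Nat.lor (cvr q 1 2 4) (cvr q 32 64 128)) (Nat.lor (cvr q 33 66 132) (cvr q 31 62 124))))
    ((fun N1 N2 N3 => AND (fzs a d N1 N2 N3 1 2 3 4) (AND (fzs a d N1 N2 N3 32 64 96 128)
      (AND (fzs a d N1 N2 N3 33 66 99 132) (fzs a d N1 N2 N3 31 62 93 124))))
      (Nat.xor k1 (Nat.land k1 ad)) (Nat.xor k2 (Nat.land k2 ad)) (Nat.xor k3 (Nat.land k3 ad)))))
def bulk2 (a d k1 k2 k3 bx bY : ℕ) : Bool :=
  AND (Nat.beq (Nat.land (Nat.lor bx bY) (Nat.lor (Nat.lor a d) (Nat.lor (Nat.lor k1 k2) k3))) 0)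
    (bulk3 (Nat.lor a bx) d (Nat.lor a (Nat.lor bx bY)) bY (Nat.lor (Nat.lor a bx) d) k1 k2 k3)

/-- one field of all items, the groups side by side -/
def ext (f : ℕ) (l : List ℕ) : ℕ :=
  @List.rec ℕ (fun _ => ℕ) 0 (fun a _ t => Nat.lor (Nat.shiftLeft t 1024) (Nat.land (Nat.shiftRight a f) LO)) l
/-- every group has at most 41 items -/
def small (l : List ℕ) : Bool :=
  @List.rec ℕ (fun _ => Bool) true (fun a _ t => AND (Nat.beq (Nat.shiftRight a 293888) 0) t) l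
def len (l : List ℕ) : ℕ := @List.rec ℕ (fun _ => ℕ) 0 (fun _ _ t => Nat.succ t) l
/-- test of all items in the groups -/
def bulk (l : List ℕ) : Bool := AND (Nat.ble (len l) 7) (AND (small l)
  (bulk2 (ext 0 l) (ext 1024 l) (ext 2048 l) (ext 3072 l) (ext 4096 l) (ext 5120 l) (ext 6144 l)))

/-- continuations: they take the rest of the stream, the accumulator, the full groups, their number -/
abbrev KT := ℕ → ℕ → List ℕ → ℕ → Bool
/-- checkers: stream, state, number of masks still free, accumulator, full groups, their number, continuation -/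
abbrev CT := ℕ → ℕ → ℕ → ℕ → List ℕ → ℕ → KT → Bool
abbrev LT := ℕ → ℕ → ℕ → ℕ → List ℕ → ℕ → Bool

/-- membership -/
def known (K : List ℕ) (st : ℕ) : Bool :=
  @List.rec ℕ (fun _ => Bool) false (fun p _ t => @Bool.rec (fun _ => Bool) t true (Nat.beq p st)) K

def psh3 (a : ℕ) (l : List ℕ) (kk : ℕ → List ℕ → ℕ → Bool) : Bool := AND (bulk (a :: l)) (kk 0 [] 0)
def psh2 (a : ℕ) (l : List ℕ) (c : ℕ) (kk : ℕ → List ℕ → ℕ → Bool) : Bool :=
  @Bool.rec (fun _ => Bool) (kk 0 (a :: l) (Nat.succ c)) (psh3 a l kk) (Nat.beq c 6)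
/-- start a new group, or test everything, when the accumulator is large -/
def psh (a : ℕ) (l : List ℕ) (c : ℕ) (kk : ℕ → List ℕ → ℕ → Bool) : Bool :=
  @Bool.rec (fun _ => Bool) (kk a l c) (psh2 a l c kk) (Nat.ble LIM a)

def ch2 (ih : ℕ → ℕ → ℕ → Bool) (s st acc t1 : ℕ) : Bool :=
  ih (Nat.shiftRight s 20) (Nat.lor st (Nat.shiftRight t1 5120)) (Nat.lor (Nat.shiftLeft acc 7168) (Nat.lor st t1))
def ch1 (ih : ℕ → ℕ → ℕ → Bool) (s st acc h : ℕ) : Bool :=
  ch2 ih s st acc (Nat.lor (Nat.shiftLeft B5 (Nat.land h 1023)) (Nat.shiftLeft B6 (Nat.shiftRight h 10)))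
/-- a sequence of fours -/
def chain (kk : ℕ → ℕ → ℕ → Bool) (n : ℕ) : ℕ → ℕ → ℕ → Bool :=
  @Nat.rec (fun _ => ℕ → ℕ → ℕ → Bool) kk (fun _ ih s st acc => ch1 ih s st acc (Nat.land s 0xfffff)) n
/-- completing a line -/
def five (l : List ℕ) (c : ℕ) (k : KT) (s st acc : ℕ) : Bool :=
  psh (Nat.lor (Nat.shiftLeft acc 7168) (Nat.lor (Nat.shiftLeft B6 (Nat.land s 1023))
    (Nat.lor (Nat.xor st (Nat.land st MD)) (Nat.shiftLeft (Nat.land st MD) 1024)))) l c (k (Nat.shiftRight s 10))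

def it0 (rec : CT) (j stx s Y KE acc : ℕ) (l : List ℕ) (c : ℕ) (ih : LT) (b : ℕ) : Bool :=
  rec (Nat.shiftRight s 12) (Nat.lor stx (Nat.shiftRight b 1024)) j acc l c (fun s' => ih s' (Nat.lor Y b) KE)
def it1 (s Y KE acc : ℕ) (l : List ℕ) (c : ℕ) (ih : LT) (b : ℕ) : Bool :=
  ih (Nat.shiftRight s 12) Y (Nat.lor KE b) acc l c
def it2 (rec : CT) (j stm s Y KE acc : ℕ) (l : List ℕ) (c : ℕ) (ih : LT) : Bool :=
  rec (Nat.shiftRight s 2) (Nat.lor stm KE) (Nat.sub j 1) acc l c (fun s' => ih s' (Nat.lor Y KE) 0)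
def loopS (rec : CT) (j stx stm : ℕ) (ih : LT) (s Y KE acc : ℕ) (l : List ℕ) (c : ℕ) : Bool :=
  @Bool.rec (fun _ => Bool) (@Bool.rec (fun _ => Bool)
      (it1 s Y KE acc l c ih (Nat.shiftLeft B2 (Nat.shiftRight (Nat.land s 4095) 2)))
      (it2 rec j stm s Y KE acc l c ih) (Nat.beq (Nat.land s 3) 2))
    (it0 rec j stx s Y KE acc l c ih (Nat.shiftLeft B2 (Nat.shiftRight (Nat.land s 4095) 2))) (Nat.beq (Nat.land s 3) 0)
/-- the replies to a quiet move: explicit ones, groups of covered ones, all other ones -/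
def loop (e : ℕ) (rec : CT) (j stx stm : ℕ) (k : KT) (n : ℕ) : LT :=
  @Nat.rec (fun _ => LT)
    (fun s Y _ acc l c => AND (Nat.beq (Nat.land Y e) 0) (rec s (Nat.lor stm (Nat.xor W2 Y)) (Nat.sub j 1) acc l c k))
    (fun _ ih s Y KE acc l c => loopS rec j stx stm ih s Y KE acc l c) n
def quiet2 (e : ℕ) (rec : CT) (s j acc : ℕ) (l : List ℕ) (c : ℕ) (k : KT) (h stx : ℕ) : Bool :=
  loop e rec j stx (Nat.lor (Nat.land stx MK) (Nat.shiftLeft (Nat.shiftRight stx 2048) 3072)) k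
    (Nat.shiftRight h 12) (Nat.shiftRight s 22) 0 0 acc l c
def quiet1 (e : ℕ) (rec : CT) (s st j acc : ℕ) (l : List ℕ) (c : ℕ) (k : KT) (h bx : ℕ) : Bool :=
  AND (Nat.ble 1 j) (psh (Nat.lor (Nat.shiftLeft acc 7168) (Nat.lor st bx)) l c
    (fun acc' l' c' => quiet2 e rec s j acc' l' c' k h (Nat.lor st (Nat.shiftRight bx 5120))))
def quiet (e : ℕ) (rec : CT) (s st j acc : ℕ) (l : List ℕ) (c : ℕ) (k : KT) (h : ℕ) : Bool :=
  quiet1 e rec s st j acc l c k h (Nat.shiftLeft B5 (Nat.land (Nat.shiftRight h 2) 1023))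
def kn (K : List ℕ) (s st j acc : ℕ) (l : List ℕ) (c : ℕ) (k : KT) : Bool :=
  AND (Nat.beq j 3) (AND (known K st) (k (Nat.shiftRight s 2) acc l c))
def stepC (K : List ℕ) (e : ℕ) (rec : CT) (s st j acc : ℕ) (l : List ℕ) (c : ℕ) (k : KT) : Bool :=
  @Bool.rec (fun _ => Bool) (@Bool.rec (fun _ => Bool) (kn K s st j acc l c k)
      (chain (fun s' st' acc' => rec s' st' j acc' l c k) (Nat.shiftRight (Nat.land s 255) 2) (Nat.shiftRight s 8) st acc)
      (Nat.beq (Nat.land s 3) 2))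
    (@Bool.rec (fun _ => Bool) (quiet e rec s st j acc l c k (Nat.land s 0x3fffff))
      (chain (five l c k) (Nat.shiftRight (Nat.land s 255) 2) (Nat.shiftRight s 8) st acc) (Nat.beq (Nat.land s 3) 0))
    (Nat.ble (Nat.land s 3) 1)
/-- The checker. -/
def chk (K : List ℕ) (e : ℕ) (n : ℕ) : CT :=
  @Nat.rec (fun _ => CT) (fun _ _ _ _ _ _ _ => false) (fun _ ih => stepC K e ih) n

end Pool.Agent.H184.G2
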