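import Pool.Agent.H184.G2.Root

set_option autoImplicit false

/-!
# Rows from checked classes
-/

namespace Pool.Agent.H184.G2

open Pool.Agent.H184.Gomoku

theorem cls_gen {hs : List Hdr} (H : ∀ h ∈ hs, Holds h) {c b w G : ℕ} (hc : classOK hs c b w G = true)
    (hcb : c ≠ b) {f : Cell → Cell} (hf : Function.Involutive f) (hl : LineMap f)
    (hfcb : f '' {cell c, cell b} = {cell c, cell b}) (hfw : f (cell w) = cell w)
    (hG : ∀ z : Cell, (∀ i < 1024, cell i = z → G.testBit i = true) ∨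
      (∀ i < 1024, cell i = f z → G.testBit i = true)) :
    ∃ n, Row n (cell w - cell c) := by
  obtain ⟨⟨h1, h2, h3, h4, h5⟩, n, hn⟩ := class_win H hc
  refine ⟨n + 1, row_of (c := cell c) (b := cell b) (w := cell w) ?_ ?_ fun z z1 z2 z3 => ?_⟩
  · exact fun e => hcb (cell_inj e).symm
  · exact fun e => h5 (cell_inj e).symm
  · rcases hG z with h | h
    · exact hn z z1 z2 z3 h
    · refine half_ext hf hl hfcb ?_
      rw [hfw]
      have key : ∀ y ∈ ({cell c, cell b} : Set Cell), f z ≠ y := by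
        intro y hy e
        have : z ∈ f '' {cell c, cell b} := ⟨y, hy, by rw [← e]; exact hf z⟩
        rw [hfcb] at this
        rcases this with h | h
        · exact z1 h
        · exact z2 h
      exact hn (f z) (key _ (Or.inl rfl)) (key _ (Or.inr rfl)) (fun e => z3 (by rw [← hf z, e, hfw])) h

theorem cls_all {hs : List Hdr} (H : ∀ h ∈ hs, Holds h) {c b w : ℕ} (hc : classOK hs c b w ONES = true)
    (hcb : c ≠ b) : ∃ n, Row n (cell w - cell c) := by
  refine cls_gen H hc hcb (f := id) (fun _ => rfl) (fun a d hd => ⟨a, d, hd, fun k hk => ⟨k, hk, rfl⟩⟩)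
    (Set.image_id _) rfl fun z => Or.inl fun i hi _ => ?_
  rw [tb_ones, decide_eq_true_eq]
  exact hi

/-- the cells with `16 ≤ y` -/
def GU : ℕ := Nat.xor ONES (Nat.sub (Nat.shiftLeft 1 512) 1)
/-- the cells with `x ≤ y` -/
def GD : ℕ := (List.range 32).foldl (fun a y => Nat.lor a (Nat.shiftLeft (Nat.sub (Nat.shiftLeft 1 (y + 1)) 1) (32 * y))) 0
/-- the cells with `33 ≤ x + y` -/
def GK : ℕ := (List.range 31).foldl (fun a y => Nat.lor a (Nat.shiftLeft (Nat.sub (Nat.shiftLeft 1 y) 1)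
  (32 * (y + 1) + 32 - y))) 0

theorem GU_ok : ∀ i < 1024, 16 ≤ i / 32 → GU.testBit i = true := by decide +kernel
theorem GD_ok : ∀ i < 1024, i % 32 ≤ i / 32 → GD.testBit i = true := by decide +kernel
theorem GK_ok : ∀ i < 1024, 33 ≤ i % 32 + i / 32 → GK.testBit i = true := by decide +kernel

theorem cls_up {hs : List Hdr} (H : ∀ h ∈ hs, Holds h) {c b w : ℕ} (hc : classOK hs c b w GU = true)
    (hcb : c ≠ b) (hc2 : fX 32 (cell c) = cell c) (hb2 : fX 32 (cell b) = cell b) (hw2 : fX 32 (cell w) = cell w) :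
    ∃ n, Row n (cell w - cell c) := by
  refine cls_gen H hc hcb (fX_inv 32) (fX_line 32) (by rw [Set.image_pair, hc2, hb2]) hw2 fun z => ?_
  by_cases h : 16 ≤ z.2
  · refine Or.inl fun i hi e => GU_ok i hi ?_
    have := congrArg Prod.snd e
    unfold cell at this
    have this : ((i / 32 : ℕ) : ℤ) = z.2 := this
    omega
  · refine Or.inr fun i hi e => GU_ok i hi ?_
    have := congrArg Prod.snd e
    unfold cell fX at this
    have this : ((i / 32 : ℕ) : ℤ) = 32 - z.2 := this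
    omega

theorem cls_dg {hs : List Hdr} (H : ∀ h ∈ hs, Holds h) {c b w : ℕ} (hc : classOK hs c b w GD = true)
    (hcb : c ≠ b) (hc2 : fD 0 (cell c) = cell c) (hb2 : fD 0 (cell b) = cell b) (hw2 : fD 0 (cell w) = cell w) :
    ∃ n, Row n (cell w - cell c) := by
  refine cls_gen H hc hcb (fD_inv 0) (fD_line 0) (by rw [Set.image_pair, hc2, hb2]) hw2 fun z => ?_
  by_cases h : z.1 ≤ z.2
  · refine Or.inl fun i hi e => GD_ok i hi ?_
    have e1 := congrArg Prod.fst e
    have e2 := congrArg Prod.snd e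
    unfold cell at e1 e2
    have e1 : ((i % 32 : ℕ) : ℤ) = z.1 := e1
    have e2 : ((i / 32 : ℕ) : ℤ) = z.2 := e2
    omega
  · refine Or.inr fun i hi e => GD_ok i hi ?_
    have e1 := congrArg Prod.fst e
    have e2 := congrArg Prod.snd e
    unfold cell fD at e1 e2
    have e1 : ((i % 32 : ℕ) : ℤ) = z.2 + 0 := e1
    have e2 : ((i / 32 : ℕ) : ℤ) = z.1 - 0 := e2
    omega

theorem cls_kh {hs : List Hdr} (H : ∀ h ∈ hs, Holds h) {c b w : ℕ} (hc : classOK hs c b w GK = true)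
    (hcb : c ≠ b) (hc2 : fK 33 (cell c) = cell b) (hb2 : fK 33 (cell b) = cell c) (hw2 : fK 33 (cell w) = cell w) :
    ∃ n, Row n (cell w - cell c) := by
  refine cls_gen H hc hcb (fK_inv 33) (fK_line 33) (by rw [Set.image_pair, hc2, hb2, Set.pair_comm]) hw2 fun z => ?_
  by_cases h : 33 ≤ z.1 + z.2
  · refine Or.inl fun i hi e => GK_ok i hi ?_
    have e1 := congrArg Prod.fst e
    have e2 := congrArg Prod.snd e
    unfold cell at e1 e2
    have e1 : ((i % 32 : ℕ) : ℤ) = z.1 := e1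
    have e2 : ((i / 32 : ℕ) : ℤ) = z.2 := e2
    omega
  · refine Or.inr fun i hi e => GK_ok i hi ?_
    have e1 := congrArg Prod.fst e
    have e2 := congrArg Prod.snd e
    unfold cell fK at e1 e2
    have e1 : ((i % 32 : ℕ) : ℤ) = 33 - z.2 := e1
    have e2 : ((i / 32 : ℕ) : ℤ) = 33 - z.1 := e2
    omega

/-- the cells with `14 ≤ y` -/
def GV : ℕ := Nat.xor ONES (Nat.sub (Nat.shiftLeft 1 448) 1)
theorem GV_ok : ∀ i < 1024, 14 ≤ i / 32 → GV.testBit i = true := by decide +kernel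
/-- the cells with `19 ≤ x` -/
def GF : ℕ := (List.range 32).foldl (fun a y => Nat.lor a (Nat.shiftLeft 0x1fff (32 * y + 19))) 0
theorem GF_ok : ∀ i < 1024, (19 : ℤ) ≤ ((i % 32 : ℕ) : ℤ) → GF.testBit i = true := by
  have h : ∀ i < 1024, 19 ≤ i % 32 → GF.testBit i = true := by decide +kernel
  intro i hi hx
  exact h i hi (by omega)

/-- the far stones -/
theorem far_row {hs h2 : List Hdr} (H : ∀ h ∈ hs, Holds h) (H2 : ∀ h ∈ h2, Holds h) {zl : List ℕ}
    (hc : farOK hs h2 zl 461 459 GF GV 19 = true) : ∃ n, ∀ w : Cell, 6 ≤ w.1 → Row n w := by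
  obtain ⟨-, n, hn⟩ := far_win H H2 GF_ok GV_ok hc
  have e1 : cell 461 = ((13 : ℤ), (14 : ℤ)) := rfl
  have e2 : cell 459 = ((11 : ℤ), (14 : ℤ)) := rfl
  rw [e1, e2] at hn
  have hcb : fX 28 '' {((13 : ℤ), (14 : ℤ)), ((11 : ℤ), (14 : ℤ))} = {((13 : ℤ), (14 : ℤ)), ((11 : ℤ), (14 : ℤ))} := by
    rw [Set.image_pair]; rfl
  refine ⟨n + 1, fun w hw => ?_⟩
  have e3 : w = (w + ((13 : ℤ), (14 : ℤ))) - ((13 : ℤ), (14 : ℤ)) := by rw [add_sub_cancel_right]
  rw [e3]
  have hw2 : (19 : ℤ) ≤ (w + ((13 : ℤ), (14 : ℤ))).1 := by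
    show (19 : ℤ) ≤ w.1 + 13
    omega
  generalize w + ((13 : ℤ), (14 : ℤ)) = v at hw2
  refine row_of (b := ((11 : ℤ), (14 : ℤ))) (by decide) ?_ fun z z1 z2 z3 => ?_
  · intro e
    rw [← e] at hw2
    exact absurd hw2 (by decide)
  · by_cases hz : 14 ≤ z.2
    · exact hn v z hw2 hz z1 z2 z3
    · refine half_ext (fX_inv 28) (fX_line 28) hcb ?_
      refine hn (fX 28 v) (fX 28 z) hw2 (by show (14 : ℤ) ≤ 28 - z.2; omega) ?_ ?_ ?_
      · intro e
        refine z1 ?_
        rw [← fX_inv 28 z, e]; rfl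
      · intro e
        refine z2 ?_
        rw [← fX_inv 28 z, e]; rfl
      · exact fun e => z3 ((fX_inv 28).injective e)

end Pool.Agent.H184.G2
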