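import Pool.Agent.H184.G2.Top
import Pool.Agent.H323.GomSym
import Pool.Agent.H686.GomPair

set_option autoImplicit false

/-!
# From lists of certificates to all replies
-/

namespace Pool.Agent.H184.G2

open Pool.Agent.H184.Gomoku

theorem eS_bit {x : ℕ} (hx : x < 1024) : eS (bit x) = {cell x} := by
  ext c
  constructor
  · rintro ⟨i, hi, rfl, h⟩
    rw [tb_bit, decide_eq_true_eq] at h
    rw [h]; rfl
  · rintro rfl
    exact ⟨x, hx, rfl, by rw [tb_bit]; simp⟩

theorem eS_lor (a b : ℕ) : eS (Nat.lor a b) = eS a ∪ eS b := by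
  ext c
  constructor
  · rintro ⟨i, hi, rfl, h⟩
    rw [tb_lor, Bool.or_eq_true] at h
    exact h.imp (fun h => ⟨i, hi, rfl, h⟩) (fun h => ⟨i, hi, rfl, h⟩)
  · rintro (⟨i, hi, rfl, h⟩ | ⟨i, hi, rfl, h⟩)
    · exact ⟨i, hi, rfl, by rw [tb_lor, h]; rfl⟩
    · exact ⟨i, hi, rfl, by rw [tb_lor, h, Bool.or_true]⟩

theorem eS_zero : eS 0 = ∅ := by
  ext c
  constructor
  · rintro ⟨i, _, _, h⟩
    rw [Nat.zero_testBit] at h
    exact absurd h Bool.false_ne_true
  · intro h; exact h.elim

theorem eS_two {x y : ℕ} (hx : x < 1024) (hy : y < 1024) : eS (Nat.lor (bit x) (bit y)) = {cell x, cell y} := by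
  rw [eS_lor, eS_bit hx, eS_bit hy]; rfl

/-- second stones of the defender covered by a certificate -/
def ctr (a w : ℕ) (h : Hdr) : ℕ :=
  cond (Nat.beq h.a a) (cond (Nat.beq h.k 0) (cond (Nat.beq h.d (Nat.lor (bit w) (bit h.z))) (bit h.z) 0)
    (cond (Nat.beq h.k 1) (cond (Nat.beq h.d (bit w)) (Nat.xor ONES h.m)
      (cond (Nat.beq h.d (bit h.z)) (cond (h.m.testBit w) 0 (bit h.z)) 0)) 0)) 0
def covA (a w : ℕ) (hs : List Hdr) : ℕ := @List.rec Hdr (fun _ => ℕ) 0 (fun h _ t => Nat.lor (ctr a w h) t) hs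
def hasT (a w : ℕ) (hs : List Hdr) : Bool :=
  @List.rec Hdr (fun _ => Bool) false (fun h _ t => cond (AND (Nat.beq h.a a) (AND (Nat.beq h.k 1) (Nat.beq h.d (bit w)))) true t) hs
/-- all second stones in `G` are covered -/
def classOK (hs : List Hdr) (c b w G : ℕ) : Bool :=
  AND (Nat.ble (Nat.succ c) 1024) (AND (Nat.ble (Nat.succ b) 1024) (AND (Nat.ble (Nat.succ w) 1024)
    (AND (!(Nat.lor (bit c) (bit b)).testBit w) (AND (hasT (Nat.lor (bit c) (bit b)) w hs)
      (sub G (Nat.lor (covA (Nat.lor (bit c) (bit b)) w hs) (Nat.lor (Nat.lor (bit c) (bit b)) (bit w))))))))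

theorem tb_covA {a w : ℕ} {hs : List Hdr} {i : ℕ} (h : (covA a w hs).testBit i = true) :
    ∃ x ∈ hs, (ctr a w x).testBit i = true := by
  induction hs with
  | nil =>
    have h : (0 : ℕ).testBit i = true := h
    rw [Nat.zero_testBit] at h; exact absurd h Bool.false_ne_true
  | cons x t ih =>
    have h : (Nat.lor (ctr a w x) (covA a w t)).testBit i = true := h
    rw [tb_lor, Bool.or_eq_true] at h
    rcases h with h | h
    · exact ⟨x, List.mem_cons_self, h⟩
    · obtain ⟨y, hy, h⟩ := ih h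
      exact ⟨y, List.mem_cons_of_mem _ hy, h⟩

theorem hasT_iff {a w : ℕ} {hs : List Hdr} (h : hasT a w hs = true) : ∃ x ∈ hs, x.a = a ∧ x.k = 1 ∧ x.d = bit w := by
  induction hs with
  | nil => exact absurd h Bool.false_ne_true
  | cons x t ih =>
    have h : cond (AND (Nat.beq x.a a) (AND (Nat.beq x.k 1) (Nat.beq x.d (bit w)))) true (hasT a w t) = true := h
    cases h1 : AND (Nat.beq x.a a) (AND (Nat.beq x.k 1) (Nat.beq x.d (bit w))) with
    | true =>
      rw [AND_iff, AND_iff] at h1
      exact ⟨x, List.mem_cons_self, Nat.eq_of_beq_eq_true h1.1, Nat.eq_of_beq_eq_true h1.2.1,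
        Nat.eq_of_beq_eq_true h1.2.2⟩
    | false =>
      rw [h1, cond_false] at h
      obtain ⟨y, hy, h⟩ := ih h
      exact ⟨y, List.mem_cons_of_mem _ hy, h⟩

theorem tb_xones (m i : ℕ) : (Nat.xor ONES m).testBit i = xor (decide (i < 1024)) (m.testBit i) := by
  have : Nat.xor ONES m = ONES ^^^ m := rfl
  rw [this, Nat.testBit_xor, tb_ones]

theorem sub_iff {a b : ℕ} (h : sub a b = true) {i : ℕ} (hi : a.testBit i = true) : b.testBit i = true := by
  unfold sub at h
  have h1 : Nat.land a b = a := Nat.eq_of_beq_eq_true h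
  have h2 : (Nat.land a b).testBit i = true := by rw [h1]; exact hi
  rw [tb_land, Bool.and_eq_true] at h2
  exact h2.2

/-- what the contribution means -/
theorem ctr_win {n a w i : ℕ} {h : Hdr} (H : HoldsN n h) (hw : w < 1024) (hwa : a.testBit w = false) (hi : i < 1024)
    (hia : a.testBit i = false) (hc : (ctr a w h).testBit i = true) : Win n (eS a) {cell w, cell i} := by
  have hz : ∀ x : ℕ, (0 : ℕ).testBit x = true → False := fun x hx => by
    rw [Nat.zero_testBit] at hx; exact Bool.false_ne_true hx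
  unfold ctr at hc
  cases ha : Nat.beq h.a a with
  | false => rw [ha, cond_false] at hc; exact (hz _ hc).elim
  | true =>
    have ha' : h.a = a := Nat.eq_of_beq_eq_true ha
    rw [ha, cond_true] at hc
    cases hk0 : Nat.beq h.k 0 with
    | true =>
      rw [hk0, cond_true] at hc
      cases hd : Nat.beq h.d (Nat.lor (bit w) (bit h.z)) with
      | false => rw [hd, cond_false] at hc; exact (hz _ hc).elim
      | true =>
        rw [hd, cond_true, tb_bit, decide_eq_true_eq] at hc
        have hd' : h.d = Nat.lor (bit w) (bit h.z) := Nat.eq_of_beq_eq_true hd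
        have := H.1 (Nat.eq_of_beq_eq_true hk0)
        rw [ha', hd', hc, eS_two hw hi] at this
        exact this
    | false =>
      rw [hk0, cond_false] at hc
      cases hk1 : Nat.beq h.k 1 with
      | false => rw [hk1, cond_false] at hc; exact (hz _ hc).elim
      | true =>
        have H1 := H.2.1 (Nat.eq_of_beq_eq_true hk1)
        rw [hk1, cond_true] at hc
        cases hd : Nat.beq h.d (bit w) with
        | true =>
          rw [hd, cond_true, tb_xones] at hc
          have e1 : decide (i < 1024) = true := by rw [decide_eq_true_eq]; exact hi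
          rw [e1] at hc
          have hm : h.m.testBit i = false := by
            cases hh : h.m.testBit i
            · rfl
            · rw [hh] at hc; exact absurd hc (by decide)
          have := H1 (cell i) (by rw [mem_eS hi, hm]; exact Bool.false_ne_true) (by
            rw [ha', mem_eS hi, hia]; exact Bool.false_ne_true)
          rw [ha', Nat.eq_of_beq_eq_true hd, eS_bit hw, Set.pair_comm] at this
          exact this
        | false =>
          rw [hd, cond_false] at hc
          cases hd2 : Nat.beq h.d (bit h.z) with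
          | false => rw [hd2, cond_false] at hc; exact (hz _ hc).elim
          | true =>
            rw [hd2, cond_true] at hc
            cases hm : h.m.testBit w with
            | true => rw [hm, cond_true] at hc; exact (hz _ hc).elim
            | false =>
              rw [hm, cond_false, tb_bit, decide_eq_true_eq] at hc
              have := H1 (cell w) (by rw [mem_eS hw, hm]; exact Bool.false_ne_true) (by
                rw [ha', mem_eS hw, hwa]; exact Bool.false_ne_true)
              rw [ha', Nat.eq_of_beq_eq_true hd2, hc, eS_bit hi] at this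
              exact this

theorem class_winN {hs : List Hdr} {n : ℕ} (hn : ∀ h ∈ hs, HoldsN n h) {c b w G : ℕ} (hc : classOK hs c b w G = true) :
    (c < 1024 ∧ b < 1024 ∧ w < 1024 ∧ w ≠ c ∧ w ≠ b) ∧
    ∀ z : Cell, z ≠ cell c → z ≠ cell b → z ≠ cell w → (∀ i < 1024, cell i = z → G.testBit i = true) →
      Win n {cell c, cell b} {cell w, z} := by
  unfold classOK at hc
  rw [AND_iff, AND_iff, AND_iff, AND_iff, AND_iff] at hc
  obtain ⟨h1, h2, h3, h4, h5, h6⟩ := hc
  have h1 : c < 1024 := Nat.le_of_ble_eq_true h1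
  have h2 : b < 1024 := Nat.le_of_ble_eq_true h2
  have h3 : w < 1024 := Nat.le_of_ble_eq_true h3
  have hwa : (Nat.lor (bit c) (bit b)).testBit w = false := by
    cases hh : (Nat.lor (bit c) (bit b)).testBit w
    · rfl
    · rw [hh] at h4; exact absurd h4 (by decide)
  have hwc : w ≠ c ∧ w ≠ b := by
    rw [tb_lor, Bool.or_eq_false_iff, tb_bit, tb_bit, decide_eq_false_iff_not, decide_eq_false_iff_not] at hwa
    exact ⟨fun e => hwa.1 e.symm, fun e => hwa.2 e.symm⟩
  refine ⟨⟨h1, h2, h3, hwc.1, hwc.2⟩, ?_⟩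
  intro z z1 z2 z3 hG
  by_cases hin : ∃ i < 1024, cell i = z
  · obtain ⟨i, hi, rfl⟩ := hin
    have h7 := sub_iff h6 (hG i hi rfl)
    have hic : c ≠ i := fun e => z1 (by rw [e])
    have hib : b ≠ i := fun e => z2 (by rw [e])
    have hiw : w ≠ i := fun e => z3 (by rw [e])
    have hia : (Nat.lor (bit c) (bit b)).testBit i = false := by
      rw [tb_lor, tb_bit, tb_bit, Bool.or_eq_false_iff, decide_eq_false_iff_not, decide_eq_false_iff_not]
      exact ⟨hic, hib⟩
    rw [tb_lor, tb_lor, hia, tb_bit] at h7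
    have e1 : decide (w = i) = false := by rw [decide_eq_false_iff_not]; exact hiw
    rw [e1, Bool.or_false, Bool.or_false] at h7
    obtain ⟨x, hx, h8⟩ := tb_covA h7
    have := ctr_win (hn x hx) h3 hwa hi hia h8
    rwa [eS_two h1 h2] at this
  · obtain ⟨x, hx, x1, x2, x3⟩ := hasT_iff h5
    have := (hn x hx).2.1 x2 z (fun ⟨i, hi, he, _⟩ => hin ⟨i, hi, he⟩) (fun ⟨i, hi, he, _⟩ => hin ⟨i, hi, he⟩)
    rw [x1, x3, eS_bit h3, eS_two h1 h2, Set.pair_comm z] at this
    exact this

theorem class_win {hs : List Hdr} (H : ∀ h ∈ hs, Holds h) {c b w G : ℕ} (hc : classOK hs c b w G = true) :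
    (c < 1024 ∧ b < 1024 ∧ w < 1024 ∧ w ≠ c ∧ w ≠ b) ∧
    ∃ n, ∀ z : Cell, z ≠ cell c → z ≠ cell b → z ≠ cell w → (∀ i < 1024, cell i = z → G.testBit i = true) →
      Win n {cell c, cell b} {cell w, z} := by
  obtain ⟨n, hn⟩ := holds_all H
  exact ⟨(class_winN hn hc).1, n, (class_winN hn hc).2⟩

/-! ### pairs of far stones -/

theorem mf {P : ℕ → Prop} {I : DecidablePred P} {j : ℕ} :
    j ∈ @Finset.filter ℕ P I (Finset.range 5) ↔ j < 5 ∧ P j := by
  rw [Finset.mem_filter, Finset.mem_range]

theorem cnt_insert_le (S : Set Cell) (y a d : Cell) (hd : d ∈ dirs) : cnt (insert y S) a d ≤ cnt S a d + 1 := by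
  unfold cnt
  by_cases h : ∃ k < 5, a + ((k : ℕ) : ℤ) • d = y
  · obtain ⟨k, hk, hy⟩ := h
    refine (Finset.card_le_card ?_).trans (Finset.card_insert_le k _)
    intro j hj
    obtain ⟨hj1, hj2⟩ := mf.1 hj
    rw [Finset.mem_insert]
    rcases hj2 with h1 | h1
    · exact Or.inl (line_inj hd j hj1 k hk (h1.trans hy.symm))
    · exact Or.inr (mf.2 ⟨hj1, h1⟩)
  · refine (Finset.card_le_card ?_).trans (Nat.le_succ _)
    intro j hj
    obtain ⟨hj1, hj2⟩ := mf.1 hj
    refine mf.2 ⟨hj1, ?_⟩
    rcases hj2 with h1 | h1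
    · exact absurd ⟨j, hj1, h1⟩ h
    · exact h1

theorem ctl_of_thin {E : Set Cell} {m : ℕ} : ∀ {j : ℕ} {U V : Set Cell}, j ≤ m → j ≤ 3 →
    (∀ a d : Cell, d ∈ dirs → cnt (U ∪ V) a d ≤ 3 - j) → Ctl E m j ∅ U V := by
  induction m with
  | zero =>
    intro j U V hj _ h
    have : j = 0 := by omega
    subst this
    exact ⟨fun a d hd _ => h a d hd, rfl⟩
  | succ m ih =>
    intro j U V hj hj3 h
    refine ⟨fun a d hd _ => (h a d hd).trans (by omega), ?_⟩
    by_cases hj0 : j = 0
    · exact Or.inl hj0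
    · refine Or.inr fun y _ _ _ => Or.inl ⟨j - 1, by omega, ih (by omega) (by omega) fun a d hd => ?_⟩
      have e : U ∪ insert y V = insert y (U ∪ V) := Set.union_insert
      rw [e]
      refine (cnt_insert_le _ y a d hd).trans ?_
      have := h a d hd
      omega

/-- two stones which are not on a common line of five cells -/
def Apart (w z : Cell) : Prop := ∀ d ∈ dirs, ∀ t : ℤ, 1 ≤ t → t ≤ 4 → z ≠ w + t • d ∧ w ≠ z + t • d

theorem cnt_apart {w z : Cell} (h : Apart w z) {a d : Cell} (hd : d ∈ dirs) : cnt {w, z} a d ≤ 1 := by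
  unfold cnt
  rw [Finset.card_le_one]
  intro i hi j hj
  obtain ⟨hi1, hi2⟩ := mf.1 hi
  obtain ⟨hj1, hj2⟩ := mf.1 hj
  by_contra hij
  have key : ∀ i j : ℕ, i < j → j < 5 → a + (i : ℤ) • d ∈ ({w, z} : Set Cell) → a + (j : ℤ) • d ∈ ({w, z} : Set Cell) → False := by
    intro i j hij hj5 h1 h2
    have hne : a + (i : ℤ) • d ≠ a + (j : ℤ) • d := fun e => by
      have := line_inj hd i (by omega) j hj5 e
      omega
    have hsh : a + (j : ℤ) • d = (a + (i : ℤ) • d) + ((j : ℤ) - i) • d := by
      rw [sub_smul]; abel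
    rcases h1 with h1 | h1 <;> rcases h2 with h2 | h2
    · exact hne (h1.trans h2.symm)
    · have h2 : a + (j : ℤ) • d = z := h2
      exact (h d hd ((j : ℤ) - i) (by omega) (by omega)).1 (by rw [← h1, ← h2, hsh])
    · have h1 : a + (i : ℤ) • d = z := h1
      exact (h d hd ((j : ℤ) - i) (by omega) (by omega)).2 (by rw [← h1, ← h2, hsh])
    · exact hne (h1.trans h2.symm)
  rcases Nat.lt_or_gt_of_ne hij with h1 | h1
  · exact key i j h1 hj1 hi2 hj2
  · exact key j i h1 hi1 hj2 hi2

theorem apart_ok {E : Set Cell} {w z : Cell} (h : Apart w z) (hw : w ∉ E) (hz : z ∉ E) :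
    Near E ∅ {w, z} ∧ Ctl E 6 2 ∅ {w, z} ∅ := by
  refine ⟨⟨fun c hc => hc.elim, ?_, fun c hc => hc.elim, fun a d hd _ _ => cnt_apart h hd⟩, ?_⟩
  · rintro c (rfl | hc)
    · exact hw
    · have hc : c = z := hc
      rw [hc]; exact hz
  · refine ctl_of_thin (by norm_num) (by norm_num) fun a d hd => ?_
    rw [Set.union_empty]
    exact cnt_apart h hd

end Pool.Agent.H184.G2
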