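import Pool.Agent.H184.G2.Plain
import Pool.Agent.H184.Gomoku.Env

set_option autoImplicit false

/-!
# Won positions with far stones
-/

namespace Pool.Agent.H184.G2

open Pool.Agent.H184.Gomoku

/-- the zone -/
def eS (E : ℕ) : Set Cell := {c | ∃ i < 1024, cell i = c ∧ E.testBit i = true}

theorem mem_eS {E i : ℕ} (hi : i < 1024) : cell i ∈ eS E ↔ E.testBit i = true :=
  ⟨fun ⟨_, _, h2, h3⟩ => by rwa [← cell_inj h2], fun h => ⟨i, hi, rfl, h⟩⟩

/-- the stones are in the zone, and the last mask is the zone -/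
def EOK (E st j : ℕ) : Prop := j ≤ 2 ∧ (∀ i < 1024, st.testBit i = true → E.testBit i = true) ∧
  (∀ i < 1024, st.testBit (1024 + i) = true → E.testBit i = true) ∧
  ∀ i < 1024, st.testBit (1024 * (4 - j) + i) = !E.testBit i

/-- the conditions on the environment -/
structure Cond (E st m j : ℕ) (EA U : Set Cell) (us : List Cell) : Prop where
  len : us.length = 2 - j
  av : AvoidS st us
  usEA : ∀ u ∈ us, u ∉ EA
  near : Near (eS E) EA U
  ctl : Ctl (eS E) m j EA U {u | u ∈ us}

def GE (E st j : ℕ) : Prop := EOK E st j → ∀ m, ∃ n, ∀ (EA U : Set Cell) (us : List Cell),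
  Cond E st m j EA U us → Win n (aS st ∪ EA) (dS st ∪ U ∪ {u | u ∈ us})

def HE (E st j : ℕ) (S : Set Cell) : Prop := EOK E st j → ∀ m, ∃ n, ∀ (EA U : Set Cell) (us : List Cell),
  Cond E st (m + 1) j EA U us → ∀ y ∈ S, y ∉ aS st ∪ EA → y ∉ dS st ∪ U ∪ {u | u ∈ us} →
    Win n (aS st ∪ EA) (insert y (dS st ∪ U ∪ {u | u ∈ us})) ∨
    ∃ b, b ∉ EA ∧ b ∉ U ∧ b ∉ us ∧ b ≠ y ∧ b ∉ eS E ∧ y ∉ eS E ∧
      Near (eS E) (insert b EA) (insert y U) ∧ Ctl (eS E) m j (insert b EA) (insert y U) {u | u ∈ us}

theorem ctl_thin {E : Set Cell} {m j : ℕ} {EA U V : Set Cell} (h : Ctl E m j EA U V) : Thin EA (U ∪ V) 3 := by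
  cases m with
  | zero => exact h.1
  | succ m => exact h.1

theorem ctl_mono {E : Set Cell} {m : ℕ} : ∀ {j : ℕ} {EA U V : Set Cell}, Ctl E m j EA U V → Ctl E (m + 1) j EA U V := by
  induction m with
  | zero =>
    intro j EA U V h
    exact ⟨h.1, Or.inl h.2⟩
  | succ m ih =>
    intro j EA U V h
    refine ⟨h.1, h.2.imp id fun h2 y h3 h4 h5 => ?_⟩
    rcases h2 y h3 h4 h5 with ⟨i, h6, h7⟩ | ⟨b, h6, h7, h8, h9, h10, h11, h12, h13⟩
    · exact Or.inl ⟨i, h6, ih h7⟩
    · exact Or.inr ⟨b, h6, h7, h8, h9, h10, h11, h12, ih h13⟩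

theorem aS_sub {E st j : ℕ} (h : EOK E st j) {c : Cell} (hc : c ∈ aS st) : c ∈ eS E := by
  obtain ⟨i, hi, rfl, h1⟩ := hc
  exact ⟨i, hi, rfl, h.2.1 i hi h1⟩

theorem dS_sub {E st j : ℕ} (h : EOK E st j) {c : Cell} (hc : c ∈ dS st) : c ∈ eS E := by
  obtain ⟨i, hi, rfl, h1⟩ := hc
  exact ⟨i, hi, rfl, h.2.2.1 i hi h1⟩

theorem mem_of_fr {E st j x : ℕ} (h : EOK E st j) (hx : x < 1024) (hF : Fr st x) : cell x ∈ eS E := by
  rw [mem_eS hx]
  have h1 := h.2.2.2 x hx
  have h2 := h.1
  obtain ⟨-, -, f1, f2, f3⟩ := hF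
  have h3 : st.testBit (1024 * (4 - j) + x) = false := by
    have : j = 0 ∨ j = 1 ∨ j = 2 := by omega
    rcases this with rfl | rfl | rfl
    · exact f3
    · exact f2
    · exact f1
  rw [h3] at h1
  cases hE : E.testBit x
  · rw [hE] at h1; exact absurd h1 (by decide)
  · rfl

theorem eok_mvx {E st j x : ℕ} (h : EOK E st j) (hx : x < 1024) (hF : Fr st x) : EOK E (mvx st x) j := by
  have hxE := (mem_eS hx).1 (mem_of_fr h hx hF)
  obtain ⟨h1, h2, h3, h4⟩ := h
  refine ⟨h1, fun i hi hc => ?_, fun i hi hc => ?_, fun i hi => ?_⟩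
  · rw [tb_mvx, Bool.or_eq_true, decide_eq_true_eq] at hc
    rcases hc with hc | rfl
    · exact h2 i hi hc
    · exact hxE
  · rw [tb_mvx, Bool.or_eq_true, decide_eq_true_eq] at hc
    rcases hc with hc | hc
    · exact h3 i hi hc
    · omega
  · rw [tb_mvx, h4 i hi]
    have : decide (x = 1024 * (4 - j) + i) = false := by rw [decide_eq_false_iff_not]; omega
    rw [this, Bool.or_false]

theorem eok_mvy {E st j y : ℕ} (h : EOK E st j) (hy : y < 1024) (hE : E.testBit y = true) : EOK E (mvy st y) j := by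
  obtain ⟨h1, h2, h3, h4⟩ := h
  refine ⟨h1, fun i hi hc => ?_, fun i hi hc => ?_, fun i hi => ?_⟩
  · rw [tb_mvy, Bool.or_eq_true, decide_eq_true_eq] at hc
    rcases hc with hc | hc
    · exact h2 i hi hc
    · omega
  · rw [tb_mvy, Bool.or_eq_true, decide_eq_true_eq] at hc
    rcases hc with hc | hc
    · exact h3 i hi hc
    · have : y = i := by omega
      rw [← this]; exact hE
  · rw [tb_mvy, h4 i hi]
    have : decide (1024 + y = 1024 * (4 - j) + i) = false := by rw [decide_eq_false_iff_not]; omega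
    rw [this, Bool.or_false]

theorem eok_mk {E st j M : ℕ} (h : EOK E st j) (hj : 1 ≤ j) (hM : Fld M) : EOK E (mk st M) (j - 1) := by
  obtain ⟨h1, h2, h3, h4⟩ := h
  refine ⟨by omega, fun i hi hc => ?_, fun i hi hc => ?_, fun i hi => ?_⟩
  · rw [tb_mk_lt hM (by omega)] at hc
    exact h2 i hi hc
  · rw [tb_mk_lt hM (by omega)] at hc
    exact h3 i hi hc
  · rw [tb_mk_ge hM (by omega), show 1024 * (4 - (j - 1)) + i - 1024 = 1024 * (4 - j) + i by omega]
    exact h4 i hi

theorem exists_out (E : ℕ) : ∃ u : Cell, u ∉ eS E := by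
  refine ⟨((-1 : ℤ), (0 : ℤ)), ?_⟩
  rintro ⟨i, _, h, _⟩
  unfold cell at h
  rw [Prod.mk.injEq] at h
  have := h.1
  omega

open Classical in
theorem card_ge_of_all {c : ℕ → Cell} (hc : ∀ i < 5, ∀ j < 5, c i = c j → i = j) {y : Cell} {P : Set Cell}
    (h : ∀ k < 5, c k = y ∨ c k ∈ P) :
    4 ≤ ((Finset.range 5).filter (fun k => c k ∈ P)).card := by
  by_cases hex : ∃ k0 < 5, c k0 = y
  · obtain ⟨k0, hk0, he⟩ := hex
    have hsub : (Finset.range 5).erase k0 ⊆ (Finset.range 5).filter (fun k => c k ∈ P) := by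
      intro k hk
      rw [Finset.mem_erase, Finset.mem_range] at hk
      rw [Finset.mem_filter, Finset.mem_range]
      refine ⟨hk.2, ?_⟩
      rcases h k hk.2 with h1 | h1
      · exact absurd (hc k hk.2 k0 hk0 (h1.trans he.symm)) hk.1
      · exact h1
    have := Finset.card_le_card hsub
    rw [Finset.card_erase_of_mem (Finset.mem_range.2 hk0), Finset.card_range] at this
    omega
  · have hsub : Finset.range 5 ⊆ (Finset.range 5).filter (fun k => c k ∈ P) := by
      intro k hk
      rw [Finset.mem_filter]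
      refine ⟨hk, ?_⟩
      rcases h k (Finset.mem_range.1 hk) with h1 | h1
      · exact absurd ⟨k, Finset.mem_range.1 hk, h1⟩ hex
      · exact h1
    have := Finset.card_le_card hsub
    rw [Finset.card_range] at this
    omega

theorem line_inj {a d : Cell} (hd : d ∈ dirs) : ∀ i < 5, ∀ j < 5, a + ((i : ℕ) : ℤ) • d = a + ((j : ℕ) : ℤ) • d → i = j := by
  intro i _ j _ h
  simp only [add_right_inj] at h
  have hd' : d = (1, 0) ∨ d = (0, 1) ∨ d = (1, 1) ∨ d = (1, -1) := by simpa [dirs] using hd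
  rcases hd' with rfl | rfl | rfl | rfl <;>
    simp only [Prod.smul_mk, smul_eq_mul, Prod.mk.injEq, mul_one, mul_zero] at h <;> omega

open Classical in
theorem safeE {E st j : ℕ} (h : SafeP st) (hE : EOK E st j) {m : ℕ} {EA U : Set Cell} {us : List Cell}
    (hC : Cond E st m j EA U us) {y : Cell} (hyA : y ∉ aS st ∪ EA) :
    ¬ Five (insert y (dS st ∪ U ∪ {u | u ∈ us})) := by
  rintro ⟨a, d, hd, hk⟩
  obtain ⟨hN1, hN2, hN3, hN4⟩ := hC.near
  have hfree : Free EA a d := by
    intro k hk5 hEA
    rcases hk k hk5 with h1 | (h1 | h1) | h1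
    · exact hyA (Or.inr (h1 ▸ hEA))
    · exact hN1 _ hEA (dS_sub hE h1)
    · exact hN3 _ hEA h1
    · exact hC.usEA _ h1 hEA
  by_cases hD : ∃ k : ℕ, k < 5 ∧ a + (k : ℤ) • d ∈ dS st
  · obtain ⟨k0, hk0, hkD⟩ := hD
    have hcnt := hN4 a d hd hfree ⟨k0, hk0, dS_sub hE hkD⟩
    obtain ⟨u0, hu0, hu1⟩ : ∃ u0 : Cell, u0 ∉ eS E ∧ ∀ k : ℕ, k < 5 → a + (k : ℤ) • d ∈ U → a + (k : ℤ) • d = u0 := by
      by_cases hex : ∃ k : ℕ, k < 5 ∧ a + (k : ℤ) • d ∈ U
      · obtain ⟨k1, hk1, hkU⟩ := hex
        refine ⟨_, hN2 _ hkU, fun k hk5 hkU' => ?_⟩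
        unfold cnt at hcnt
        rw [Finset.card_le_one] at hcnt
        have := hcnt k (by rw [Finset.mem_filter, Finset.mem_range]; exact ⟨hk5, hkU'⟩) k1
          (by rw [Finset.mem_filter, Finset.mem_range]; exact ⟨hk1, hkU⟩)
        rw [this]
      · obtain ⟨u, hu⟩ := exists_out E
        exact ⟨u, hu, fun k hk5 hkU => absurd ⟨k, hk5, hkU⟩ hex⟩
    have hav : AvoidS st (us ++ [u0]) := by
      refine ⟨fun t ht i hi hc => ?_, fun u hu => ?_⟩
      · rw [List.length_append, List.length_singleton] at ht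
        by_cases ht' : t < us.length
        · rw [List.getElem_append_left ht'] at hc
          exact hC.av.1 t ht' i hi hc
        · rw [List.getElem_append_right (by omega)] at hc
          have hc : cell i = u0 := by simpa using hc
          have : t = 2 - j := by rw [← hC.len]; omega
          have h4 := hE.2.2.2 i hi
          have h5 : E.testBit i = false := by
            by_contra hcc
            rw [Bool.not_eq_false] at hcc
            exact hu0 ⟨i, hi, hc, hcc⟩
          have h6 := hE.1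
          rw [this, show 2048 + 1024 * (2 - j) + i = 1024 * (4 - j) + i by omega, h4, h5]
          rfl
      · rcases List.mem_append.1 hu with hu | hu
        · exact hC.av.2 u hu
        · rw [List.mem_singleton.1 hu]
          exact fun hc => hu0 (aS_sub hE hc)
    refine safe_core h (us := us ++ [u0]) (a := a) ?_ hav (fun hc => hyA (Or.inl hc)) hd ?_
    · rw [List.length_append, hC.len, List.length_singleton]; omega
    · intro k hk5
      rcases hk k hk5 with h1 | (h1 | h1) | h1
      · exact Or.inl h1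
      · exact Or.inr (Or.inl h1)
      · refine Or.inr (Or.inr ?_)
        rw [hu1 k hk5 h1]
        simp
      · refine Or.inr (Or.inr ?_)
        exact List.mem_append_left _ h1
  · have hthin := ctl_thin hC.ctl a d hd hfree
    have := card_ge_of_all (c := fun k : ℕ => a + (k : ℤ) • d) (line_inj hd) (y := y) (P := U ∪ {u | u ∈ us})
      (fun k hk5 => by
        rcases hk k hk5 with h1 | (h1 | h1) | h1
        · exact Or.inl h1
        · exact absurd ⟨k, hk5, h1⟩ hD
        · exact Or.inr (Or.inl h1)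
        · exact Or.inr (Or.inr h1))
    unfold cnt at hthin
    have h3 : 4 ≤ 3 := le_trans this hthin
    omega

theorem cond_mvx {E st m j x : ℕ} {EA U : Set Cell} {us : List Cell} (h : Cond E st m j EA U us) (hx : x < 1024)
    (hn : cell x ∉ us) : Cond E (mvx st x) m j EA U us := ⟨h.len, avoid_mvx h.av hx hn, h.usEA, h.near, h.ctl⟩

theorem cond_mvy {E st m j y : ℕ} {EA U : Set Cell} {us : List Cell} (h : Cond E st m j EA U us) :
    Cond E (mvy st y) m j EA U us := ⟨h.len, avoid_mvy h.av, h.usEA, h.near, h.ctl⟩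

theorem notMemA {E st m j x : ℕ} {EA U : Set Cell} {us : List Cell} (hE : EOK E st j) (h : Cond E st m j EA U us)
    (hx : x < 1024) (hF : Fr st x) : cell x ∉ aS st ∪ EA ∧ cell x ∉ dS st ∪ U ∪ {u | u ∈ us} := by
  have hxE := mem_of_fr hE hx hF
  obtain ⟨hN1, hN2, hN3, hN4⟩ := h.near
  constructor
  · rintro (h1 | h1)
    · rw [mem_aS hx, hF.1] at h1; exact Bool.false_ne_true h1
    · exact hN1 _ h1 hxE
  · rintro ((h1 | h1) | h1)
    · rw [mem_dS hx, hF.2.1] at h1; exact Bool.false_ne_true h1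
    · exact hN2 _ h1 hxE
    · exact not_us h.av (by have := h.len; omega) hx hF h1

theorem rulesE {E e : ℕ} (he : ∀ i < 1024, e.testBit (2048 + i) = !E.testBit i) : Rules [] e (GE E) (HE E) := by
  refine ⟨?_, ?_, ?_, ?_, ?_, ?_, ?_, ?_, ?_⟩
  · intro st j x hI hx hF h5 hE m
    refine ⟨1, fun EA U us hC => ?_⟩
    obtain ⟨n1, n2⟩ := notMemA hE hC hx hF
    refine ⟨cell x, n1, n2, Or.inl (h5.mono ?_)⟩
    exact Set.insert_subset_insert Set.subset_union_left
  · intro st j x y hI hx hy hFx hFy h5 hS hG hE m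
    by_cases hxy : x = y
    · subst hxy
      refine ⟨1, fun EA U us hC => ?_⟩
      obtain ⟨n1, n2⟩ := notMemA hE hC hx hFx
      refine ⟨cell x, n1, n2, Or.inl (h5.mono ?_)⟩
      rw [Set.insert_idem]
      exact Set.insert_subset_insert Set.subset_union_left
    have hEx := eok_mvx hE hx hFx
    have hyE : E.testBit y = true := (mem_eS hy).1 (mem_of_fr hE hy hFy)
    obtain ⟨n, hn⟩ := hG (eok_mvy hEx hy hyE) m
    refine ⟨n + 2, fun EA U us hC => ?_⟩
    obtain ⟨n1, n2⟩ := notMemA hE hC hx hFx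
    obtain ⟨n3, n4⟩ := notMemA hE hC hy hFy
    have hxu : cell x ∉ us := fun h => n2 (Or.inr h)
    have hCx := cond_mvx hC hx hxu
    refine ⟨cell x, n1, n2, Or.inr fun y' hy' hy'' => ⟨?_, ?_⟩⟩
    · have := safeE hS hEx hCx (y := y') (by rw [aS_mvx hx, Set.insert_union]; exact hy')
      rwa [dS_mvx hx] at this
    · by_cases he' : y' = cell y
      · subst he'
        have := hn EA U us (cond_mvy hCx)
        rw [aS_mvy, aS_mvx hx, dS_mvy hy, dS_mvx hx, Set.insert_union, Set.insert_union, Set.insert_union] at this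
        exact this.mono (by omega)
      · have hw : Win 1 (insert (cell x) (aS st ∪ EA)) (insert y' (dS st ∪ U ∪ {u | u ∈ us})) := by
          refine ⟨cell y, ?_, ?_, Or.inl (h5.mono ?_)⟩
          · rintro (h | h)
            · exact hxy (cell_inj h).symm
            · exact n3 h
          · rintro (h | h)
            · exact he' h.symm
            · exact n4 h
          · exact Set.insert_subset_insert (Set.insert_subset_insert Set.subset_union_left)
        exact hw.mono (by omega)
  · intro st j y hI hj hy hey hG hE m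
    have hyE : E.testBit y = true := by
      rw [he y hy] at hey
      cases h : E.testBit y
      · rw [h] at hey; exact absurd hey (by decide)
      · rfl
    obtain ⟨n, hn⟩ := hG (eok_mvy hE hy hyE) (m + 1)
    refine ⟨n, fun EA U us hC y' hy' _ _ => Or.inl ?_⟩
    have hy' : y' = cell y := hy'
    subst hy'
    have := hn EA U us (cond_mvy hC)
    rwa [aS_mvy, dS_mvy hy, Set.insert_union, Set.insert_union] at this
  · intro st j M hI hj hM hG hE m
    obtain ⟨n, hn⟩ := hG (eok_mk hE hj hM) m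
    refine ⟨n, fun EA U us hC y hyS hyA hyD => ?_⟩
    have hctl := hC.ctl.2
    rcases hctl with h0 | hctl
    · omega
    have hyEA : y ∉ EA := fun h => hyA (Or.inr h)
    have hyU : y ∉ U := fun h => hyD (Or.inl (Or.inr h))
    have hyus : y ∉ us := fun h => hyD (Or.inr h)
    rcases hctl y hyEA hyU hyus with ⟨i, hi, hct⟩ | ⟨b, b1, b2, b3, b4, b5, b6, b7, b8⟩
    · left
      have hji : j - 1 = i := by omega
      have hj2 := hE.1
      have := hn EA U (y :: us) ⟨by rw [List.length_cons, hC.len]; omega,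
        avoid_mk hM hC.av (fun h => hyA (Or.inl h)) hyS, by
          intro u hu
          rcases List.mem_cons.1 hu with rfl | hu
          · exact hyEA
          · exact hC.usEA u hu, hC.near, by
          rw [hji]
          have e : {u | u ∈ y :: us} = insert y {u | u ∈ us} := by
            ext u
            simp only [Set.mem_setOf_eq, List.mem_cons, Set.mem_insert_iff]
          rw [e]; exact hct⟩
      rw [aS_mk hM, dS_mk hM] at this
      have e : insert y (dS st ∪ U ∪ {u | u ∈ us}) = dS st ∪ U ∪ {u | u ∈ y :: us} := by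
        ext u
        simp only [Set.mem_union, Set.mem_setOf_eq, List.mem_cons, Set.mem_insert_iff]
        tauto
      rw [e]; exact this
    · right
      exact ⟨b, b1, b2, b3, b4, b5, b6, b7, b8⟩
  · intro st j S T h1 h2 hE m
    obtain ⟨n1, h1⟩ := h1 hE m
    obtain ⟨n2, h2⟩ := h2 hE m
    refine ⟨max n1 n2, fun EA U us hC y hy hyA hyD => ?_⟩
    rcases hy with hy | hy
    · exact (h1 EA U us hC y hy hyA hyD).imp (fun h => h.mono (le_max_left _ _)) id
    · exact (h2 EA U us hC y hy hyA hyD).imp (fun h => h.mono (le_max_right _ _)) id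
  · intro st j S T h1 hT hE m
    obtain ⟨n, h1⟩ := h1 hE m
    exact ⟨n, fun EA U us hC y hy hyA hyD => h1 EA U us hC y (hT hy) hyA hyD⟩
  · intro st j x hI hj hx hFx hS hH hE
    have hEx := eok_mvx hE hx hFx
    have hH := hH hEx
    have main : ∀ m, ∃ n, ∀ (EA U : Set Cell) (us : List Cell), Cond E (mvx st x) m j EA U us →
        ∀ y, y ∉ aS (mvx st x) ∪ EA → y ∉ dS (mvx st x) ∪ U ∪ {u | u ∈ us} →
          ¬ Five (insert y (dS (mvx st x) ∪ U ∪ {u | u ∈ us})) ∧
          Win n (aS (mvx st x) ∪ EA) (insert y (dS (mvx st x) ∪ U ∪ {u | u ∈ us})) := by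
      intro m
      induction m with
      | zero =>
        refine ⟨0, fun EA U us hC => ?_⟩
        have := hC.ctl.2
        omega
      | succ m ih =>
        obtain ⟨n1, h1⟩ := hH m
        obtain ⟨n2, h2⟩ := ih
        refine ⟨max n1 (n2 + 1), fun EA U us hC y hyA hyD => ⟨safeE hS hEx hC hyA, ?_⟩⟩
        rcases h1 EA U us hC y trivial hyA hyD with h3 | ⟨b, b1, b2, b3, b4, b5, b6, b7, b8⟩
        · exact h3.mono (le_max_left _ _)
        · refine Win.mono (le_max_right _ _) ?_
          have hbA : b ∉ aS (mvx st x) := fun h => b5 (aS_sub hEx h)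
          have hbD : b ∉ dS (mvx st x) := fun h => b5 (dS_sub hEx h)
          refine ⟨b, ?_, ?_, Or.inr fun y' hy' hy'' => ?_⟩
          · rintro (h | h)
            · exact hbA h
            · exact b1 h
          · rintro (h | (h | h) | h)
            · exact b4 h
            · exact hbD h
            · exact b2 h
            · exact b3 h
          · have hC' : Cond E (mvx st x) m j (insert b EA) (insert y U) us := by
              refine ⟨hC.len, hC.av, ?_, b7, b8⟩
              rintro u hu (h | h)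
              · exact b3 (h ▸ hu)
              · exact hC.usEA u hu h
            have e1 : insert b (aS (mvx st x) ∪ EA) = aS (mvx st x) ∪ insert b EA := by
              rw [Set.union_insert]
            have e2 : insert y (dS (mvx st x) ∪ U ∪ {u | u ∈ us}) = dS (mvx st x) ∪ insert y U ∪ {u | u ∈ us} := by
              rw [Set.union_insert, Set.insert_union]
            rw [e1] at hy' ⊢
            rw [e2] at hy'' ⊢
            exact h2 (insert b EA) (insert y U) us hC' y' hy' hy''
    intro m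
    obtain ⟨n, hn⟩ := main m
    refine ⟨n + 1, fun EA U us hC => ?_⟩
    obtain ⟨n1, n2⟩ := notMemA hE hC hx hFx
    have hxu : cell x ∉ us := fun h => n2 (Or.inr h)
    refine ⟨cell x, n1, n2, Or.inr fun y' hy' hy'' => ?_⟩
    have := hn EA U us (cond_mvx hC hx hxu) y' (by rw [aS_mvx hx, Set.insert_union]; exact hy')
      (by rw [dS_mvx hx]; exact hy'')
    rwa [aS_mvx hx, dS_mvx hx, Set.insert_union] at this
  · intro st j hE m
    exact ⟨0, fun EA U us _ y hy => hy.elim⟩
  · intro st hst
    exact absurd hst (by simp)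

end Pool.Agent.H184.G2
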