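import Pool.Agent.H184.G2.Cover

set_option autoImplicit false

/-!
# Far first stones of the defender
-/

namespace Pool.Agent.H184.G2

open Pool.Agent.H184.Gomoku

def inE (m : ℕ) (p : ℤ × ℤ) : Bool :=
  decide (0 ≤ p.1) && (decide (p.1 < 32) && (decide (0 ≤ p.2) && (decide (p.2 < 32) &&
    m.testBit (p.2.toNat * 32 + p.1.toNat))))

theorem inE_of_mem {m : ℕ} {p : Cell} (h : p ∈ eS m) : inE m p = true := by
  obtain ⟨i, hi, rfl, hb⟩ := h
  unfold inE cell
  have e1 : ((i % 32 : ℕ) : ℤ).toNat = i % 32 := Int.toNat_natCast _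
  have e2 : ((i / 32 : ℕ) : ℤ).toNat = i / 32 := Int.toNat_natCast _
  have e3 : i / 32 * 32 + i % 32 = i := by omega
  simp only [e1, e2, e3, hb, Bool.and_true, Bool.and_eq_true, decide_eq_true_eq]
  refine ⟨?_, ?_, ?_, ?_⟩ <;> omega

theorem mem_of_inE {m : ℕ} {p : Cell} (h : inE m p = true) : ∃ i < 1024, cell i = p ∧ m.testBit i = true := by
  unfold inE at h
  simp only [Bool.and_eq_true, decide_eq_true_eq] at h
  obtain ⟨h1, h2, h3, h4, h5⟩ := h
  refine ⟨p.2.toNat * 32 + p.1.toNat, by omega, ?_, h5⟩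
  unfold cell
  ext
  · show (((p.2.toNat * 32 + p.1.toNat) % 32 : ℕ) : ℤ) = p.1
    omega
  · show (((p.2.toNat * 32 + p.1.toNat) / 32 : ℕ) : ℤ) = p.2
    omega

def isT2 (a F : ℕ) (h : Hdr) : Bool :=
  AND (Nat.beq h.a a) (AND (Nat.beq h.k 2) (AND (Nat.beq h.d 0) (Nat.beq (Nat.land h.m F) 0)))
def zb (zl : List ℕ) : ℕ := @List.rec ℕ (fun _ => ℕ) 0 (fun z _ t => Nat.lor (bit z) t) zl
def ne (a F : ℕ) (hs : List Hdr) : ℕ :=
  @List.rec Hdr (fun _ => ℕ) 0 (fun h _ t => Nat.lor (cond (isT2 a F h) (Nat.xor ONES h.m) 0) t) hs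
def loT (t : ℕ) : ℤ := if t = 1 then -3 else if t = 2 then -2 else if t = 3 then -2 else -1
def lenT (t : ℕ) : ℕ := if t = 1 then 8 else if t = 2 then 9 else if t = 3 then 10 else 9
def freeR (m : ℕ) (p d : ℤ × ℤ) (t : ℕ) : Bool :=
  (List.range (lenT t)).all fun k => !inE m (p.1 + (loT t + (k : ℤ)) * d.1, p.2 + (loT t + (k : ℤ)) * d.2)
def pairOK (a F : ℕ) (hs : List Hdr) (p d : ℤ × ℤ) (t : ℕ) : Bool :=
  hs.any fun h => AND (isT2 a F h) (freeR h.m p d t)
def inB (p : ℤ × ℤ) : Bool :=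
  decide (0 ≤ p.1) && (decide (p.1 < 32) && (decide (0 ≤ p.2) && decide (p.2 < 32)))
def ix (p : ℤ × ℤ) : ℕ := p.2.toNat * 32 + p.1.toNat
/-- an explicit certificate for the pair -/
def exOK (a : ℕ) (hs : List Hdr) (p q : ℤ × ℤ) : Bool :=
  inB p && (inB q && hs.any fun h => AND (Nat.beq h.k 0) (AND (Nat.beq h.d (Nat.lor (bit (ix p)) (bit (ix q))))
    (Nat.beq h.a a)))
def pc (a F Z : ℕ) (X : ℤ) (hs : List Hdr) (p d : ℤ × ℤ) (t : ℕ) : Bool :=
  cond (decide (p.1 < X)) (cond (decide (X ≤ p.1 + (t : ℤ) * d.1) && decide (14 ≤ p.2))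
    (inE Z p || (pairOK a F hs p d t || exOK a hs p (p.1 + (t : ℤ) * d.1, p.2 + (t : ℤ) * d.2))) true)
    (cond (decide (14 ≤ p.2) || decide (14 ≤ p.2 + (t : ℤ) * d.2))
      (inE Z p || (inE Z (p.1 + (t : ℤ) * d.1, p.2 + (t : ℤ) * d.2) ||
        (pairOK a F hs p d t || exOK a hs p (p.1 + (t : ℤ) * d.1, p.2 + (t : ℤ) * d.2)))) true)
def dl : List (ℤ × ℤ) := [((1 : ℤ), (0 : ℤ)), ((0 : ℤ), (1 : ℤ)), ((1 : ℤ), (1 : ℤ)), ((1 : ℤ), (-1 : ℤ))]
def pairs (a F Z : ℕ) (X : ℤ) (hs : List Hdr) : Bool :=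
  (List.range 8).all fun i => (List.range 30).all fun j => dl.all fun d => [1, 2, 3, 4].all fun t =>
    pc a F Z X hs (X - 4 + (i : ℤ), 10 + (j : ℤ)) d t
/-- `hs`: certificates for the stones of `zl`; `h2`: all others -/
def farOK (hs h2 : List Hdr) (zl : List ℕ) (c b F G : ℕ) (X : ℤ) : Bool :=
  AND (Nat.ble (Nat.succ c) 1024) (AND (Nat.ble (Nat.succ b) 1024)
    (AND (Nat.beq (Nat.land (Nat.lor (bit c) (bit b)) F) 0)
      (AND (h2.any (isT2 (Nat.lor (bit c) (bit b)) F))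
        (AND (sub G (Nat.lor (zb zl) (Nat.lor (ne (Nat.lor (bit c) (bit b)) F h2)
            (Nat.lor F (Nat.lor (bit c) (bit b))))))
          (AND (zl.all fun z => classOK hs c b z F)
            (pairs (Nat.lor (bit c) (bit b)) F (zb zl) X h2))))))

theorem exOK_iff {a : ℕ} {hs : List Hdr} {p q : Cell} (h : exOK a hs p q = true) :
    ∃ x ∈ hs, x.a = a ∧ x.k = 0 ∧ eS x.d = {p, q} := by
  unfold exOK at h
  rw [Bool.and_eq_true, Bool.and_eq_true] at h
  obtain ⟨h1, h2, h3⟩ := h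
  rw [List.any_eq_true] at h3
  obtain ⟨x, hx, h3⟩ := h3
  rw [AND_iff, AND_iff] at h3
  obtain ⟨h4, h5, h6⟩ := h3
  unfold inB at h1 h2
  simp only [Bool.and_eq_true, decide_eq_true_eq] at h1 h2
  have cix : ∀ r : Cell, 0 ≤ r.1 → r.1 < 32 → 0 ≤ r.2 → r.2 < 32 → ix r < 1024 ∧ cell (ix r) = r := by
    intro r h1 h2 h3 h4
    unfold ix
    refine ⟨by omega, ?_⟩
    unfold cell
    ext
    · show (((r.2.toNat * 32 + r.1.toNat) % 32 : ℕ) : ℤ) = r.1
      omega
    · show (((r.2.toNat * 32 + r.1.toNat) / 32 : ℕ) : ℤ) = r.2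
      omega
  obtain ⟨p1, p2⟩ := cix p h1.1 h1.2.1 h1.2.2.1 h1.2.2.2
  obtain ⟨q1, q2⟩ := cix q h2.1 h2.2.1 h2.2.2.1 h2.2.2.2
  refine ⟨x, hx, Nat.eq_of_beq_eq_true h6, Nat.eq_of_beq_eq_true h4, ?_⟩
  rw [Nat.eq_of_beq_eq_true h5, eS_two p1 q1, p2, q2]

theorem tb_zb {zl : List ℕ} {i : ℕ} (h : (zb zl).testBit i = true) : i ∈ zl := by
  induction zl with
  | nil =>
    have h : (0 : ℕ).testBit i = true := h
    rw [Nat.zero_testBit] at h; exact absurd h Bool.false_ne_true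
  | cons x t ih =>
    have h : (Nat.lor (bit x) (zb t)).testBit i = true := h
    rw [tb_lor, Bool.or_eq_true, tb_bit, decide_eq_true_eq] at h
    rcases h with h | h
    · rw [h]; exact List.mem_cons_self
    · exact List.mem_cons_of_mem _ (ih h)

theorem isT2_iff {a F : ℕ} {x : Hdr} (h : isT2 a F x = true) : x.a = a ∧ x.k = 2 ∧ x.d = 0 ∧ Nat.land x.m F = 0 := by
  unfold isT2 at h
  rw [AND_iff, AND_iff, AND_iff] at h
  obtain ⟨h1, h2, h3, h4⟩ := h
  exact ⟨Nat.eq_of_beq_eq_true h1, Nat.eq_of_beq_eq_true h2, Nat.eq_of_beq_eq_true h3, Nat.eq_of_beq_eq_true h4⟩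

theorem tb_ne {a F : ℕ} {hs : List Hdr} {i : ℕ} (hi : i < 1024) (h : (ne a F hs).testBit i = true) :
    ∃ x ∈ hs, isT2 a F x = true ∧ x.m.testBit i = false := by
  induction hs with
  | nil =>
    have h : (0 : ℕ).testBit i = true := h
    rw [Nat.zero_testBit] at h; exact absurd h Bool.false_ne_true
  | cons x t ih =>
    have h : (Nat.lor (cond (isT2 a F x) (Nat.xor ONES x.m) 0) (ne a F t)).testBit i = true := h
    rw [tb_lor, Bool.or_eq_true] at h
    rcases h with h | h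
    · cases hq : isT2 a F x with
      | false => rw [hq, cond_false, Nat.zero_testBit] at h; exact absurd h Bool.false_ne_true
      | true =>
        rw [hq, cond_true, tb_xones] at h
        have e1 : decide (i < 1024) = true := by rw [decide_eq_true_eq]; exact hi
        rw [e1] at h
        refine ⟨x, List.mem_cons_self, hq, ?_⟩
        cases hh : x.m.testBit i
        · rfl
        · rw [hh] at h; exact absurd h (by decide)
    · obtain ⟨y, hy, h⟩ := ih h
      exact ⟨y, List.mem_cons_of_mem _ hy, h⟩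

/-- the variants of the statement on pairs -/
theorem pair_use {E : Set Cell} {p d : Cell} (hd : d ∈ dirs) {t : ℕ} (ht : t = 1 ∨ t = 2 ∨ t = 3 ∨ t = 4)
    (h : ∀ k : ℕ, k < lenT t → p + (loT t + (k : ℤ)) • d ∉ E) :
    Near E ∅ {p, p + (t : ℤ) • d} ∧ Ctl E 6 2 ∅ {p, p + (t : ℤ) • d} ∅ := by
  have key : ∀ s : ℤ, loT t ≤ s → s < loT t + (lenT t : ℤ) → p + s • d ∉ E := by
    intro s h1 h2
    have := h (s - loT t).toNat (by omega)
    have e : loT t + (((s - loT t).toNat : ℕ) : ℤ) = s := by omega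
    rwa [e] at this
  rcases ht with rfl | rfl | rfl | rfl
  · exact S_pair_proof E p d hd 1 (-3) 4 (by norm_num) fun s h1 h2 =>
      key s (by simp [loT]; omega) (by simp [loT, lenT]; omega)
  · exact S_pair_proof E p d hd 2 (-2) 6 (by norm_num) fun s h1 h2 =>
      key s (by simp [loT]; omega) (by simp [loT, lenT]; omega)
  · exact S_pair_proof E p d hd 3 (-2) 7 (by norm_num) fun s h1 h2 =>
      key s (by simp [loT]; omega) (by simp [loT, lenT]; omega)
  · exact S_pair_proof E p d hd 4 (-1) 7 (by norm_num) fun s h1 h2 =>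
      key s (by simp [loT]; omega) (by simp [loT, lenT]; omega)

theorem freeR_iff {m : ℕ} {p d : Cell} {t : ℕ} (h : freeR m p d t = true) :
    ∀ k : ℕ, k < lenT t → p + (loT t + (k : ℤ)) • d ∉ eS m := by
  intro k hk hc
  unfold freeR at h
  rw [List.all_eq_true] at h
  have h1 := h k (List.mem_range.2 hk)
  have h2 := inE_of_mem hc
  have e : p + (loT t + (k : ℤ)) • d = (p.1 + (loT t + (k : ℤ)) * d.1, p.2 + (loT t + (k : ℤ)) * d.2) := by
    ext <;> simp
  rw [e] at h2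
  rw [h2] at h1
  exact absurd h1 (by decide)

theorem pairOK_iff {a F : ℕ} {hs : List Hdr} {p d : Cell} {t : ℕ} (h : pairOK a F hs p d t = true) :
    ∃ x ∈ hs, isT2 a F x = true ∧ ∀ k : ℕ, k < lenT t → p + (loT t + (k : ℤ)) • d ∉ eS x.m := by
  unfold pairOK at h
  rw [List.any_eq_true] at h
  obtain ⟨x, hx, h⟩ := h
  rw [AND_iff] at h
  exact ⟨x, hx, h.1, freeR_iff h.2⟩

theorem dl_mem {d : Cell} (hd : d ∈ dirs) : d ∈ dl := by
  simpa [dirs, dl] using hd

theorem notMem_of_far {F m : ℕ} {X : ℤ} (hF : ∀ i < 1024, X ≤ ((i % 32 : ℕ) : ℤ) → F.testBit i = true)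
    (hm : Nat.land m F = 0) {w : Cell} (hw : X ≤ w.1) : w ∉ eS m := by
  rintro ⟨i, hi, rfl, hb⟩
  have h1 := hF i hi hw
  have h2 : (Nat.land m F).testBit i = true := by rw [tb_land, hb, h1]; rfl
  rw [hm, Nat.zero_testBit] at h2
  exact Bool.false_ne_true h2

theorem notMem_high {m : ℕ} {w : Cell} (hw : 32 ≤ w.2) : w ∉ eS m := by
  rintro ⟨i, hi, rfl, _⟩
  unfold cell at hw
  have hw : (32 : ℤ) ≤ ((i / 32 : ℕ) : ℤ) := hw
  omega

/-- the range condition for some certificate -/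
theorem range_ok {hs : List Hdr} {a F Z : ℕ} {X : ℤ} (hF : ∀ i < 1024, X ≤ ((i % 32 : ℕ) : ℤ) → F.testBit i = true)
    (hT : hs.any (isT2 a F) = true) (hp : pairs a F Z X hs = true) {p q d : Cell} (hd : d ∈ dirs) {t : ℕ}
    (ht : t = 1 ∨ t = 2 ∨ t = 3 ∨ t = 4) (hq : q = p + (t : ℤ) • d)
    (hc : (X ≤ p.1 ∧ (14 ≤ q.2 ∨ 14 ≤ p.2) ∧ inE Z p = false ∧ inE Z q = false) ∨
      (p.1 < X ∧ X ≤ q.1 ∧ 14 ≤ p.2 ∧ inE Z p = false)) :
    (∃ x ∈ hs, isT2 a F x = true ∧ ∀ k : ℕ, k < lenT t → p + (loT t + (k : ℤ)) • d ∉ eS x.m) ∨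
    (∃ x ∈ hs, x.a = a ∧ x.k = 0 ∧ eS x.d = {p, q}) := by
  have hd' : d = (1, 0) ∨ d = (0, 1) ∨ d = (1, 1) ∨ d = (1, -1) := by simpa [dirs] using hd
  have hdx : d.1 = 0 ∨ d.1 = 1 := by rcases hd' with rfl | rfl | rfl | rfl <;> simp
  have hdy : d.2 = 0 ∨ d.2 = 1 ∨ d.2 = -1 := by rcases hd' with rfl | rfl | rfl | rfl <;> simp
  have hq1 : q.1 = p.1 + (t : ℤ) * d.1 := by rw [hq]; simp
  have hq2 : q.2 = p.2 + (t : ℤ) * d.2 := by rw [hq]; simp
  have htr : 1 ≤ t ∧ t ≤ 4 := by omega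
  have hlo : -3 ≤ loT t ∧ loT t + (lenT t : ℤ) ≤ 8 := by rcases ht with rfl | rfl | rfl | rfl <;> simp [loT, lenT]
  have hany : ∃ x ∈ hs, isT2 a F x = true := by
    rw [List.any_eq_true] at hT
    exact hT
  have hp1 : X - 4 ≤ p.1 := by
    rcases hc with ⟨h1, -⟩ | ⟨-, h1, -⟩
    · omega
    · rcases hdx with h | h <;> rw [h] at hq1 <;> omega
  have hp2 : 10 ≤ p.2 := by
    rcases hc with ⟨-, h1 | h1, -⟩ | ⟨-, -, h1, -⟩
    · rcases hdy with h | h | h <;> rw [h] at hq2 <;> omega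
    · omega
    · omega
  -- large coordinates
  by_cases hbig : X + 4 ≤ p.1 ∨ (X ≤ p.1 ∧ d.1 = 0)
  · obtain ⟨x, hx, hx2⟩ := hany
    refine Or.inl ⟨x, hx, hx2, fun k hk => notMem_of_far hF (isT2_iff hx2).2.2.2 ?_⟩
    have e : (p + (loT t + (k : ℤ)) • d).1 = p.1 + (loT t + (k : ℤ)) * d.1 := by simp
    rw [e]
    rcases hbig with h | ⟨h, h0⟩
    · rcases hdx with h1 | h1 <;> rw [h1] <;> omega
    · rw [h0]; omega
  by_cases hhigh : 40 ≤ p.2
  · obtain ⟨x, hx, hx2⟩ := hany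
    refine Or.inl ⟨x, hx, hx2, fun k hk => notMem_high ?_⟩
    have e : (p + (loT t + (k : ℤ)) • d).2 = p.2 + (loT t + (k : ℤ)) * d.2 := by simp
    rw [e]
    rcases hdy with h1 | h1 | h1 <;> rw [h1] <;> omega
  push Not at hbig
  have hpX : p.1 ≤ X + 3 := by omega
  -- inside the checked range
  unfold pairs at hp
  rw [List.all_eq_true] at hp
  have h1 := hp (p.1 - (X - 4)).toNat (List.mem_range.2 (by omega))
  rw [List.all_eq_true] at h1
  have h2 := h1 (p.2 - 10).toNat (List.mem_range.2 (by omega))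
  rw [List.all_eq_true] at h2
  have h3 := h2 d (dl_mem hd)
  rw [List.all_eq_true] at h3
  have h4 := h3 t (by simp; omega)
  have ep : ((X - 4 + (((p.1 - (X - 4)).toNat : ℕ) : ℤ), 10 + (((p.2 - 10).toNat : ℕ) : ℤ)) : ℤ × ℤ) = p := by
    ext
    · show X - 4 + (((p.1 - (X - 4)).toNat : ℕ) : ℤ) = p.1
      omega
    · show 10 + (((p.2 - 10).toNat : ℕ) : ℤ) = p.2
      omega
  rw [ep] at h4
  have eq' : ((p.1 + (t : ℤ) * d.1, p.2 + (t : ℤ) * d.2) : ℤ × ℤ) = q := by
    ext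
    · exact hq1.symm
    · exact hq2.symm
  unfold pc at h4
  rw [eq'] at h4
  by_cases hpx : p.1 < X
  · rcases hc with ⟨h5, -⟩ | ⟨-, h5, h6, h7⟩
    · omega
    · have e1 : decide (p.1 < X) = true := by rw [decide_eq_true_eq]; exact hpx
      have e2 : decide (X ≤ p.1 + (t : ℤ) * d.1) = true := by rw [decide_eq_true_eq, ← hq1]; exact h5
      have e3 : decide (14 ≤ p.2) = true := by rw [decide_eq_true_eq]; exact h6
      rw [e1, e2, e3, h7, cond_true, Bool.and_true, cond_true, Bool.false_or, Bool.or_eq_true] at h4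
      exact h4.imp pairOK_iff exOK_iff
  · rcases hc with ⟨-, h6, h7, h8⟩ | ⟨h5, -⟩
    · have e1 : decide (p.1 < X) = false := by rw [decide_eq_false_iff_not]; exact hpx
      have e2 : (decide (14 ≤ p.2) || decide (14 ≤ p.2 + (t : ℤ) * d.2)) = true := by
        rw [Bool.or_eq_true, decide_eq_true_eq, decide_eq_true_eq, ← hq2]
        exact h6.symm
      rw [e1, cond_false, e2, cond_true, h7, h8, Bool.false_or, Bool.false_or, Bool.or_eq_true] at h4
      exact h4.imp pairOK_iff exOK_iff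
    · exact absurd h5 hpx

theorem far_win {hs h2 : List Hdr} (H : ∀ h ∈ hs, Holds h) (H2 : ∀ h ∈ h2, Holds h) {zl : List ℕ} {c b F G : ℕ} {X : ℤ}
    (hF : ∀ i < 1024, X ≤ ((i % 32 : ℕ) : ℤ) → F.testBit i = true)
    (hG : ∀ i < 1024, 14 ≤ i / 32 → G.testBit i = true)
    (hc : farOK hs h2 zl c b F G X = true) : (c < 1024 ∧ b < 1024) ∧
    ∃ n, ∀ w z : Cell, X ≤ w.1 → 14 ≤ z.2 → z ≠ cell c → z ≠ cell b → z ≠ w → Win n {cell c, cell b} {w, z} := by
  unfold farOK at hc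
  rw [AND_iff, AND_iff, AND_iff, AND_iff, AND_iff, AND_iff] at hc
  obtain ⟨h1, h2', h3, h4, h5, h5', h6⟩ := hc
  have h1 : c < 1024 := Nat.le_of_ble_eq_true h1
  have h2' : b < 1024 := Nat.le_of_ble_eq_true h2'
  have h3 := Nat.eq_of_beq_eq_true h3
  refine ⟨⟨h1, h2'⟩, ?_⟩
  obtain ⟨n, hn'⟩ := holds_all (happ H H2)
  have hn1 : ∀ h ∈ hs, HoldsN n h := fun h hh => hn' h (List.mem_append_left _ hh)
  have hn : ∀ h ∈ h2, HoldsN n h := fun h hh => hn' h (List.mem_append_right _ hh)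
  refine ⟨n, fun w z hw hz z1 z2 z3 => ?_⟩
  have hwa : w ∉ eS (Nat.lor (bit c) (bit b)) := notMem_of_far hF h3 hw
  by_cases hZ : inE (zb zl) z = true
  · obtain ⟨i, hi, hiz, hb⟩ := mem_of_inE hZ
    have hmem := tb_zb hb
    rw [List.all_eq_true] at h5'
    have h9 := h5' i hmem
    rw [eS_two h1 h2'] at hwa
    have := (class_winN hn1 h9).2 w (fun e => hwa (Or.inl e)) (fun e => hwa (Or.inr e))
      (fun e => z3 (hiz.symm.trans e.symm)) (fun j hj he => hF j hj (by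
        have := congrArg Prod.fst he
        unfold cell at this
        have this : ((j % 32 : ℕ) : ℤ) = w.1 := this
        rw [this]; exact hw))
    rw [hiz, Set.pair_comm z] at this
    exact this
  rw [Bool.not_eq_true] at hZ
  by_cases hZw : X ≤ z.1 ∧ inE (zb zl) w = true
  · obtain ⟨hz1, hZw⟩ := hZw
    obtain ⟨i, hi, hiw, hb⟩ := mem_of_inE hZw
    have hmem := tb_zb hb
    rw [List.all_eq_true] at h5'
    have h9 := h5' i hmem
    have := (class_winN hn1 h9).2 z z1 z2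
      (fun e => z3 (e.trans hiw)) (fun j hj he => hF j hj (by
        have := congrArg Prod.fst he
        unfold cell at this
        have this : ((j % 32 : ℕ) : ℤ) = z.1 := this
        rw [this]; exact hz1))
    rw [hiw] at this
    exact this
  -- it is enough to find a zone
  have use : ∀ x ∈ h2, isT2 (Nat.lor (bit c) (bit b)) F x = true → ∀ p q : Cell, ({p, q} : Set Cell) = {w, z} →
      (Near (eS x.m) ∅ {p, q} ∧ Ctl (eS x.m) 6 2 ∅ {p, q} ∅) → Win n {cell c, cell b} {w, z} := by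
    intro x hx hx2 p q hpq hN
    obtain ⟨x1, x2, x3, x4⟩ := isT2_iff hx2
    have := (hn x hx).2.2 x2 {p, q} hN.1 hN.2
    rw [x1, x3, eS_zero, Set.empty_union, hpq, eS_two h1 h2'] at this
    exact this
  have use2 : ∀ p q : Cell, ({p, q} : Set Cell) = {w, z} →
      (∃ x ∈ h2, x.a = Nat.lor (bit c) (bit b) ∧ x.k = 0 ∧ eS x.d = {p, q}) → Win n {cell c, cell b} {w, z} := by
    rintro p q hpq ⟨x, hx, x1, x2, x3⟩
    have := (hn x hx).1 x2
    rw [x1, x3, hpq, eS_two h1 h2'] at this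
    exact this
  by_cases hA : Apart w z
  · have hex : ∃ x ∈ h2, isT2 (Nat.lor (bit c) (bit b)) F x = true ∧ z ∉ eS x.m := by
      have hany : ∃ x ∈ h2, isT2 (Nat.lor (bit c) (bit b)) F x = true := by
        rw [List.any_eq_true] at h4
        exact h4
      by_cases hin : ∃ i < 1024, cell i = z
      · obtain ⟨i, hi, rfl⟩ := hin
        have hGi : G.testBit i = true := by
          refine hG i hi ?_
          unfold cell at hz
          have hz : (14 : ℤ) ≤ ((i / 32 : ℕ) : ℤ) := hz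
          omega
        have h7 := sub_iff h5 hGi
        rw [tb_lor, tb_lor, tb_lor, tb_lor, tb_bit, tb_bit] at h7
        have e1 : decide (c = i) = false := by
          rw [decide_eq_false_iff_not]; exact fun e => z1 (by rw [e])
        have e2 : decide (b = i) = false := by
          rw [decide_eq_false_iff_not]; exact fun e => z2 (by rw [e])
        rw [e1, e2, Bool.or_false, Bool.or_false, Bool.or_eq_true, Bool.or_eq_true] at h7
        rcases h7 with h7 | h7 | h7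
        · exfalso
          have : cell i ∈ eS (zb zl) := ⟨i, hi, rfl, h7⟩
          rw [inE_of_mem this] at hZ
          exact Bool.false_ne_true hZ.symm
        · obtain ⟨x, hx, hx2, hxi⟩ := tb_ne hi h7
          exact ⟨x, hx, hx2, by rw [mem_eS hi, hxi]; exact Bool.false_ne_true⟩
        · obtain ⟨x, hx, hx2⟩ := hany
          refine ⟨x, hx, hx2, ?_⟩
          rw [mem_eS hi]
          intro hb
          have h8 : (Nat.land x.m F).testBit i = true := by rw [tb_land, hb, h7]; rfl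
          rw [(isT2_iff hx2).2.2.2, Nat.zero_testBit] at h8
          exact Bool.false_ne_true h8
      · obtain ⟨x, hx, hx2⟩ := hany
        exact ⟨x, hx, hx2, fun ⟨i, hi, he, _⟩ => hin ⟨i, hi, he⟩⟩
    obtain ⟨x, hx, hx2, hxz⟩ := hex
    exact use x hx hx2 w z rfl (apart_ok hA (notMem_of_far hF (isT2_iff hx2).2.2.2 hw) hxz)
  · unfold Apart at hA
    push Not at hA
    obtain ⟨d, hd, t, ht1, ht4, hA⟩ := hA
    have ht : t.toNat = 1 ∨ t.toNat = 2 ∨ t.toNat = 3 ∨ t.toNat = 4 := by omega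
    have et : ((t.toNat : ℕ) : ℤ) = t := Int.toNat_of_nonneg (by omega)
    have hdx : d.1 = 0 ∨ d.1 = 1 := by
      have hd' : d = (1, 0) ∨ d = (0, 1) ∨ d = (1, 1) ∨ d = (1, -1) := by simpa [dirs] using hd
      rcases hd' with rfl | rfl | rfl | rfl <;> simp
    have hZw' : X ≤ z.1 → inE (zb zl) w = false := by
      intro h
      cases hh : inE (zb zl) w with
      | false => rfl
      | true => exact absurd ⟨h, hh⟩ hZw
    by_cases hwz : z = w + t • d
    · have hz1 : z.1 = w.1 + t * d.1 := by rw [hwz]; simp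
      have hzX : X ≤ z.1 := by rcases hdx with h | h <;> rw [h] at hz1 <;> omega
      rcases range_ok hF h4 h6 hd ht (p := w) (q := z) (by rw [et]; exact hwz)
        (Or.inl ⟨hw, Or.inl hz, hZw' hzX, hZ⟩) with ⟨x, hx, hx2, hr⟩ | hr
      · have := pair_use hd ht hr
        rw [et, ← hwz] at this
        exact use x hx hx2 w z rfl this
      · exact use2 w z rfl hr
    · have hzw : w = z + t • d := hA hwz
      rcases range_ok hF h4 h6 hd ht (p := z) (q := w) (by rw [et]; exact hzw)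
        (by
          by_cases hzX : X ≤ z.1
          · exact Or.inl ⟨hzX, Or.inr hz, hZ, hZw' hzX⟩
          · exact Or.inr ⟨by omega, hw, hz, hZ⟩) with ⟨x, hx, hx2, hr⟩ | hr
      · have := pair_use hd ht hr
        rw [et, ← hzw] at this
        exact use x hx hx2 z w (Set.pair_comm z w) this
      · exact use2 z w (Set.pair_comm z w) hr

end Pool.Agent.H184.G2
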