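import Pool.Agent.H184.G2.D.W10
import Pool.Agent.H184.G2.D.W11
import Pool.Agent.H184.G2.D.W20
import Pool.Agent.H184.G2.D.W21
import Pool.Agent.H184.G2.D.W22
import Pool.Agent.H184.G2.D.W30
import Pool.Agent.H184.G2.D.W31
import Pool.Agent.H184.G2.D.W32
import Pool.Agent.H184.G2.D.W33
import Pool.Agent.H184.G2.D.W40
import Pool.Agent.H184.G2.D.W41
import Pool.Agent.H184.G2.D.W42
import Pool.Agent.H184.G2.D.W43
import Pool.Agent.H184.G2.D.W44
import Pool.Agent.H184.G2.D.W50
import Pool.Agent.H184.G2.D.W51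
import Pool.Agent.H184.G2.D.W52
import Pool.Agent.H184.G2.D.W53
import Pool.Agent.H184.G2.D.W54
import Pool.Agent.H184.G2.D.W55
import Pool.Agent.H184.G2.D.FR

set_option autoImplicit false

/-!
# The first player wins in a bounded number of moves
-/

namespace Pool.Agent.H184.G2

open Pool.Agent.H184.Gomoku

theorem near_rows : ∀ a b : ℕ, 1 ≤ a → a ≤ 5 → b ≤ a → ∃ n, Row n ((a : ℤ), (b : ℤ)) := by
  intro a b h1 h2 h3
  interval_cases a <;> interval_cases b
  · exact D.W10.row
  · exact D.W11.row
  · exact D.W20.row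
  · exact D.W21.row
  · exact D.W22.row
  · exact D.W30.row
  · exact D.W31.row
  · exact D.W32.row
  · exact D.W33.row
  · exact D.W40.row
  · exact D.W41.row
  · exact D.W42.row
  · exact D.W43.row
  · exact D.W44.row
  · exact D.W50.row
  · exact D.W51.row
  · exact D.W52.row
  · exact D.W53.row
  · exact D.W54.row
  · exact D.W55.row

theorem first_wins : ∃ N, Win N ∅ ∅ := root near_rows D.FR.row

end Pool.Agent.H184.G2
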