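import Pool.Agent.H184.G2.Sound

set_option autoImplicit false

/-!
# Won positions with hidden stones outside masks
-/

namespace Pool.Agent.H184.G2

open Pool.Agent.H184.Gomoku

/-- The hidden stones `us` avoid the masks and the attacker's stones. -/
def AvoidS (st : ℕ) (us : List Cell) : Prop :=
  (∀ t (ht : t < us.length), ∀ i < 1024, cell i = us[t] → st.testBit (2048 + 1024 * t + i) = true) ∧
    ∀ u ∈ us, u ∉ aS st

theorem mem_aS {st i : ℕ} (hi : i < 1024) : cell i ∈ aS st ↔ st.testBit i = true :=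
  ⟨fun ⟨_, _, h2, h3⟩ => by rwa [← cell_inj h2], fun h => ⟨i, hi, rfl, h⟩⟩

theorem mem_dS {st i : ℕ} (hi : i < 1024) : cell i ∈ dS st ↔ st.testBit (1024 + i) = true :=
  ⟨fun ⟨_, _, h2, h3⟩ => by rwa [← cell_inj h2], fun h => ⟨i, hi, rfl, h⟩⟩

theorem tb_mvx {st x : ℕ} (n : ℕ) : (mvx st x).testBit n = (st.testBit n || decide (x = n)) := by
  unfold mvx; rw [tb_lor, tb_bit]

theorem tb_mvy {st y : ℕ} (n : ℕ) : (mvy st y).testBit n = (st.testBit n || decide (1024 + y = n)) := by
  unfold mvy; rw [tb_lor, tb_bit]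

theorem aS_mvx {st x : ℕ} (hx : x < 1024) : aS (mvx st x) = insert (cell x) (aS st) := by
  ext c
  constructor
  · rintro ⟨i, hi, rfl, h⟩
    rw [tb_mvx, Bool.or_eq_true, decide_eq_true_eq] at h
    rcases h with h | h
    · exact Or.inr ⟨i, hi, rfl, h⟩
    · rw [h]; exact Or.inl rfl
  · rintro (rfl | ⟨i, hi, rfl, h⟩)
    · exact ⟨x, hx, rfl, by rw [tb_mvx]; simp⟩
    · exact ⟨i, hi, rfl, by rw [tb_mvx, h]; rfl⟩

theorem dS_mvx {st x : ℕ} (hx : x < 1024) : dS (mvx st x) = dS st := by
  ext c
  constructor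
  · rintro ⟨i, hi, rfl, h⟩
    rw [tb_mvx, Bool.or_eq_true, decide_eq_true_eq] at h
    rcases h with h | h
    · exact ⟨i, hi, rfl, h⟩
    · omega
  · rintro ⟨i, hi, rfl, h⟩
    exact ⟨i, hi, rfl, by rw [tb_mvx, h]; rfl⟩

theorem aS_mvy {st y : ℕ} : aS (mvy st y) = aS st := by
  ext c
  constructor
  · rintro ⟨i, hi, rfl, h⟩
    rw [tb_mvy, Bool.or_eq_true, decide_eq_true_eq] at h
    rcases h with h | h
    · exact ⟨i, hi, rfl, h⟩
    · omega
  · rintro ⟨i, hi, rfl, h⟩
    exact ⟨i, hi, rfl, by rw [tb_mvy, h]; rfl⟩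

theorem dS_mvy {st y : ℕ} (hy : y < 1024) : dS (mvy st y) = insert (cell y) (dS st) := by
  ext c
  constructor
  · rintro ⟨i, hi, rfl, h⟩
    rw [tb_mvy, Bool.or_eq_true, decide_eq_true_eq] at h
    rcases h with h | h
    · exact Or.inr ⟨i, hi, rfl, h⟩
    · have : y = i := by omega
      rw [this]; exact Or.inl rfl
  · rintro (rfl | ⟨i, hi, rfl, h⟩)
    · exact ⟨y, hy, rfl, by rw [tb_mvy]; simp⟩
    · exact ⟨i, hi, rfl, by rw [tb_mvy, h]; rfl⟩

theorem tb_mk_lt {st M n : ℕ} (hM : Fld M) (hn : n < 2048) : (mk st M).testBit n = st.testBit n := by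
  rw [tb_mk]
  have e1 : decide (n < 2048) = true := by rw [decide_eq_true_eq]; exact hn
  have e2 : decide (3072 ≤ n) = false := by rw [decide_eq_false_iff_not]; omega
  have e3 : M.testBit n = false := by
    by_contra hc
    rw [Bool.not_eq_false] at hc
    have := hM n hc
    omega
  rw [e1, e2, e3]
  simp

theorem tb_mk_ge {st M n : ℕ} (hM : Fld M) (hn : 3072 ≤ n) : (mk st M).testBit n = st.testBit (n - 1024) := by
  rw [tb_mk]
  have e1 : decide (n < 2048) = false := by rw [decide_eq_false_iff_not]; omega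
  have e2 : decide (3072 ≤ n) = true := by rw [decide_eq_true_eq]; omega
  have e3 : M.testBit n = false := by
    by_contra hc
    rw [Bool.not_eq_false] at hc
    have := hM n hc
    omega
  rw [e1, e2, e3]
  simp

theorem aS_mk {st M : ℕ} (hM : Fld M) : aS (mk st M) = aS st := by
  ext c
  constructor
  · rintro ⟨i, hi, rfl, h⟩
    rw [tb_mk_lt hM (by omega)] at h
    exact ⟨i, hi, rfl, h⟩
  · rintro ⟨i, hi, rfl, h⟩
    exact ⟨i, hi, rfl, by rw [tb_mk_lt hM (by omega)]; exact h⟩

theorem dS_mk {st M : ℕ} (hM : Fld M) : dS (mk st M) = dS st := by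
  ext c
  constructor
  · rintro ⟨i, hi, rfl, h⟩
    rw [tb_mk_lt hM (by omega)] at h
    exact ⟨i, hi, rfl, h⟩
  · rintro ⟨i, hi, rfl, h⟩
    exact ⟨i, hi, rfl, by rw [tb_mk_lt hM (by omega)]; exact h⟩

theorem not_us {st x : ℕ} {us : List Cell} (h : AvoidS st us) (hl : us.length ≤ 3) (hx : x < 1024) (hF : Fr st x) :
    cell x ∉ us := by
  intro hc
  obtain ⟨t, ht, he⟩ := List.mem_iff_getElem.1 hc
  have h1 := h.1 t ht x hx he.symm
  obtain ⟨-, -, f1, f2, f3⟩ := hF
  have : t = 0 ∨ t = 1 ∨ t = 2 := by omega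
  rcases this with rfl | rfl | rfl
  · rw [show 2048 + 1024 * 0 + x = 2048 + x by ring, f1] at h1; exact absurd h1 Bool.false_ne_true
  · rw [show 2048 + 1024 * 1 + x = 3072 + x by ring, f2] at h1; exact absurd h1 Bool.false_ne_true
  · rw [show 2048 + 1024 * 2 + x = 4096 + x by ring, f3] at h1; exact absurd h1 Bool.false_ne_true

theorem avoid_mvx {st x : ℕ} {us : List Cell} (h : AvoidS st us) (hx : x < 1024) (hn : cell x ∉ us) :
    AvoidS (mvx st x) us := by
  refine ⟨fun t ht i hi hc => ?_, fun u hu => ?_⟩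
  · rw [tb_mvx, h.1 t ht i hi hc]; rfl
  · rw [aS_mvx hx]
    rintro (h1 | h1)
    · rw [h1] at hu; exact hn hu
    · exact h.2 u hu h1

theorem avoid_mvy {st y : ℕ} {us : List Cell} (h : AvoidS st us) : AvoidS (mvy st y) us := by
  refine ⟨fun t ht i hi hc => ?_, fun u hu => ?_⟩
  · rw [tb_mvy, h.1 t ht i hi hc]; rfl
  · rw [aS_mvy]
    exact h.2 u hu

theorem avoid_mk {st M : ℕ} {us : List Cell} {y : Cell} (hM : Fld M) (h : AvoidS st us) (hy : y ∉ aS st)
    (hyM : ∀ i < 1024, cell i = y → M.testBit (2048 + i) = true) : AvoidS (mk st M) (y :: us) := by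
  refine ⟨fun t ht i hi hc => ?_, fun u hu => ?_⟩
  · cases t with
    | zero =>
      rw [List.getElem_cons_zero] at hc
      rw [show 2048 + 1024 * 0 + i = 2048 + i by ring, tb_mk, hyM i hi hc, Bool.or_true]
    | succ t =>
      rw [List.getElem_cons_succ] at hc
      rw [tb_mk_ge hM (by omega), show 2048 + 1024 * (t + 1) + i - 1024 = 2048 + 1024 * t + i by omega]
      exact h.1 t _ i hi hc
  · rw [aS_mk hM]
    rcases List.mem_cons.1 hu with rfl | hu
    · exact hy
    · exact h.2 u hu

open Classical in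
theorem safe_core {st : ℕ} (h : SafeP st) {us : List Cell} (hlen : us.length ≤ 3) (hus : AvoidS st us) {y : Cell}
    (hy : y ∉ aS st) {a d : Cell} (hd : d ∈ dirs)
    (hk : ∀ k : ℕ, k < 5 → a + (k : ℤ) • d ∈ insert y (dS st ∪ {u | u ∈ us})) : False := by
  have hinj0 : Function.Injective (fun m : Fin 5 => a + ((m : ℕ) : ℤ) • d) := by
    intro m n hmn
    simp only [add_right_inj] at hmn
    have hd' : d = (1, 0) ∨ d = (0, 1) ∨ d = (1, 1) ∨ d = (1, -1) := by simpa [dirs] using hd
    rcases hd' with rfl | rfl | rfl | rfl <;>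
      simp only [Prod.smul_mk, smul_eq_mul, Prod.mk.injEq, mul_one, mul_zero] at hmn <;>
      (apply Fin.ext; omega)
  have hex : ∃ k0 : ℕ, k0 < 5 ∧ a + (k0 : ℤ) • d ∈ dS st := by
    by_contra hno
    push Not at hno
    have hle := count_le (fun m : Fin 5 => a + ((m : ℕ) : ℤ) • d) hinj0 y (dS st) us (fun m => hk m m.2)
    have hall : (Finset.univ.filter (fun m : Fin 5 => (fun m : Fin 5 => a + ((m : ℕ) : ℤ) • d) m ∉ dS st)) =
        Finset.univ := by
      apply Finset.filter_true_of_mem
      intro m _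
      exact hno m m.2
    rw [hall] at hle
    have h5 : (Finset.univ : Finset (Fin 5)).card = 5 := by simp
    rw [h5] at hle
    have h6 := hle.trans (Nat.add_le_add_left List.countP_le_length 1)
    omega
  obtain ⟨k0, hk0, j0, hj01, hj, hj0⟩ := hex
  obtain ⟨i, s, hs, hi, hS⟩ := frame hd hk hk0 hj.symm (h.inR j0 hj01 (Or.inr hj0))
  have hspos : 0 < s := by rcases hs with rfl | rfl | rfl | rfl <;> norm_num
  set c : Fin 5 → Cell := fun m => cell (i + m * s) with hc
  have hcinj : Function.Injective c := by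
    intro m n hmn
    have := cell_inj hmn
    have : (m : ℕ) * s = n * s := by omega
    exact Fin.ext (Nat.eq_of_mul_eq_mul_right hspos this)
  have hlt : ∀ m : Fin 5, i + m * s < 1024 := by
    intro m
    have : (m : ℕ) * s ≤ 4 * s := Nat.mul_le_mul_right _ (by omega)
    omega
  have hcS : ∀ m, c m ∈ insert y (dS st ∪ {u | u ∈ us}) := fun m => hS m m.2
  have hcA : ∀ m : Fin 5, st.testBit (i + m * s) = false := by
    intro m
    by_contra hA
    rw [Bool.not_eq_false] at hA
    rcases hcS m with h1 | h1 | h1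
    · exact hy (h1 ▸ (mem_aS (hlt m)).2 hA)
    · have := h.disj _ (hlt m) hA
      rw [(mem_dS (hlt m)).1 h1] at this
      exact Bool.false_ne_true this.symm
    · exact hus.2 _ h1 ((mem_aS (hlt m)).2 hA)
  have hA0 : or5 (fun i => st.testBit i) i s = false := by
    have h0 := hcA 0
    have h1 := hcA 1
    have h2 := hcA 2
    have h3 := hcA 3
    have h4 := hcA 4
    simp only [Fin.val_zero, Fin.val_one, Fin.val_two, Nat.zero_mul, Nat.one_mul,
      Nat.add_zero, show ((3 : Fin 5) : ℕ) = 3 from rfl, show ((4 : Fin 5) : ℕ) = 4 from rfl] at h0 h1 h2 h3 h4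
    unfold or5
    dsimp only
    rw [h0, h1, h2, h3, h4]
    rfl
  have hsum : cnt5 (fun i => st.testBit (1024 + i)) i s + (Finset.univ.filter (fun m => c m ∉ dS st)).card = 5 := by
    rw [Finset.card_filter, Fin.sum_univ_five]
    have e : ∀ m : Fin 5, (if c m ∉ dS st then 1 else 0) = 1 - (st.testBit (1024 + (i + m * s))).toNat := by
      intro m
      have hm : c m ∉ dS st ↔ ¬ st.testBit (1024 + (i + m * s)) = true := by rw [hc, mem_dS (hlt m)]
      by_cases hb : st.testBit (1024 + (i + m * s)) = true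
      · rw [if_neg (by rw [hm]; exact fun h => h hb), hb]; rfl
      · rw [if_pos (by rw [hm]; exact hb)]
        rw [Bool.not_eq_true] at hb
        rw [hb]; rfl
    rw [e, e, e, e, e]
    unfold cnt5
    simp only [Fin.val_zero, Fin.val_one, Fin.val_two, Nat.zero_mul, Nat.one_mul, Nat.add_zero,
      show ((3 : Fin 5) : ℕ) = 3 from rfl, show ((4 : Fin 5) : ℕ) = 4 from rfl]
    have hb : ∀ b : Bool, b.toNat ≤ 1 := fun b => by cases b <;> simp
    have h0 := hb (st.testBit (1024 + i))
    have h1 := hb (st.testBit (1024 + (i + s)))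
    have h2 := hb (st.testBit (1024 + (i + 2 * s)))
    have h3 := hb (st.testBit (1024 + (i + 3 * s)))
    have h4 := hb (st.testBit (1024 + (i + 4 * s)))
    omega
  have hcnt := count_le c hcinj y (dS st) us hcS
  have hone : ∀ k0' : ℕ, k0' < 5 → st.testBit (1024 + (i + k0' * s)) = true → 1 ≤ cnt5 (fun i => st.testBit (1024 + i)) i s := by
    intro k hk5 hb
    unfold cnt5
    interval_cases k
    · rw [Nat.zero_mul, Nat.add_zero] at hb
      simp only [hb]; simp; omega
    · rw [Nat.one_mul] at hb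
      simp only [hb]; simp; omega
    · simp only [hb]; simp; omega
    · simp only [hb]; simp; omega
    · simp only [hb]; simp
  have hpos : 1 ≤ cnt5 (fun i => st.testBit (1024 + i)) i s := by
    by_contra hc0
    have h0 : ∀ m : Fin 5, c m ∉ dS st := by
      intro m hm
      exact hc0 (hone m m.2 ((mem_dS (hlt m)).1 hm))
    have hall : (Finset.univ.filter (fun m => c m ∉ dS st)) = Finset.univ :=
      Finset.filter_true_of_mem fun m _ => h0 m
    rw [hall] at hcnt
    have h5 : (Finset.univ : Finset (Fin 5)).card = 5 := by simp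
    rw [h5] at hcnt
    have h6 := hcnt.trans (Nat.add_le_add_left List.countP_le_length 1)
    omega
  have hleak : ∀ (u : Cell) (o : ℕ), (∀ i < 1024, cell i = u → st.testBit (o + i) = true) →
      (if decide (∃ m, c m = u ∧ c m ∉ dS st) = true then 1 else 0) ≤
        (or5 (fN (fun i => st.testBit i) (fun i => st.testBit (1024 + i)) (fun i => st.testBit (o + i))) i s).toNat := by
    intro u o ho
    split_ifs with hh
    · rw [decide_eq_true_eq] at hh
      obtain ⟨m, hm, hmD⟩ := hh
      have h1 : fN (fun i => st.testBit i) (fun i => st.testBit (1024 + i)) (fun i => st.testBit (o + i)) (i + m * s) = true := by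
        unfold fN
        have hD : st.testBit (1024 + (i + m * s)) = false := by
          by_contra hc'
          rw [Bool.not_eq_false] at hc'
          exact hmD ((mem_dS (hlt m)).2 hc')
        simp only [hcA m, hD, ho _ (hlt m) hm]
        rfl
      have h2 : or5 (fN (fun i => st.testBit i) (fun i => st.testBit (1024 + i)) (fun i => st.testBit (o + i))) i s = true := by
        unfold or5
        fin_cases m <;> simp only [Nat.zero_mul, Nat.one_mul, Nat.add_zero] at h1 <;> rw [h1] <;> simp
      rw [h2]; rfl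
    · exact Nat.zero_le _
  have hw := h.win s i hs hi hA0 hpos
  match us, hlen, hus, hcnt with
  | [], _, _, hcnt =>
    simp only [List.countP_nil] at hcnt
    omega
  | [u1], _, hus, hcnt =>
    simp only [List.countP_cons, List.countP_nil] at hcnt
    have l1 := hleak u1 2048 (fun i hi hc => hus.1 0 (by simp) i hi hc)
    omega
  | [u1, u2], _, hus, hcnt =>
    simp only [List.countP_cons, List.countP_nil] at hcnt
    have l1 := hleak u1 2048 (fun i hi hc => hus.1 0 (by simp) i hi hc)
    have l2 := hleak u2 3072 (fun i hi hc => hus.1 1 (by simp) i hi hc)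
    omega
  | [u1, u2, u3], _, hus, hcnt =>
    simp only [List.countP_cons, List.countP_nil] at hcnt
    have l1 := hleak u1 2048 (fun i hi hc => hus.1 0 (by simp) i hi hc)
    have l2 := hleak u2 3072 (fun i hi hc => hus.1 1 (by simp) i hi hc)
    have l3 := hleak u3 4096 (fun i hi hc => hus.1 2 (by simp) i hi hc)
    omega
  | _ :: _ :: _ :: _ :: _, hlen, _, _ => simp only [List.length_cons] at hlen; omega

theorem safe' {st : ℕ} (h : SafeP st) {us : List Cell} (hlen : us.length ≤ 3) (hus : AvoidS st us) {y : Cell}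
    (hy : y ∉ aS st) : ¬ Five (insert y (dS st ∪ {u | u ∈ us})) := by
  rintro ⟨a, d, hd, hk⟩
  exact safe_core h hlen hus hy hd hk

/-! ### plain positions -/

def GP (st j : ℕ) : Prop :=
  ∃ n, ∀ us : List Cell, us.length = 3 - j → AvoidS st us → Win n (aS st) (dS st ∪ {u | u ∈ us})
def HP (st j : ℕ) (S : Set Cell) : Prop :=
  ∃ n, ∀ us : List Cell, us.length = 3 - j → AvoidS st us → ∀ y ∈ S, y ∉ aS st → y ∉ dS st ∪ {u | u ∈ us} →
    Win n (aS st) (insert y (dS st ∪ {u | u ∈ us}))

theorem rulesP {K : List ℕ} {e : ℕ} (hK : ∀ st ∈ K, GP st 3) : Rules K e GP HP := by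
  refine ⟨?_, ?_, ?_, ?_, ?_, ?_, ?_, ?_, hK⟩
  · intro st j x hI hx hF h5
    refine ⟨1, fun us hl hus => ⟨cell x, ?_, ?_, Or.inl h5⟩⟩
    · rw [mem_aS hx, hF.1]; exact Bool.false_ne_true
    · rintro (h | h)
      · rw [mem_dS hx, hF.2.1] at h; exact Bool.false_ne_true h
      · exact not_us hus (by omega) hx hF h
  · intro st j x y hI hx hy hFx hFy h5 hS hG
    by_cases hxy : x = y
    · subst hxy
      refine ⟨1, fun us hl hus => ⟨cell x, ?_, ?_, Or.inl ?_⟩⟩
      · rw [mem_aS hx, hFx.1]; exact Bool.false_ne_true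
      · rintro (h | h)
        · rw [mem_dS hx, hFx.2.1] at h; exact Bool.false_ne_true h
        · exact not_us hus (by omega) hx hFx h
      · rwa [Set.insert_idem] at h5
    obtain ⟨n, hn⟩ := hG
    refine ⟨n + 2, fun us hl hus => ?_⟩
    have hxu := not_us hus (by omega) hx hFx
    have hyu := not_us hus (by omega) hy hFy
    have hav := avoid_mvx hus hx hxu
    refine ⟨cell x, ?_, ?_, Or.inr fun y' hy' hy'' => ⟨?_, ?_⟩⟩
    · rw [mem_aS hx, hFx.1]; exact Bool.false_ne_true
    · rintro (h | h)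
      · rw [mem_dS hx, hFx.2.1] at h; exact Bool.false_ne_true h
      · exact hxu h
    · have := safe' hS (by omega) hav (y := y') (by rw [aS_mvx hx]; exact hy')
      rwa [dS_mvx hx] at this
    · by_cases he : y' = cell y
      · subst he
        have := hn us hl (avoid_mvy hav)
        rw [aS_mvy, aS_mvx hx, dS_mvy hy, dS_mvx hx, Set.insert_union] at this
        exact this.mono (by omega)
      · have hw : Win 1 (insert (cell x) (aS st)) (insert y' (dS st ∪ {u | u ∈ us})) := by
          refine ⟨cell y, ?_, ?_, Or.inl h5⟩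
          · rintro (h | h)
            · exact hxy (cell_inj h).symm
            · rw [mem_aS hy, hFy.1] at h; exact Bool.false_ne_true h
          · rintro (h | h | h)
            · exact he h.symm
            · rw [mem_dS hy, hFy.2.1] at h; exact Bool.false_ne_true h
            · exact hyu h
        exact hw.mono (by omega)
  · intro st j y hI hj hy _ hG
    obtain ⟨n, hn⟩ := hG
    refine ⟨n, fun us hl hus y' hy' _ _ => ?_⟩
    have hy' : y' = cell y := hy'
    subst hy'
    have := hn us hl (avoid_mvy hus)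
    rwa [aS_mvy, dS_mvy hy, Set.insert_union] at this
  · intro st j M hI hj hM hG
    obtain ⟨n, hn⟩ := hG
    refine ⟨n, fun us hl hus y hyS hyA hyD => ?_⟩
    have h3 := hI.1
    have := hn (y :: us) (by rw [List.length_cons]; omega) (avoid_mk hM hus hyA hyS)
    rw [aS_mk hM, dS_mk hM] at this
    have e : insert y (dS st ∪ {u | u ∈ us}) = dS st ∪ {u | u ∈ y :: us} := by
      ext u
      simp only [Set.mem_union, Set.mem_setOf_eq, List.mem_cons, Set.mem_insert_iff]
      tauto
    rw [e]; exact this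
  · intro st j S T h1 h2
    obtain ⟨n1, h1⟩ := h1
    obtain ⟨n2, h2⟩ := h2
    refine ⟨max n1 n2, fun us hl hus y hy hyA hyD => ?_⟩
    rcases hy with hy | hy
    · exact (h1 us hl hus y hy hyA hyD).mono (le_max_left _ _)
    · exact (h2 us hl hus y hy hyA hyD).mono (le_max_right _ _)
  · intro st j S T h1 hT
    obtain ⟨n, h1⟩ := h1
    exact ⟨n, fun us hl hus y hy hyA hyD => h1 us hl hus y (hT hy) hyA hyD⟩
  · intro st j x hI hj hx hFx hS hH
    obtain ⟨n, hn⟩ := hH
    refine ⟨n + 1, fun us hl hus => ?_⟩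
    have hxu := not_us hus (by omega) hx hFx
    have hav := avoid_mvx hus hx hxu
    refine ⟨cell x, ?_, ?_, Or.inr fun y' hy' hy'' => ⟨?_, ?_⟩⟩
    · rw [mem_aS hx, hFx.1]; exact Bool.false_ne_true
    · rintro (h | h)
      · rw [mem_dS hx, hFx.2.1] at h; exact Bool.false_ne_true h
      · exact hxu h
    · have := safe' hS (by omega) hav (y := y') (by rw [aS_mvx hx]; exact hy')
      rwa [dS_mvx hx] at this
    · have := hn us hl hav y' trivial (by rw [aS_mvx hx]; exact hy') (by rw [dS_mvx hx]; exact hy'')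
      rwa [aS_mvx hx, dS_mvx hx] at this
  · intro st j
    exact ⟨0, fun us _ _ y hy => hy.elim⟩

end Pool.Agent.H184.G2
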