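import Pool.Agent.H184.G2.FarC

set_option autoImplicit false

/-!
# The first two moves
-/

namespace Pool.Agent.H184.G2

open Pool.Agent.H184.Gomoku

theorem LineMap.comp {f g : Cell → Cell} (hf : LineMap f) (hg : LineMap g) : LineMap (fun c => g (f c)) := by
  intro a d hd
  obtain ⟨a', d', hd', h1⟩ := hf a d hd
  obtain ⟨a'', d'', hd'', h2⟩ := hg a' d' hd'
  refine ⟨a'', d'', hd'', fun k hk => ?_⟩
  obtain ⟨k', hk', e1⟩ := h1 k hk
  obtain ⟨k'', hk'', e2⟩ := h2 k' hk'
  exact ⟨k'', hk'', by show g (f (a + (k : ℤ) • d)) = _; rw [e1, e2]⟩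

/-- reflection in a horizontal line -/
def fX (t : ℤ) (c : Cell) : Cell := (c.1, t - c.2)
/-- reflection in a diagonal -/
def fD (t : ℤ) (c : Cell) : Cell := (c.2 + t, c.1 - t)
/-- reflection in an antidiagonal -/
def fK (t : ℤ) (c : Cell) : Cell := (t - c.2, t - c.1)

theorem fX_line (t : ℤ) : LineMap (fX t) := by
  have h := LineMap.comp lineMap_negy (lineMap_translate ((0 : ℤ), t))
  have e : fX t = fun c : Cell => (c.1, -c.2) + ((0 : ℤ), t) := by
    funext c
    unfold fX
    ext <;> simp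
    ring
  rw [e]; exact h

theorem fD_line (t : ℤ) : LineMap (fD t) := by
  have h := LineMap.comp lineMap_swap (lineMap_translate (t, -t))
  have e : fD t = fun c : Cell => (c.2, c.1) + (t, -t) := by
    funext c
    unfold fD
    ext <;> simp
    ring
  rw [e]; exact h

theorem fK_line (t : ℤ) : LineMap (fK t) := by
  have h := LineMap.comp (LineMap.comp (LineMap.comp lineMap_swap lineMap_negx) lineMap_negy) (lineMap_translate (t, t))
  have e : fK t = fun c : Cell => (-c.2, -c.1) + (t, t) := by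
    funext c
    unfold fK
    ext <;> simp <;> ring
  rw [e]; exact h

theorem fX_inv (t : ℤ) : Function.Involutive (fX t) := fun c => by unfold fX; ext <;> simp
theorem fD_inv (t : ℤ) : Function.Involutive (fD t) := fun c => by unfold fD; ext <;> simp
theorem fK_inv (t : ℤ) : Function.Involutive (fK t) := fun c => by unfold fK; ext <;> simp

theorem half_ext {f : Cell → Cell} (hf : Function.Involutive f) (hl : LineMap f) {n : ℕ} {c b : Cell}
    (hcb : f '' {c, b} = {c, b}) {w z : Cell} (h : Win n {c, b} {f w, f z}) : Win n {c, b} {w, z} := by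
  have := win_involution hf hl h
  rw [hcb, Set.image_pair, hf w, hf z] at this
  exact this

theorem not_five_pair (y w : Cell) : ¬ Five {y, w} := by
  rintro ⟨a, d, hd, h⟩
  have h0 := h 0 (by norm_num)
  have h1 := h 1 (by norm_num)
  have h2 := h 2 (by norm_num)
  have i01 : a + ((0 : ℕ) : ℤ) • d = a + ((1 : ℕ) : ℤ) • d → False := fun e =>
    absurd (line_inj (a := a) hd 0 (by norm_num) 1 (by norm_num) e) (by norm_num)
  have i02 : a + ((0 : ℕ) : ℤ) • d = a + ((2 : ℕ) : ℤ) • d → False := fun e =>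
    absurd (line_inj (a := a) hd 0 (by norm_num) 2 (by norm_num) e) (by norm_num)
  have i12 : a + ((1 : ℕ) : ℤ) • d = a + ((2 : ℕ) : ℤ) • d → False := fun e =>
    absurd (line_inj (a := a) hd 1 (by norm_num) 2 (by norm_num) e) (by norm_num)
  simp only [Set.mem_insert_iff, Set.mem_singleton_iff] at h0 h1 h2
  rcases h0 with h0 | h0 <;> rcases h1 with h1 | h1 <;> rcases h2 with h2 | h2
  · exact i01 (h0.trans h1.symm)
  · exact i01 (h0.trans h1.symm)
  · exact i02 (h0.trans h2.symm)
  · exact i12 (h1.trans h2.symm)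
  · exact i12 (h1.trans h2.symm)
  · exact i02 (h0.trans h2.symm)
  · exact i01 (h0.trans h1.symm)
  · exact i01 (h0.trans h1.symm)

/-- the defender's first stone is at `w` from the attacker's -/
def Row (n : ℕ) (w : Cell) : Prop := Win n {((0 : ℤ), (0 : ℤ))} {w}

theorem row_of {n : ℕ} {c b w : Cell} (hbc : b ≠ c) (hbw : b ≠ w)
    (h : ∀ z : Cell, z ≠ c → z ≠ b → z ≠ w → Win n {c, b} {w, z}) : Row (n + 1) (w - c) := by
  have h1 : Win (n + 1) {c} {w} := by
    refine ⟨b, hbc, hbw, Or.inr fun y hy hy' => ?_⟩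
    have hyb : y ≠ b := fun e => hy (Or.inl e)
    have hyc : y ≠ c := fun e => hy (Or.inr e)
    have hyw : y ≠ w := hy'
    have e1 : insert b ({c} : Set Cell) = {c, b} := Set.pair_comm b c
    have e2 : insert y ({w} : Set Cell) = {w, y} := Set.pair_comm y w
    rw [e1, e2]
    exact ⟨not_five_pair w y, h y hyc hyb hyw⟩
  have h2 := win_translate (-c) h1
  rw [Set.image_singleton, Set.image_singleton] at h2
  have e1 : c + -c = ((0 : ℤ), (0 : ℤ)) := by rw [add_neg_cancel]; rfl
  have e2 : w + -c = w - c := by rw [sub_eq_add_neg]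
  rw [e1, e2] at h2
  exact h2

theorem Row.mono {n m : ℕ} (hnm : n ≤ m) {w : Cell} (h : Row n w) : Row m w := Win.mono hnm h

theorem Row.negx {n : ℕ} {x y : ℤ} (h : Row n (x, y)) : Row n (-x, y) := by
  have := win_negx h
  rw [Set.image_singleton, Set.image_singleton] at this
  simpa [Row] using this

theorem Row.negy {n : ℕ} {x y : ℤ} (h : Row n (x, y)) : Row n (x, -y) := by
  have := win_negy h
  rw [Set.image_singleton, Set.image_singleton] at this
  simpa [Row] using this

theorem Row.swap {n : ℕ} {x y : ℤ} (h : Row n (x, y)) : Row n (y, x) := by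
  have := win_swap h
  rw [Set.image_singleton, Set.image_singleton] at this
  simpa [Row] using this

theorem root (near : ∀ a b : ℕ, 1 ≤ a → a ≤ 5 → b ≤ a → ∃ n, Row n ((a : ℤ), (b : ℤ)))
    (far : ∃ n, ∀ w : Cell, 6 ≤ w.1 → Row n w) : ∃ N, Win N ∅ ∅ := by
  obtain ⟨n1, h1⟩ := far
  have near' : ∀ a b : ℕ, ∃ n, 1 ≤ a → a ≤ 5 → b ≤ a → Row n ((a : ℤ), (b : ℤ)) := by
    intro a b
    by_cases h : 1 ≤ a ∧ a ≤ 5 ∧ b ≤ a
    · obtain ⟨n, hn⟩ := near a b h.1 h.2.1 h.2.2
      exact ⟨n, fun _ _ _ => hn⟩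
    · exact ⟨0, fun h1 h2 h3 => absurd ⟨h1, h2, h3⟩ h⟩
  choose g hg using near'
  let N := max n1 ((Finset.range 6 ×ˢ Finset.range 6).sup fun p => g p.1 p.2)
  have oct : ∀ x y : ℤ, 0 ≤ y → y ≤ x → 0 < x → Row N (x, y) := by
    intro x y hy hyx hx
    by_cases h6 : 6 ≤ x
    · exact (h1 (x, y) h6).mono (le_max_left _ _)
    · have hr := hg x.toNat y.toNat (by omega) (by omega) (by omega)
      have e1 : ((x.toNat : ℕ) : ℤ) = x := Int.toNat_of_nonneg (by omega)
      have e2 : ((y.toNat : ℕ) : ℤ) = y := Int.toNat_of_nonneg hy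
      rw [e1, e2] at hr
      refine hr.mono (le_trans ?_ (le_max_right _ _))
      exact Finset.le_sup (f := fun p : ℕ × ℕ => g p.1 p.2) (b := (x.toNat, y.toNat))
        (Finset.mem_product.2 ⟨Finset.mem_range.2 (by show x.toNat < 6; omega), Finset.mem_range.2 (by show y.toNat < 6; omega)⟩)
  have quad : ∀ x y : ℤ, 0 ≤ y → 0 ≤ x → (x, y) ≠ ((0 : ℤ), (0 : ℤ)) → Row N (x, y) := by
    intro x y hy hx hne
    by_cases h : y ≤ x
    · refine oct x y hy h ?_
      by_contra hc
      exact hne (by rw [Prod.mk.injEq]; omega)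
    · exact (oct y x hx (by omega) (by omega)).swap
  have half : ∀ x y : ℤ, 0 ≤ y → (x, y) ≠ ((0 : ℤ), (0 : ℤ)) → Row N (x, y) := by
    intro x y hy hne
    by_cases h : 0 ≤ x
    · exact quad x y hy h hne
    · have := (quad (-x) y hy (by omega) (by intro e; rw [Prod.mk.injEq] at e; omega)).negx
      rwa [neg_neg] at this
  have all : ∀ x y : ℤ, (x, y) ≠ ((0 : ℤ), (0 : ℤ)) → Row N (x, y) := by
    intro x y hne
    by_cases h : 0 ≤ y
    · exact half x y h hne
    · have := (half x (-y) (by omega) (by intro e; rw [Prod.mk.injEq] at e; exact hne (by rw [Prod.mk.injEq]; omega))).negy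
      rwa [neg_neg] at this
  refine ⟨N + 1, ((0 : ℤ), (0 : ℤ)), fun h => h.elim, fun h => h.elim, Or.inr fun y hy _ => ⟨?_, ?_⟩⟩
  · intro h
    exact not_five_pair y y (h.mono (by intro c hc; rcases hc with hc | hc; exact Or.inl hc; exact hc.elim))
  · have hne : (y.1, y.2) ≠ ((0 : ℤ), (0 : ℤ)) := fun e => hy (Or.inl e)
    have := all y.1 y.2 hne
    have e1 : insert ((0 : ℤ), (0 : ℤ)) (∅ : Set Cell) = {((0 : ℤ), (0 : ℤ))} := by ext c; simp
    have e2 : insert y (∅ : Set Cell) = {y} := by ext c; simp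
    rw [e1, e2]
    exact this

end Pool.Agent.H184.G2
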