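import Pool.Agent.H184.G2.Bits

set_option autoImplicit false

/-!
# Soundness of the checker, for an abstract notion of won position
-/

namespace Pool.Agent.H184.G2

open Pool.Agent.H184.Gomoku

/-- stones of the attacker -/
def aS (st : ℕ) : Set Cell := {c | ∃ i < 1024, cell i = c ∧ st.testBit i = true}
/-- stones of the defender -/
def dS (st : ℕ) : Set Cell := {c | ∃ i < 1024, cell i = c ∧ st.testBit (1024 + i) = true}
/-- at most `3 - j` masks are in use -/
def Inv (st j : ℕ) : Prop := j ≤ 3 ∧ ∀ n, st.testBit n = true → n < 1024 * (5 - j)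
/-- the cell is empty and allowed -/
def Fr (st x : ℕ) : Prop := st.testBit x = false ∧ st.testBit (1024 + x) = false ∧
  st.testBit (2048 + x) = false ∧ st.testBit (3072 + x) = false ∧ st.testBit (4096 + x) = false
/-- the defender cannot complete a line now -/
structure SafeP (st : ℕ) : Prop where
  disj : ∀ i < 1024, st.testBit i = true → st.testBit (1024 + i) = false
  inR : ∀ i < 1024, (st.testBit i = true ∨ st.testBit (1024 + i) = true) → R.testBit i = true
  win : WinOK (fun i => st.testBit i) (fun i => st.testBit (1024 + i)) (fun i => st.testBit (2048 + i))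
    (fun i => st.testBit (3072 + i)) (fun i => st.testBit (4096 + i))
/-- move of the attacker -/
def mvx (st x : ℕ) : ℕ := Nat.lor st (bit x)
/-- move of the defender -/
def mvy (st y : ℕ) : ℕ := Nat.lor st (bit (1024 + y))
/-- a new mask -/
def mk (st K : ℕ) : ℕ := Nat.lor (Nat.lor (Nat.land st MK) (Nat.shiftLeft (Nat.shiftRight st 2048) 3072)) K
def Fld (K : ℕ) : Prop := ∀ n, K.testBit n = true → 2048 ≤ n ∧ n < 3072

/-- what a notion of won position has to satisfy -/
structure Rules (K : List ℕ) (e : ℕ) (G : ℕ → ℕ → Prop) (H : ℕ → ℕ → Set Cell → Prop) : Prop where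
  five : ∀ st j x, Inv st j → x < 1024 → Fr st x → Five (insert (cell x) (aS st)) → G st j
  four : ∀ st j x y, Inv st j → x < 1024 → y < 1024 → Fr st x → Fr st y →
    Five (insert (cell y) (insert (cell x) (aS st))) → SafeP (mvx st x) → G (mvy (mvx st x) y) j → G st j
  one : ∀ st j y, Inv st j → 1 ≤ j → y < 1024 → e.testBit (2048 + y) = false → G (mvy st y) j → H st j {cell y}
  mask : ∀ st j M, Inv st j → 1 ≤ j → Fld M → G (mk st M) (j - 1) →
    H st j {u | ∀ i < 1024, cell i = u → M.testBit (2048 + i) = true}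
  union : ∀ st j S T, H st j S → H st j T → H st j (S ∪ T)
  sub : ∀ st j S T, H st j S → T ⊆ S → H st j T
  quiet : ∀ st j x, Inv st j → 1 ≤ j → x < 1024 → Fr st x → SafeP (mvx st x) → H (mvx st x) j Set.univ → G st j
  empty : ∀ st j, H st j ∅
  known : ∀ st ∈ K, G st 3

theorem br (x y : Bool) (t : Bool) : @Bool.rec (fun _ => Bool) x y t = cond t y x := by cases t <;> rfl

theorem tb_shl1 (k i : ℕ) : (Nat.shiftLeft 1 k).testBit i = decide (i = k) := by
  have : Nat.shiftLeft 1 k = 2 ^ k := Nat.one_shiftLeft k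
  rw [this, Nat.testBit_two_pow, decide_eq_decide]
  exact eq_comm

theorem tb_MD (i : ℕ) : MD.testBit i = decide (1024 ≤ i ∧ i < 2048) := by
  unfold MD
  rw [tb_shl, tb_ones, ← Bool.decide_and, decide_eq_decide]
  omega

theorem tb_W2 (i : ℕ) : W2.testBit i = decide (2048 ≤ i ∧ i < 3072) := by
  unfold W2
  rw [tb_shl, tb_ones, ← Bool.decide_and, decide_eq_decide]
  omega

theorem tb_MK (i : ℕ) : MK.testBit i = decide (i < 2048) := by
  unfold MK
  rw [shl_sub, Nat.testBit_two_pow_sub_one]

theorem tb_shlB {B k x i : ℕ} (hB : B = Nat.shiftLeft 1 k) : (Nat.shiftLeft B x).testBit i = decide (i = k + x) := by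
  subst hB
  rw [tb_shl, tb_shl1, ← Bool.decide_and, decide_eq_decide]
  omega

theorem land_mask_lt (a k : ℕ) : Nat.land a (2 ^ k - 1) < 2 ^ k := by
  have : Nat.land a (2 ^ k - 1) = a % 2 ^ k := Nat.and_two_pow_sub_one_eq_mod a k
  rw [this]
  exact Nat.mod_lt _ (Nat.two_pow_pos _)

theorem shr_lt {a n m : ℕ} (h : a < 2 ^ (n + m)) : Nat.shiftRight a m < 2 ^ n := by
  have : Nat.shiftRight a m = a / 2 ^ m := Nat.shiftRight_eq_div_pow a m
  rw [this]
  rw [Nat.div_lt_iff_lt_mul (Nat.two_pow_pos _), ← pow_add]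
  exact h

theorem lt_of_bits {a n : ℕ} (h : ∀ i, a.testBit i = true → i < n) : a < 2 ^ n := by
  apply Nat.lt_pow_two_of_testBit
  intro i hi
  by_contra hc
  rw [Bool.not_eq_false] at hc
  have := h i hc
  omega

theorem Inv.lt {st j : ℕ} (h : Inv st j) {n : ℕ} (hn : st.testBit n = true) : n < 5120 := by
  have := h.2 n hn
  have := h.1
  omega

theorem Inv.false {st j : ℕ} (h : Inv st j) {n : ℕ} (hn : 5120 ≤ n) : st.testBit n = false := by
  by_contra hc
  rw [Bool.not_eq_false] at hc
  have := h.lt hc
  omega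

theorem inv_mvx {st j x : ℕ} (h : Inv st j) (hx : x < 1024) : Inv (mvx st x) j := by
  refine ⟨h.1, fun n hn => ?_⟩
  unfold mvx at hn
  rw [tb_lor, Bool.or_eq_true, tb_bit, decide_eq_true_eq] at hn
  rcases hn with hn | hn
  · exact h.2 n hn
  · have := h.1
    omega

theorem inv_mvy {st j y : ℕ} (h : Inv st j) (hy : y < 1024) : Inv (mvy st y) j := by
  refine ⟨h.1, fun n hn => ?_⟩
  unfold mvy at hn
  rw [tb_lor, Bool.or_eq_true, tb_bit, decide_eq_true_eq] at hn
  rcases hn with hn | hn
  · exact h.2 n hn
  · have := h.1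
    omega

theorem tb_mk (st K n : ℕ) : (mk st K).testBit n =
    ((st.testBit n && decide (n < 2048)) || (decide (3072 ≤ n) && st.testBit (n - 1024)) || K.testBit n) := by
  unfold mk
  rw [tb_lor, tb_lor, tb_land, tb_MK, tb_shl, tb_shr]
  by_cases h : 3072 ≤ n
  · have : 2048 + (n - 3072) = n - 1024 := by omega
    rw [this]
  · simp [h]

theorem inv_mk {st j M : ℕ} (h : Inv st j) (hj : 1 ≤ j) (hM : Fld M) : Inv (mk st M) (j - 1) := by
  refine ⟨by have := h.1; omega, fun n hn => ?_⟩
  have h3 := h.1
  rw [tb_mk, Bool.or_eq_true, Bool.or_eq_true, Bool.and_eq_true, Bool.and_eq_true, decide_eq_true_eq,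
    decide_eq_true_eq] at hn
  rcases hn with (hn | hn) | hn
  · omega
  · have := h.2 _ hn.2
    omega
  · have := hM n hn
    omega

/-! ### items of the three kinds -/

theorem four_item {st j t1 x y : ℕ} (hI : Inv st j) (hx : x < 1024) (hy : y < 1024)
    (ht : t1 = Nat.lor (Nat.shiftLeft B5 x) (Nat.shiftLeft B6 y)) :
    Nat.lor st t1 < 2 ^ 7168 ∧ Nat.lor st (Nat.shiftRight t1 5120) = mvy (mvx st x) y ∧
    ∀ g : ℕ → Bool, (∀ n < 7168, g n = (Nat.lor st t1).testBit n) → ItemOK g →
      Fr st x ∧ Fr st y ∧ Five (insert (cell y) (insert (cell x) (aS st))) ∧ SafeP (mvx st x) := by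
  have tbt : ∀ n, t1.testBit n = (decide (n = 5120 + x) || decide (n = 6144 + y)) := by
    intro n
    rw [ht, tb_lor, tb_shlB (B := B5) rfl, tb_shlB (B := B6) rfl]
  refine ⟨?_, ?_, ?_⟩
  · apply lt_of_bits
    intro i hi
    rw [tb_lor, tbt, Bool.or_eq_true, Bool.or_eq_true, decide_eq_true_eq, decide_eq_true_eq] at hi
    rcases hi with hi | hi | hi
    · have := hI.lt hi; omega
    · omega
    · omega
  · apply Nat.eq_of_testBit_eq
    intro n
    unfold mvy mvx
    rw [tb_lor, tb_shr, tbt, tb_lor, tb_lor, tb_bit, tb_bit, Bool.or_assoc]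
    congr 2
    · rw [decide_eq_decide]; omega
    · rw [decide_eq_decide]; omega
  · intro g hg hok
    have g0 : ∀ n < 5120, g n = st.testBit n := by
      intro n hn
      rw [hg n (by omega), tb_lor, tbt]
      have e1 : decide (n = 5120 + x) = false := by rw [decide_eq_false_iff_not]; omega
      have e2 : decide (n = 6144 + y) = false := by rw [decide_eq_false_iff_not]; omega
      rw [e1, e2, Bool.or_false, Bool.or_false]
    have g5 : ∀ i < 1024, g (5120 + i) = decide (i = x) := by
      intro i hi
      rw [hg _ (by omega), tb_lor, tbt, hI.false (by omega)]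
      have e2 : decide (5120 + i = 6144 + y) = false := by rw [decide_eq_false_iff_not]; omega
      rw [e2, Bool.or_false, Bool.false_or, decide_eq_decide]
      omega
    have g6 : ∀ i < 1024, g (6144 + i) = decide (i = y) := by
      intro i hi
      rw [hg _ (by omega), tb_lor, tbt, hI.false (by omega)]
      have e2 : decide (6144 + i = 5120 + x) = false := by rw [decide_eq_false_iff_not]; omega
      rw [e2, Bool.false_or, Bool.false_or, decide_eq_decide]
      omega
    have fr : ∀ i < 1024, (i = x ∨ i = y) → Fr st i := by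
      intro i hi hxy
      have := hok.free i hi (by
        rw [g5 i hi, g6 i hi, decide_eq_true_eq, decide_eq_true_eq]; exact hxy)
      rw [g0 _ (by omega), g0 _ (by omega), g0 _ (by omega), g0 _ (by omega), g0 _ (by omega)] at this
      exact this
    refine ⟨fr x hx (Or.inl rfl), fr y hy (Or.inr rfl), ?_, ?_⟩
    · have := hok.five y hy (by rw [g6 y hy, decide_eq_true_eq])
      refine this.mono ?_
      rintro c ⟨i, hi, rfl, h⟩
      rw [g0 i (by omega), g5 i hi, g6 i hi, decide_eq_true_eq, decide_eq_true_eq] at h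
      rcases h with h | h | h
      · exact Or.inr (Or.inr ⟨i, hi, rfl, h⟩)
      · subst h; exact Or.inr (Or.inl rfl)
      · subst h; exact Or.inl rfl
    · have eA : ∀ i < 1024, (mvx st x).testBit i = (g i || g (5120 + i)) := by
        intro i hi
        unfold mvx
        rw [tb_lor, tb_bit, g0 i (by omega), g5 i hi]
        congr 1
        rw [decide_eq_decide]
        exact eq_comm
      have eO : ∀ i, 1024 ≤ i → (mvx st x).testBit i = st.testBit i := by
        intro i hi
        unfold mvx
        rw [tb_lor, tb_bit]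
        have : decide (x = i) = false := by rw [decide_eq_false_iff_not]; omega
        rw [this, Bool.or_false]
      refine ⟨?_, ?_, ?_⟩
      · intro i hi h
        rw [eA i hi, Bool.or_eq_true] at h
        rw [eO _ (by omega), ← g0 _ (by omega)]
        exact hok.disj i hi h
      · intro i hi h
        apply hok.inR i hi
        rw [eA i hi, eO _ (by omega), Bool.or_eq_true, ← g0 _ (by omega)] at h
        tauto
      · intro s i hs hi hA hD
        have c1 : ∀ (p q : ℕ → Bool), (∀ n < 1024, p n = q n) → or5 p i s = or5 q i s := by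
          intro p q hpq
          unfold or5
          rw [hpq _ (by omega), hpq _ (by omega), hpq _ (by omega), hpq _ (by omega), hpq _ (by omega)]
        have c2 : ∀ (p q : ℕ → Bool), (∀ n < 1024, p n = q n) → cnt5 p i s = cnt5 q i s := by
          intro p q hpq
          unfold cnt5
          rw [hpq _ (by omega), hpq _ (by omega), hpq _ (by omega), hpq _ (by omega), hpq _ (by omega)]
        have hDe : ∀ n < 1024, (fun i => (mvx st x).testBit (1024 + i)) n = (fun i => g (1024 + i)) n := by
          intro n hn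
          show (mvx st x).testBit (1024 + n) = g (1024 + n)
          rw [eO _ (by omega), g0 _ (by omega)]
        have hNe : ∀ o, 1024 ≤ o → o ≤ 4096 → ∀ n < 1024, fN (fun i => (mvx st x).testBit i) (fun i => (mvx st x).testBit (1024 + i))
            (fun i => (mvx st x).testBit (o + i)) n =
            fN (fun i => g i || g (5120 + i)) (fun i => g (1024 + i)) (fun i => g (o + i)) n := by
          intro o ho1 ho2 n hn
          show ((mvx st x).testBit (o + n) && !((mvx st x).testBit n || (mvx st x).testBit (1024 + n))) =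
            (g (o + n) && !((g n || g (5120 + n)) || g (1024 + n)))
          rw [eO (o + n) (by omega), eO (1024 + n) (by omega), eA n hn, g0 (o + n) (by omega), g0 (1024 + n) (by omega)]
        rw [c1 _ _ eA] at hA
        rw [c2 _ _ hDe] at hD ⊢
        rw [c1 _ _ (hNe 2048 (by norm_num) (by norm_num)), c1 _ _ (hNe 3072 (by norm_num) (by norm_num)),
          c1 _ _ (hNe 4096 (by norm_num) (by norm_num))]
        exact hok.win s i hs hi hA hD

theorem quiet_item {st j bx x : ℕ} (hI : Inv st j) (hx : x < 1024) (ht : bx = Nat.shiftLeft B5 x) :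
    Nat.lor st bx < 2 ^ 7168 ∧ Nat.lor st (Nat.shiftRight bx 5120) = mvx st x ∧
    ∀ g : ℕ → Bool, (∀ n < 7168, g n = (Nat.lor st bx).testBit n) → ItemOK g →
      Fr st x ∧ SafeP (mvx st x) := by
  have tbt : ∀ n, bx.testBit n = decide (n = 5120 + x) := by
    intro n
    rw [ht, tb_shlB (B := B5) rfl]
  refine ⟨?_, ?_, ?_⟩
  · apply lt_of_bits
    intro i hi
    rw [tb_lor, tbt, Bool.or_eq_true, decide_eq_true_eq] at hi
    rcases hi with hi | hi
    · have := hI.lt hi; omega
    · omega
  · apply Nat.eq_of_testBit_eq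
    intro n
    unfold mvx
    rw [tb_lor, tb_shr, tbt, tb_lor, tb_bit]
    congr 1
    rw [decide_eq_decide]; omega
  · intro g hg hok
    have g0 : ∀ n < 5120, g n = st.testBit n := by
      intro n hn
      rw [hg n (by omega), tb_lor, tbt]
      have e1 : decide (n = 5120 + x) = false := by rw [decide_eq_false_iff_not]; omega
      rw [e1, Bool.or_false]
    have g5 : ∀ i < 1024, g (5120 + i) = decide (i = x) := by
      intro i hi
      rw [hg _ (by omega), tb_lor, tbt, hI.false (by omega), Bool.false_or, decide_eq_decide]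
      omega
    refine ⟨?_, ?_⟩
    · have := hok.free x hx (by left; rw [g5 x hx, decide_eq_true_eq])
      rw [g0 _ (by omega), g0 _ (by omega), g0 _ (by omega), g0 _ (by omega), g0 _ (by omega)] at this
      exact this
    · have eA : ∀ i < 1024, (mvx st x).testBit i = (g i || g (5120 + i)) := by
        intro i hi
        unfold mvx
        rw [tb_lor, tb_bit, g0 i (by omega), g5 i hi]
        congr 1
        rw [decide_eq_decide]
        exact eq_comm
      have eO : ∀ i, 1024 ≤ i → (mvx st x).testBit i = st.testBit i := by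
        intro i hi
        unfold mvx
        rw [tb_lor, tb_bit]
        have : decide (x = i) = false := by rw [decide_eq_false_iff_not]; omega
        rw [this, Bool.or_false]
      refine ⟨?_, ?_, ?_⟩
      · intro i hi h
        rw [eA i hi, Bool.or_eq_true] at h
        rw [eO _ (by omega), ← g0 _ (by omega)]
        exact hok.disj i hi h
      · intro i hi h
        apply hok.inR i hi
        rw [eA i hi, eO _ (by omega), Bool.or_eq_true, ← g0 _ (by omega)] at h
        tauto
      · intro s i hs hi hA hD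
        have c1 : ∀ (p q : ℕ → Bool), (∀ n < 1024, p n = q n) → or5 p i s = or5 q i s := by
          intro p q hpq
          unfold or5
          rw [hpq _ (by omega), hpq _ (by omega), hpq _ (by omega), hpq _ (by omega), hpq _ (by omega)]
        have c2 : ∀ (p q : ℕ → Bool), (∀ n < 1024, p n = q n) → cnt5 p i s = cnt5 q i s := by
          intro p q hpq
          unfold cnt5
          rw [hpq _ (by omega), hpq _ (by omega), hpq _ (by omega), hpq _ (by omega), hpq _ (by omega)]
        have hDe : ∀ n < 1024, (fun i => (mvx st x).testBit (1024 + i)) n = (fun i => g (1024 + i)) n := by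
          intro n hn
          show (mvx st x).testBit (1024 + n) = g (1024 + n)
          rw [eO _ (by omega), g0 _ (by omega)]
        have hNe : ∀ o, 1024 ≤ o → o ≤ 4096 → ∀ n < 1024, fN (fun i => (mvx st x).testBit i) (fun i => (mvx st x).testBit (1024 + i))
            (fun i => (mvx st x).testBit (o + i)) n =
            fN (fun i => g i || g (5120 + i)) (fun i => g (1024 + i)) (fun i => g (o + i)) n := by
          intro o ho1 ho2 n hn
          show ((mvx st x).testBit (o + n) && !((mvx st x).testBit n || (mvx st x).testBit (1024 + n))) =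
            (g (o + n) && !((g n || g (5120 + n)) || g (1024 + n)))
          rw [eO (o + n) (by omega), eO (1024 + n) (by omega), eA n hn, g0 (o + n) (by omega), g0 (1024 + n) (by omega)]
        rw [c1 _ _ eA] at hA
        rw [c2 _ _ hDe] at hD ⊢
        rw [c1 _ _ (hNe 2048 (by norm_num) (by norm_num)), c1 _ _ (hNe 3072 (by norm_num) (by norm_num)),
          c1 _ _ (hNe 4096 (by norm_num) (by norm_num))]
        exact hok.win s i hs hi hA hD

theorem five_item {st j item x : ℕ} (hI : Inv st j) (hx : x < 1024)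
    (ht : item = Nat.lor (Nat.shiftLeft B6 x) (Nat.lor (Nat.xor st (Nat.land st MD)) (Nat.shiftLeft (Nat.land st MD) 1024))) :
    item < 2 ^ 7168 ∧
    ∀ g : ℕ → Bool, (∀ n < 7168, g n = item.testBit n) → ItemOK g →
      Fr st x ∧ Five (insert (cell x) (aS st)) := by
  have tbt : ∀ n, item.testBit n = (decide (n = 6144 + x) || ((st.testBit n ^^ (st.testBit n && decide (1024 ≤ n ∧ n < 2048))) ||
      (decide (1024 ≤ n) && (st.testBit (n - 1024) && decide (1024 ≤ n - 1024 ∧ n - 1024 < 2048))))) := by
    intro n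
    rw [ht, tb_lor, tb_shlB (B := B6) rfl, tb_lor, tb_xor, tb_land, tb_MD, tb_shl, tb_land, tb_MD]
  refine ⟨?_, ?_⟩
  · apply lt_of_bits
    intro i hi
    by_contra hc
    rw [not_lt] at hc
    rw [tbt, hI.false (by omega), hI.false (by omega)] at hi
    have : decide (i = 6144 + x) = false := by rw [decide_eq_false_iff_not]; omega
    rw [this] at hi
    simp at hi
  · intro g hg hok
    have gA : ∀ i < 1024, g i = st.testBit i := by
      intro i hi
      rw [hg i (by omega), tbt]
      have e1 : decide (i = 6144 + x) = false := by rw [decide_eq_false_iff_not]; omega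
      have e2 : decide (1024 ≤ i ∧ i < 2048) = false := by rw [decide_eq_false_iff_not]; omega
      have e3 : decide (1024 ≤ i) = false := by rw [decide_eq_false_iff_not]; omega
      rw [e1, e2, e3]
      cases st.testBit i <;> rfl
    have g2 : ∀ i < 1024, g (2048 + i) = (st.testBit (2048 + i) || st.testBit (1024 + i)) := by
      intro i hi
      rw [hg _ (by omega), tbt]
      have e1 : decide (2048 + i = 6144 + x) = false := by rw [decide_eq_false_iff_not]; omega
      have e2 : decide (1024 ≤ 2048 + i ∧ 2048 + i < 2048) = false := by rw [decide_eq_false_iff_not]; omega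
      have e3 : decide (1024 ≤ 2048 + i) = true := by rw [decide_eq_true_eq]; omega
      have e4 : 2048 + i - 1024 = 1024 + i := by omega
      have e5 : decide (1024 ≤ 1024 + i ∧ 1024 + i < 2048) = true := by rw [decide_eq_true_eq]; omega
      rw [e4, e1, e2, e3, e5]
      cases st.testBit (2048 + i) <;> cases st.testBit (1024 + i) <;> rfl
    have g3 : ∀ n, 3072 ≤ n → n < 6144 → g n = st.testBit n := by
      intro n hn1 hn2
      rw [hg _ (by omega), tbt]
      have e1 : decide (n = 6144 + x) = false := by rw [decide_eq_false_iff_not]; omega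
      have e2 : decide (1024 ≤ n ∧ n < 2048) = false := by rw [decide_eq_false_iff_not]; omega
      have e3 : decide (1024 ≤ n - 1024 ∧ n - 1024 < 2048) = false := by rw [decide_eq_false_iff_not]; omega
      rw [e1, e2, e3]
      cases st.testBit n <;> simp
    have g6 : ∀ i < 1024, g (6144 + i) = decide (i = x) := by
      intro i hi
      rw [hg _ (by omega), tbt, hI.false (by omega), hI.false (by omega)]
      have e1 : decide (6144 + i = 6144 + x) = decide (i = x) := by rw [decide_eq_decide]; omega
      rw [e1]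
      simp
    have hfree := hok.free x hx (by right; rw [g6 x hx, decide_eq_true_eq])
    rw [gA x hx, g2 x hx, g3 (3072 + x) (by omega) (by omega), g3 (4096 + x) (by omega) (by omega),
      Bool.or_eq_false_iff] at hfree
    refine ⟨⟨hfree.1, hfree.2.2.1.2, hfree.2.2.1.1, hfree.2.2.2.1, hfree.2.2.2.2⟩, ?_⟩
    have := hok.five x hx (by rw [g6 x hx, decide_eq_true_eq])
    refine this.mono ?_
    rintro c ⟨i, hi, rfl, h⟩
    rw [gA i hi, g3 (5120 + i) (by omega) (by omega), g6 i hi, hI.false (n := 5120 + i) (by omega),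
      decide_eq_true_eq] at h
    rcases h with h | h | h
    · exact Or.inr ⟨i, hi, rfl, h⟩
    · exact absurd h Bool.false_ne_true
    · subst h; exact Or.inl rfl

/-! ### the checker -/

section
variable {K : List ℕ} {e : ℕ} {G : ℕ → ℕ → Prop} {H : ℕ → ℕ → Set Cell → Prop}

theorem push_item {acc item : ℕ} (hi : item < 2 ^ 7168) (h : AccOK (Nat.lor (Nat.shiftLeft acc 7168) item)) :
    AccOK acc ∧ ∃ g : ℕ → Bool, (∀ n < 7168, g n = item.testBit n) ∧ ItemOK g := by
  obtain ⟨h1, h2⟩ := push_sound hi h
  refine ⟨h1, _, fun n hn => ?_, h2⟩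
  show (Nat.lor (Nat.shiftLeft acc 7168) item).testBit n = item.testBit n
  rw [tb_lor, tb_shl]
  have : decide (7168 ≤ n) = false := by rw [decide_eq_false_iff_not]; omega
  rw [this, Bool.false_and, Bool.false_or]

theorem chain_sound (hR : Rules K e G H) {j : ℕ} (kk : ℕ → ℕ → ℕ → Bool) (n : ℕ) :
    ∀ s st acc, Inv st j → chain kk n s st acc = true →
      ∃ s' st' acc', kk s' st' acc' = true ∧ Inv st' j ∧ (AccOK acc' → AccOK acc ∧ (G st' j → G st j)) := by
  induction n with
  | zero => intro s st acc hI h; exact ⟨s, st, acc, h, hI, fun h => ⟨h, id⟩⟩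
  | succ n ih =>
    intro s st acc hI h
    have h : ch1 (chain kk n) s st acc (Nat.land s 0xfffff) = true := h
    unfold ch1 at h
    set hh := Nat.land s 0xfffff with hhd
    have hlt : hh < 2 ^ (10 + 10) := land_mask_lt s 20
    have hx : Nat.land hh 1023 < 1024 := land_mask_lt hh 10
    have hy : Nat.shiftRight hh 10 < 1024 := shr_lt hlt
    unfold ch2 at h
    obtain ⟨i1, i2, i3⟩ := four_item hI hx hy rfl
    rw [i2] at h
    obtain ⟨s', st', acc', h1, h2, h3⟩ := ih _ _ _ (inv_mvy (inv_mvx hI hx) hy) h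
    refine ⟨s', st', acc', h1, h2, fun ha => ?_⟩
    obtain ⟨h4, h5⟩ := h3 ha
    obtain ⟨h6, g, hg, hok⟩ := push_item i1 h4
    obtain ⟨f1, f2, f3, f4⟩ := i3 g hg hok
    exact ⟨h6, fun hG => hR.four st j _ _ hI hx hy f1 f2 f3 f4 (h5 hG)⟩

theorem five_sound (hR : Rules K e G H) {j s st acc c : ℕ} {l : List ℕ} {k : KT} (hI : Inv st j)
    (h : five l c k s st acc = true) :
    ∃ s' acc' l' c', k s' acc' l' c' = true ∧ (Pend acc' l' → Pend acc l ∧ G st j) := by
  unfold five at h
  have hx : Nat.land s 1023 < 1024 := land_mask_lt s 10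
  obtain ⟨i1, i2⟩ := five_item hI hx rfl
  obtain ⟨a', l', c', h1, h2⟩ := psh_sound h
  refine ⟨_, a', l', c', h1, fun hp => ?_⟩
  obtain ⟨h3, h4⟩ := h2 hp
  obtain ⟨h5, g, hg, hok⟩ := push_item i1 h3
  obtain ⟨f1, f2⟩ := i2 g hg hok
  exact ⟨⟨h5, h4⟩, hR.five st j _ hI hx f1 f2⟩

/-- the cells of a set of replies -/
def YS (e Y : ℕ) : Set Cell := {c | ∃ i < 1024, cell i = c ∧ Y.testBit (2048 + i) = true ∧ e.testBit (2048 + i) = false}

/-- soundness of a recursive call -/
def RecOK (G : ℕ → ℕ → Prop) (rec : CT) : Prop := ∀ s st j acc l c k, Inv st j → rec s st j acc l c k = true →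
  ∃ s' acc' l' c', k s' acc' l' c' = true ∧ (Pend acc' l' → Pend acc l ∧ G st j)

theorem Fld.zero : Fld 0 := by intro n hn; rw [Nat.zero_testBit] at hn; exact absurd hn Bool.false_ne_true

theorem Fld.lor {a b : ℕ} (ha : Fld a) (hb : Fld b) : Fld (Nat.lor a b) := by
  intro n hn
  rw [tb_lor, Bool.or_eq_true] at hn
  exact hn.elim (ha n) (hb n)

theorem ys_lor (e Y b : ℕ) : YS e (Nat.lor Y b) ⊆ YS e Y ∪ YS e b := by
  rintro c ⟨i, hi, rfl, h1, h2⟩
  rw [tb_lor, Bool.or_eq_true] at h1
  rcases h1 with h1 | h1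
  · exact Or.inl ⟨i, hi, rfl, h1, h2⟩
  · exact Or.inr ⟨i, hi, rfl, h1, h2⟩

theorem loop_sound (hR : Rules K e G H) {rec : CT} (hrec : RecOK G rec) {j stx : ℕ} (hI : Inv stx j) (hj : 1 ≤ j)
    {k : KT} (n : ℕ) : ∀ s Y KE acc l c, Fld Y → Fld KE →
      loop e rec j stx (Nat.lor (Nat.land stx MK) (Nat.shiftLeft (Nat.shiftRight stx 2048) 3072)) k n s Y KE acc l c = true →
      ∃ s' acc' l' c', k s' acc' l' c' = true ∧
        (Pend acc' l' → Pend acc l ∧ (H stx j (YS e Y) → H stx j Set.univ)) := by
  induction n with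
  | zero =>
    intro s Y KE acc l c hY hKE h
    have h : AND (Nat.beq (Nat.land Y e) 0) (rec s (mk stx (Nat.xor W2 Y)) (Nat.sub j 1) acc l c k) = true := h
    rw [AND_iff] at h
    have he : Nat.land Y e = 0 := Nat.eq_of_beq_eq_true h.1
    have hF : Fld (Nat.xor W2 Y) := by
      intro n hn
      rw [tb_xor, tb_W2] at hn
      by_contra hc
      have h1 : Y.testBit n = false := by
        by_contra hc'
        rw [Bool.not_eq_false] at hc'
        exact hc (hY n hc')
      have h2 : decide (2048 ≤ n ∧ n < 3072) = false := by rw [decide_eq_false_iff_not]; exact hc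
      rw [h1, h2] at hn
      exact absurd hn (by decide)
    obtain ⟨s', acc', l', c', h1, h2⟩ := hrec _ _ _ _ _ _ _ (inv_mk hI hj hF) h.2
    refine ⟨s', acc', l', c', h1, fun hp => ?_⟩
    obtain ⟨h3, h4⟩ := h2 hp
    refine ⟨h3, fun hH => hR.sub _ _ _ _ (hR.union _ _ _ _ hH (hR.mask _ _ _ hI hj hF h4)) ?_⟩
    intro u _
    by_cases hu : u ∈ YS e Y
    · exact Or.inl hu
    · refine Or.inr fun i hi hc => ?_
      rw [tb_xor, tb_W2]
      have h5 : decide (2048 ≤ 2048 + i ∧ 2048 + i < 3072) = true := by rw [decide_eq_true_eq]; omega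
      have h6 : Y.testBit (2048 + i) = false := by
        by_contra hc'
        rw [Bool.not_eq_false] at hc'
        apply hu
        refine ⟨i, hi, hc, hc', ?_⟩
        have := congrArg (fun n => Nat.testBit n (2048 + i)) he
        simp only [tb_land, Nat.zero_testBit] at this
        rw [hc', Bool.true_and] at this
        exact this
      rw [h5, h6]; rfl
  | succ n ih =>
    intro s Y KE acc l c hY hKE h
    have h : loopS rec j stx (Nat.lor (Nat.land stx MK) (Nat.shiftLeft (Nat.shiftRight stx 2048) 3072))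
      (loop e rec j stx (Nat.lor (Nat.land stx MK) (Nat.shiftLeft (Nat.shiftRight stx 2048) 3072)) k n) s Y KE acc l c = true := h
    unfold loopS at h
    rw [br, br] at h
    have hy : Nat.shiftRight (Nat.land s 4095) 2 < 1024 := shr_lt (n := 10) (m := 2) (land_mask_lt s 12)
    set y := Nat.shiftRight (Nat.land s 4095) 2 with hyd
    have tbb : ∀ n, (Nat.shiftLeft B2 y).testBit n = decide (n = 2048 + y) := fun n => tb_shlB (B := B2) rfl
    have hFb : Fld (Nat.shiftLeft B2 y) := by
      intro n hn
      rw [tbb, decide_eq_true_eq] at hn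
      omega
    have hst : Nat.lor stx (Nat.shiftRight (Nat.shiftLeft B2 y) 1024) = mvy stx y := by
      apply Nat.eq_of_testBit_eq
      intro n
      unfold mvy
      rw [tb_lor, tb_shr, tbb, tb_lor, tb_bit]
      congr 1
      rw [decide_eq_decide]; omega
    cases h0 : Nat.beq (Nat.land s 3) 0 with
    | true =>
      rw [h0, cond_true] at h
      unfold it0 at h
      rw [hst] at h
      obtain ⟨s1, acc1, l1, c1, h1, h2⟩ := hrec _ _ _ _ _ _ _ (inv_mvy hI hy) h
      obtain ⟨s', acc', l', c', h3, h4⟩ := ih _ _ _ _ _ _ (hY.lor hFb) hKE h1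
      refine ⟨s', acc', l', c', h3, fun hp => ?_⟩
      obtain ⟨h5, h6⟩ := h4 hp
      obtain ⟨h7, h8⟩ := h2 h5
      refine ⟨h7, fun hH => h6 (hR.sub _ _ _ _ (hR.union stx j (YS e Y) (YS e (Nat.shiftLeft B2 y)) hH ?_) (ys_lor _ _ _))⟩
      by_cases he : e.testBit (2048 + y) = false
      · refine hR.sub _ _ _ _ (hR.one _ _ _ hI hj hy he h8) ?_
        rintro _ ⟨i, hi, rfl, h9, _⟩
        rw [tbb, decide_eq_true_eq] at h9
        have : i = y := by omega
        rw [this]; rfl
      · refine hR.sub _ _ _ _ (hR.empty stx j) ?_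
        rintro _ ⟨i, hi, rfl, h9, h10⟩
        rw [tbb, decide_eq_true_eq] at h9
        have : i = y := by omega
        rw [this] at h10
        exact absurd h10 he
    | false =>
      rw [h0, cond_false] at h
      cases h1 : Nat.beq (Nat.land s 3) 2 with
      | true =>
        rw [h1, cond_true] at h
        have h : rec (Nat.shiftRight s 2) (mk stx KE) (Nat.sub j 1) acc l c (fun s' =>
          loop e rec j stx (Nat.lor (Nat.land stx MK) (Nat.shiftLeft (Nat.shiftRight stx 2048) 3072)) k n s' (Nat.lor Y KE) 0) = true := h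
        obtain ⟨s1, acc1, l1, c1, h2, h3⟩ := hrec _ _ _ _ _ _ _ (inv_mk hI hj hKE) h
        obtain ⟨s', acc', l', c', h4, h5⟩ := ih _ _ _ _ _ _ (hY.lor hKE) Fld.zero h2
        refine ⟨s', acc', l', c', h4, fun hp => ?_⟩
        obtain ⟨h6, h7⟩ := h5 hp
        obtain ⟨h8, h9⟩ := h3 h6
        refine ⟨h8, fun hH => h7 (hR.sub _ _ _ _ (hR.union stx j (YS e Y) (YS e KE) hH ?_) (ys_lor _ _ _))⟩
        refine hR.sub _ _ _ _ (hR.mask _ _ _ hI hj hKE h9) ?_
        rintro _ ⟨i, hi, rfl, h10, _⟩ i' hi' hc
        rw [cell_inj hc]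
        exact h10
      | false =>
        rw [h1, cond_false] at h
        unfold it1 at h
        exact ih _ _ _ _ _ _ hY (hKE.lor hFb) h

theorem known_mem {K : List ℕ} {st : ℕ} (h : known K st = true) : st ∈ K := by
  induction K with
  | nil => exact absurd h Bool.false_ne_true
  | cons p t ih =>
    have h : @Bool.rec (fun _ => Bool) (known t st) true (Nat.beq p st) = true := h
    rw [br] at h
    cases h1 : Nat.beq p st with
    | true =>
      rw [Nat.eq_of_beq_eq_true h1]
      exact List.mem_cons_self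
    | false =>
      rw [h1, cond_false] at h
      exact List.mem_cons_of_mem _ (ih h)

theorem chk_sound (hR : Rules K e G H) (n : ℕ) : RecOK G (chk K e n) := by
  induction n with
  | zero => intro s st j acc l c k _ h; exact absurd h Bool.false_ne_true
  | succ n ih =>
    intro s st j acc l c k hI h
    have h : stepC K e (chk K e n) s st j acc l c k = true := h
    unfold stepC at h
    rw [br, br, br] at h
    cases h1 : Nat.ble (Nat.land s 3) 1 with
    | true =>
      rw [h1, cond_true] at h
      cases h0 : Nat.beq (Nat.land s 3) 0 with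
      | true =>
        rw [h0, cond_true] at h
        obtain ⟨s', st', acc', h2, hI', h3⟩ := chain_sound hR _ _ _ _ _ hI h
        obtain ⟨s2, acc2, l2, c2, h4, h5⟩ := five_sound hR hI' h2
        refine ⟨s2, acc2, l2, c2, h4, fun hp => ?_⟩
        obtain ⟨⟨h6, h7⟩, h8⟩ := h5 hp
        obtain ⟨h9, h10⟩ := h3 h6
        exact ⟨⟨h9, h7⟩, h10 h8⟩
      | false =>
        rw [h0, cond_false] at h
        unfold quiet quiet1 at h
        rw [AND_iff] at h
        obtain ⟨hj, h⟩ := h
        have hj : 1 ≤ j := Nat.le_of_ble_eq_true hj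
        set hh := Nat.land s 0x3fffff with hhd
        have hx : Nat.land (Nat.shiftRight hh 2) 1023 < 1024 := land_mask_lt _ 10
        obtain ⟨i1, i2, i3⟩ := quiet_item hI hx rfl
        rw [i2] at h
        obtain ⟨a1, l1, c1, h2, h3⟩ := psh_sound h
        unfold quiet2 at h2
        obtain ⟨s', acc', l', c', h4, h5⟩ := loop_sound hR ih (inv_mvx hI hx) hj _ _ _ _ _ _ _ Fld.zero Fld.zero h2
        refine ⟨s', acc', l', c', h4, fun hp => ?_⟩
        obtain ⟨h6, h7⟩ := h5 hp
        obtain ⟨h8, h9⟩ := h3 h6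
        obtain ⟨h10, g, hg, hok⟩ := push_item i1 h8
        obtain ⟨f1, f2⟩ := i3 g hg hok
        refine ⟨⟨h10, h9⟩, hR.quiet _ _ _ hI hj hx f1 f2 (h7 (hR.sub _ _ _ _ (hR.empty _ _) ?_))⟩
        rintro _ ⟨i, hi, rfl, h11, _⟩
        rw [Nat.zero_testBit] at h11
        exact absurd h11 Bool.false_ne_true
    | false =>
      rw [h1, cond_false] at h
      cases h0 : Nat.beq (Nat.land s 3) 2 with
      | true =>
        rw [h0, cond_true] at h
        obtain ⟨s', st', acc', h2, hI', h3⟩ := chain_sound hR _ _ _ _ _ hI h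
        obtain ⟨s2, acc2, l2, c2, h4, h5⟩ := ih _ _ _ _ _ _ _ hI' h2
        refine ⟨s2, acc2, l2, c2, h4, fun hp => ?_⟩
        obtain ⟨⟨h6, h7⟩, h8⟩ := h5 hp
        obtain ⟨h9, h10⟩ := h3 h6
        exact ⟨⟨h9, h7⟩, h10 h8⟩
      | false =>
        rw [h0, cond_false] at h
        unfold kn at h
        rw [AND_iff, AND_iff] at h
        obtain ⟨h2, h3, h4⟩ := h
        have h2 : j = 3 := Nat.eq_of_beq_eq_true h2
        refine ⟨_, _, _, _, h4, fun hp => ⟨hp, ?_⟩⟩
        rw [h2]
        exact hR.known st (known_mem h3)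

end

end Pool.Agent.H184.G2
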