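import Pool.Agent.H184.Gomoku.Game

set_option autoImplicit false

/-!
# From a bounded win to the two statements
-/

namespace Pool.Agent.H184.G2

open Pool.Agent.H184.Gomoku

theorem strat1 (h : ∃ N, Win N ∅ ∅) :
    ∃ σ : List (ℤ × ℤ) → ℤ × ℤ,
      ∀ p : ℕ → ℤ × ℤ,
        (∀ m : ℕ, p (2 * m) = σ (List.ofFn (fun i : Fin (2 * m) => p i))) →
        (∀ m i : ℕ, i < 2 * m + 1 → p i ≠ p (2 * m + 1)) →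
        (∀ m i : ℕ, i < 2 * m → p i ≠ p (2 * m)) ∧
        ∃ n : ℕ,
          (∃ a d : ℤ × ℤ,
              d ∈ ({((1 : ℤ), (0 : ℤ)), ((0 : ℤ), (1 : ℤ)), ((1 : ℤ), (1 : ℤ)),
                    ((1 : ℤ), (-1 : ℤ))} : Finset (ℤ × ℤ)) ∧
              ∀ k : ℕ, k < 5 → ∃ i : ℕ, i ≤ n ∧ p (2 * i) = a + (k : ℤ) • d) ∧
          ¬ (∃ b e : ℤ × ℤ,
              e ∈ ({((1 : ℤ), (0 : ℤ)), ((0 : ℤ), (1 : ℤ)), ((1 : ℤ), (1 : ℤ)),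
                    ((1 : ℤ), (-1 : ℤ))} : Finset (ℤ × ℤ)) ∧
              ∀ k : ℕ, k < 5 → ∃ i : ℕ, i < n ∧ p (2 * i + 1) = b + (k : ℤ) • e) := by
  obtain ⟨N, hN⟩ := h
  obtain ⟨σ, hσ⟩ := strategy_of_win N hN
  refine ⟨σ, fun p h1 h2 => ?_⟩
  obtain ⟨h3, m, _, h4, h5⟩ := hσ p h1 h2
  exact ⟨h3, m, h4, h5⟩

theorem strat2 (h : ∃ N, Win N ∅ ∅) :
    ∃ N : ℕ, ∃ σ : List (ℤ × ℤ) → ℤ × ℤ,
      ∀ p : ℕ → ℤ × ℤ,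
        (∀ k : ℕ, p (2 * k) = σ (List.ofFn (fun i : Fin (2 * k) => p (i : ℕ)))) →
        (∀ j i : ℕ, i < 2 * j + 1 → p i ≠ p (2 * j + 1)) →
        ∃ m : ℕ, m < N ∧
          (∀ k : ℕ, k ≤ m → ∀ i : ℕ, i < 2 * k → p i ≠ p (2 * k)) ∧
          (∃ a d : ℤ × ℤ,
              (d = (1, 0) ∨ d = (0, 1) ∨ d = (1, 1) ∨ d = (1, -1)) ∧
              ∀ t : ℤ, 0 ≤ t → t < 5 →
                ∃ i : ℕ, i ≤ m ∧ p (2 * i) = (a.1 + t * d.1, a.2 + t * d.2)) ∧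
          ¬ (∃ a d : ℤ × ℤ,
              (d = (1, 0) ∨ d = (0, 1) ∨ d = (1, 1) ∨ d = (1, -1)) ∧
              ∀ t : ℤ, 0 ≤ t → t < 5 →
                ∃ i : ℕ, i < m ∧ p (2 * i + 1) = (a.1 + t * d.1, a.2 + t * d.2)) := by
  obtain ⟨N, hN⟩ := h
  obtain ⟨σ, hσ⟩ := strategy_of_win N hN
  refine ⟨N, σ, fun p h1 h2 => ?_⟩
  obtain ⟨h3, m, hm, h4, h5⟩ := hσ p h1 h2
  have hd : ∀ d : ℤ × ℤ, d ∈ dirs ↔ (d = (1, 0) ∨ d = (0, 1) ∨ d = (1, 1) ∨ d = (1, -1)) := by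
    intro d
    simp [dirs]
  have he : ∀ (a d : ℤ × ℤ) (t : ℤ), a + t • d = (a.1 + t * d.1, a.2 + t * d.2) := by
    intro a d t
    ext <;> simp
  refine ⟨m, hm, fun k _ i hi => h3 k i hi, ?_, ?_⟩
  · obtain ⟨a, d, hdd, h6⟩ := h4
    refine ⟨a, d, (hd d).1 hdd, fun t h7 h8 => ?_⟩
    obtain ⟨i, hi, h9⟩ := h6 t.toNat (by omega)
    refine ⟨i, hi, ?_⟩
    rw [h9, ← he, Int.toNat_of_nonneg h7]
  · rintro ⟨a, d, hdd, h6⟩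
    refine h5 ⟨a, d, (hd d).2 hdd, fun k hk => ?_⟩
    obtain ⟨i, hi, h9⟩ := h6 (k : ℤ) (by omega) (by omega)
    exact ⟨i, hi, by rw [h9, he]⟩

end Pool.Agent.H184.G2
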