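import Pool.Agent.H184.G2.Far

set_option autoImplicit false

/-!
# Lists of certificates
-/

namespace Pool.Agent.H184.G2

open Pool.Agent.H184.Gomoku

/-- Header of a certificate: kind, stones of the attacker, stones of the defender, mask (or zone), extra index. -/
structure Hdr where
  k : ℕ
  a : ℕ
  d : ℕ
  m : ℕ
  z : ℕ

/-- complement of the mask, in its field -/
def cm (h : Hdr) : ℕ := Nat.shiftLeft (Nat.xor ONES h.m) 2048
def stH (h : Hdr) : ℕ := Nat.lor (Nat.lor h.a (Nat.shiftLeft h.d 1024)) (cond (Nat.beq h.k 0) 0 (cm h))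
def eH (h : Hdr) : ℕ := cond (Nat.beq h.k 2) (cm h) 0
def jH (h : Hdr) : ℕ := cond (Nat.beq h.k 0) 3 2
def kH (K : List ℕ) (h : Hdr) : List ℕ := cond (Nat.beq h.k 2) [] K
def vH (h : Hdr) : Bool := AND (Nat.beq (Nat.shiftRight h.a 1024) 0) (AND (Nat.beq (Nat.shiftRight h.d 1024) 0)
  (AND (Nat.beq (Nat.shiftRight h.m 1024) 0)
    (cond (Nat.beq h.k 2) (Nat.beq (Nat.land (Nat.lor h.a h.d) (Nat.xor ONES h.m)) 0) true)))

/-- check all certificates of the list -/
def runAll (K : List ℕ) (n : ℕ) (hs : List Hdr) : KT :=
  @List.rec Hdr (fun _ => KT) (fun _ acc l _ => bulk (acc :: l))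
    (fun h _ ih s acc l c => AND (vH h) (chk (kH K h) (eH h) n s (stH h) (jH h) acc l c ih)) hs

/-- join the pieces of a long number -/
def join (w : ℕ) (l : List ℕ) : ℕ := @List.rec ℕ (fun _ => ℕ) 0 (fun a _ t => Nat.lor (Nat.shiftLeft t w) a) l

/-- what a certificate of length `n` shows -/
def HoldsN (n : ℕ) (h : Hdr) : Prop :=
  (h.k = 0 → Win n (eS h.a) (eS h.d)) ∧
  (h.k = 1 → ∀ u, u ∉ eS h.m → u ∉ eS h.a → Win n (eS h.a) (insert u (eS h.d))) ∧
  (h.k = 2 → ∀ U : Set Cell, Near (eS h.m) ∅ U → Ctl (eS h.m) 6 2 ∅ U ∅ → Win n (eS h.a) (eS h.d ∪ U))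

def Holds (h : Hdr) : Prop := ∃ n, HoldsN n h

theorem HoldsN.mono {n m : ℕ} (hnm : n ≤ m) {h : Hdr} (H : HoldsN n h) : HoldsN m h :=
  ⟨fun e => (H.1 e).mono hnm, fun e u h1 h2 => (H.2.1 e u h1 h2).mono hnm, fun e U h1 h2 => (H.2.2 e U h1 h2).mono hnm⟩

theorem holds_all {l : List Hdr} (h : ∀ x ∈ l, Holds x) : ∃ n, ∀ x ∈ l, HoldsN n x := by
  induction l with
  | nil => exact ⟨0, fun x hx => absurd hx (by simp)⟩
  | cons a t ih =>
    obtain ⟨n, hn⟩ := ih fun x hx => h x (List.mem_cons_of_mem _ hx)
    obtain ⟨m, hm⟩ := h a List.mem_cons_self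
    refine ⟨max n m, fun x hx => ?_⟩
    rcases List.mem_cons.1 hx with rfl | hx
    · exact hm.mono (le_max_right _ _)
    · exact (hn x hx).mono (le_max_left _ _)

theorem lt_of_shr {a : ℕ} (h : Nat.beq (Nat.shiftRight a 1024) 0 = true) : ∀ i, a.testBit i = true → i < 1024 := by
  intro i hi
  have h1 : Nat.shiftRight a 1024 = 0 := Nat.eq_of_beq_eq_true h
  by_contra hc
  have h2 : (Nat.shiftRight a 1024).testBit (i - 1024) = true := by
    rw [tb_shr]
    have : 1024 + (i - 1024) = i := by omega
    rw [this, hi]
  rw [h1, Nat.zero_testBit] at h2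
  exact Bool.false_ne_true h2

theorem tb_cm {h : Hdr} (i : ℕ) : (cm h).testBit (2048 + i) = xor (decide (i < 1024)) (h.m.testBit i) := by
  unfold cm
  rw [tb_shl]
  have e1 : 2048 + i - 2048 = i := by omega
  have e2 : decide (2048 ≤ 2048 + i) = true := by rw [decide_eq_true_eq]; omega
  rw [e1, e2, Bool.true_and]
  have : Nat.xor ONES h.m = ONES ^^^ h.m := rfl
  rw [this, Nat.testBit_xor, tb_ones]

theorem cm_lt {h : Hdr} (i : ℕ) (hi : i < 2048) : (cm h).testBit i = false := by
  unfold cm
  rw [tb_shl]
  have e2 : decide (2048 ≤ i) = false := by rw [decide_eq_false_iff_not]; omega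
  rw [e2, Bool.false_and]

theorem cm_ge {h : Hdr} (hm : ∀ i, h.m.testBit i = true → i < 1024) (i : ℕ) (hi : (cm h).testBit i = true) :
    2048 ≤ i ∧ i < 3072 := by
  by_cases h1 : i < 2048
  · rw [cm_lt i h1] at hi; exact absurd hi Bool.false_ne_true
  · have e : i = 2048 + (i - 2048) := by omega
    rw [e, tb_cm] at hi
    refine ⟨by omega, ?_⟩
    by_contra hc
    have e1 : decide (i - 2048 < 1024) = false := by rw [decide_eq_false_iff_not]; omega
    have e2 : h.m.testBit (i - 2048) = false := by
      by_contra hcc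
      rw [Bool.not_eq_false] at hcc
      have := hm _ hcc
      omega
    rw [e1, e2] at hi
    exact absurd hi (by decide)

/-- the parts of the state -/
theorem tb_st {h : Hdr} (_ha : ∀ i, h.a.testBit i = true → i < 1024) (_hd : ∀ i, h.d.testBit i = true → i < 1024)
    (i : ℕ) : (stH h).testBit i = (h.a.testBit i || (decide (1024 ≤ i) && h.d.testBit (i - 1024)) ||
      (!(Nat.beq h.k 0) && (cm h).testBit i)) := by
  unfold stH
  rw [tb_lor, tb_lor, tb_shl]
  cases Nat.beq h.k 0 <;> simp

theorem aS_st {h : Hdr} (ha : ∀ i, h.a.testBit i = true → i < 1024) (hd : ∀ i, h.d.testBit i = true → i < 1024) :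
    aS (stH h) = eS h.a := by
  ext c
  constructor
  · rintro ⟨i, hi, rfl, h1⟩
    refine ⟨i, hi, rfl, ?_⟩
    rw [tb_st ha hd, cm_lt i (by omega)] at h1
    have e : decide (1024 ≤ i) = false := by rw [decide_eq_false_iff_not]; omega
    rw [e] at h1
    simpa using h1
  · rintro ⟨i, hi, rfl, h1⟩
    refine ⟨i, hi, rfl, ?_⟩
    rw [tb_st ha hd, h1]
    simp

theorem dS_st {h : Hdr} (ha : ∀ i, h.a.testBit i = true → i < 1024) (hd : ∀ i, h.d.testBit i = true → i < 1024) :
    dS (stH h) = eS h.d := by
  ext c
  constructor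
  · rintro ⟨i, hi, rfl, h1⟩
    refine ⟨i, hi, rfl, ?_⟩
    rw [tb_st ha hd, cm_lt (1024 + i) (by omega)] at h1
    have e : h.a.testBit (1024 + i) = false := by
      by_contra hc
      rw [Bool.not_eq_false] at hc
      have := ha _ hc
      omega
    rw [e, show 1024 + i - 1024 = i by omega] at h1
    simpa using h1
  · rintro ⟨i, hi, rfl, h1⟩
    refine ⟨i, hi, rfl, ?_⟩
    rw [tb_st ha hd, show 1024 + i - 1024 = i by omega, h1]
    simp

theorem inv_st {h : Hdr} (ha : ∀ i, h.a.testBit i = true → i < 1024) (hd : ∀ i, h.d.testBit i = true → i < 1024)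
    (hm : ∀ i, h.m.testBit i = true → i < 1024) : Inv (stH h) (jH h) := by
  unfold jH
  cases hk : Nat.beq h.k 0 with
  | true =>
    refine ⟨le_refl 3, fun n hn => ?_⟩
    rw [tb_st ha hd, hk] at hn
    simp only [Bool.not_true, Bool.false_and, Bool.or_false, Bool.or_eq_true, Bool.and_eq_true, decide_eq_true_eq] at hn
    rw [cond_true]
    rcases hn with hn | hn
    · have := ha _ hn; omega
    · have := hd _ hn.2; omega
  | false =>
    refine ⟨by rw [cond_false]; omega, fun n hn => ?_⟩
    rw [tb_st ha hd, hk] at hn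
    simp only [Bool.not_false, Bool.true_and, Bool.or_eq_true, Bool.and_eq_true, decide_eq_true_eq] at hn
    rw [cond_false]
    rcases hn with (hn | hn) | hn
    · have := ha _ hn; omega
    · have := hd _ hn.2; omega
    · have := cm_ge hm _ hn; omega

theorem gp_of_holds {h : Hdr} (hv : vH h = true) (hk : h.k = 0) (H : Holds h) : GP (stH h) 3 := by
  unfold vH at hv
  rw [AND_iff, AND_iff, AND_iff] at hv
  obtain ⟨h1, h2, h3, -⟩ := hv
  have ha := lt_of_shr h1
  have hd := lt_of_shr h2
  obtain ⟨n, hn⟩ := H
  refine ⟨n, fun us hus _ => ?_⟩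
  have : us = [] := List.eq_nil_of_length_eq_zero hus
  subst this
  rw [aS_st ha hd, dS_st ha hd]
  have e : eS h.d ∪ {u | u ∈ ([] : List Cell)} = eS h.d := by ext c; simp
  rw [e]
  exact hn.1 hk

theorem run_sound {K : List ℕ} (hK : ∀ st ∈ K, GP st 3) {n : ℕ} {hs : List Hdr} : ∀ {s acc : ℕ} {l : List ℕ} {c : ℕ},
    runAll K n hs s acc l c = true → Pend acc l ∧ ∀ h ∈ hs, Holds h := by
  induction hs with
  | nil =>
    intro s acc l c h
    have h : bulk (acc :: l) = true := h
    have := bulk_sound h
    exact ⟨⟨this acc List.mem_cons_self, fun x hx => this x (List.mem_cons_of_mem _ hx)⟩, fun x hx => absurd hx (by simp)⟩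
  | cons h t ih =>
    intro s acc l c hc
    have hc : AND (vH h) (chk (kH K h) (eH h) n s (stH h) (jH h) acc l c (runAll K n t)) = true := hc
    rw [AND_iff] at hc
    obtain ⟨hv, hc⟩ := hc
    have hv' := hv
    unfold vH at hv
    rw [AND_iff, AND_iff, AND_iff] at hv
    obtain ⟨h1, h2, h3, h4⟩ := hv
    have ha := lt_of_shr h1
    have hd := lt_of_shr h2
    have hm := lt_of_shr h3
    have hI := inv_st ha hd hm
    have eA := aS_st ha hd
    have eD := dS_st ha hd
    by_cases hk2 : h.k = 2
    · -- far
      have hb2 : Nat.beq h.k 2 = true := by rw [hk2]; rfl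
      have hb0 : Nat.beq h.k 0 = false := by rw [hk2]; rfl
      have hkH : kH K h = [] := by unfold kH; rw [hb2, cond_true]
      have heH : eH h = cm h := by unfold eH; rw [hb2, cond_true]
      have hjH : jH h = 2 := by unfold jH; rw [hb0, cond_false]
      rw [hkH, heH, hjH] at hc
      rw [hjH] at hI
      have he : ∀ i < 1024, (cm h).testBit (2048 + i) = !h.m.testBit i := by
        intro i hi
        rw [tb_cm]
        have : decide (i < 1024) = true := by rw [decide_eq_true_eq]; exact hi
        rw [this, Bool.true_xor]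
      obtain ⟨s', acc', l', c', h5, h6⟩ := chk_sound (rulesE he) n s (stH h) 2 acc l c _ hI hc
      obtain ⟨h7, h8⟩ := ih h5
      obtain ⟨h9, h10⟩ := h6 h7
      refine ⟨h9, fun x hx => ?_⟩
      rcases List.mem_cons.1 hx with rfl | hx
      · have h4' : Nat.land (Nat.lor x.a x.d) (Nat.xor ONES x.m) = 0 := by
          rw [hb2] at h4
          exact Nat.eq_of_beq_eq_true h4
        have hsub : ∀ i < 1024, (x.a.testBit i = true ∨ x.d.testBit i = true) → x.m.testBit i = true := by
          intro i hi hor
          have h11 : (Nat.land (Nat.lor x.a x.d) (Nat.xor ONES x.m)).testBit i = false := by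
            rw [h4', Nat.zero_testBit]
          rw [tb_land, tb_lor] at h11
          have : Nat.xor ONES x.m = ONES ^^^ x.m := rfl
          rw [this, Nat.testBit_xor, tb_ones] at h11
          have e1 : decide (i < 1024) = true := by rw [decide_eq_true_eq]; exact hi
          rw [e1] at h11
          have e2 : (x.a.testBit i || x.d.testBit i) = true := by rw [Bool.or_eq_true]; exact hor
          rw [e2] at h11
          cases h12 : x.m.testBit i
          · rw [h12] at h11; exact absurd h11 (by decide)
          · rfl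
        have hEOK : EOK x.m (stH x) 2 := by
          refine ⟨le_refl 2, fun i hi h11 => ?_, fun i hi h11 => ?_, fun i hi => ?_⟩
          · have : cell i ∈ aS (stH x) := ⟨i, hi, rfl, h11⟩
            rw [eA, mem_eS hi] at this
            exact hsub i hi (Or.inl this)
          · have : cell i ∈ dS (stH x) := ⟨i, hi, rfl, h11⟩
            rw [eD, mem_eS hi] at this
            exact hsub i hi (Or.inr this)
          · rw [show 1024 * (4 - 2) + i = 2048 + i by omega, tb_st ha hd, he i hi, hb0]
            have e1 : x.a.testBit (2048 + i) = false := by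
              by_contra hcc
              rw [Bool.not_eq_false] at hcc
              have := ha _ hcc; omega
            have e2 : x.d.testBit (2048 + i - 1024) = false := by
              by_contra hcc
              rw [Bool.not_eq_false] at hcc
              have := hd _ hcc; omega
            rw [e1, e2]
            simp
        obtain ⟨N, hN⟩ := h10 hEOK 6
        refine ⟨N, fun e => absurd (e ▸ hk2) (by decide), fun e => absurd (e ▸ hk2) (by decide), fun _ U hU1 hU2 => ?_⟩
        have hC : Cond x.m (stH x) 6 2 ∅ U [] := by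
          refine ⟨rfl, ⟨fun t ht => absurd ht (by simp), fun u hu => absurd hu (by simp)⟩, fun u hu => absurd hu (by simp), hU1, ?_⟩
          have e : ({u | u ∈ ([] : List Cell)} : Set Cell) = ∅ := by ext c; simp
          rw [e]
          exact hU2
        have := hN ∅ U [] hC
        rw [eA, eD] at this
        have e : (eS x.d ∪ U ∪ {u | u ∈ ([] : List Cell)} : Set Cell) = eS x.d ∪ U := by ext c; simp
        rw [e, Set.union_empty] at this
        exact this
      · exact h8 x hx
    · -- plain
      have hb2 : Nat.beq h.k 2 = false := by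
        cases hq : Nat.beq h.k 2 with
        | false => rfl
        | true => exact absurd (Nat.eq_of_beq_eq_true hq) hk2
      have hkH : kH K h = K := by unfold kH; rw [hb2, cond_false]
      have heH : eH h = 0 := by unfold eH; rw [hb2, cond_false]
      rw [hkH, heH] at hc
      obtain ⟨s', acc', l', c', h5, h6⟩ := chk_sound (rulesP (e := 0) hK) n s (stH h) (jH h) acc l c _ hI hc
      obtain ⟨h7, h8⟩ := ih h5
      obtain ⟨h9, h10⟩ := h6 h7
      refine ⟨h9, fun x hx => ?_⟩
      rcases List.mem_cons.1 hx with rfl | hx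
      · obtain ⟨N, hN⟩ := h10
        refine ⟨N, fun hk => ?_, fun hk u hu1 hu2 => ?_, fun hk => absurd hk hk2⟩
        · have hb0 : Nat.beq x.k 0 = true := by rw [hk]; rfl
          have hjH : jH x = 3 := by unfold jH; rw [hb0, cond_true]
          rw [hjH] at hN
          have := hN [] rfl ⟨fun t ht => absurd ht (by simp), fun u hu => absurd hu (by simp)⟩
          rw [eA, eD] at this
          have e : eS x.d ∪ {u | u ∈ ([] : List Cell)} = eS x.d := by ext c; simp
          rw [e] at this
          exact this
        · have hb0 : Nat.beq x.k 0 = false := by rw [hk]; rfl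
          have hjH : jH x = 2 := by unfold jH; rw [hb0, cond_false]
          rw [hjH] at hN
          have := hN [u] rfl ⟨fun t ht i hi hcell => ?_, fun v hv => ?_⟩
          · rw [eA, eD] at this
            have e : eS x.d ∪ {v | v ∈ [u]} = insert u (eS x.d) := by
              ext c
              simp only [Set.mem_union, Set.mem_setOf_eq, List.mem_singleton, Set.mem_insert_iff]
              tauto
            rw [e] at this
            exact this
          · have ht0 : t = 0 := by simpa using ht
            subst ht0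
            have hcell : cell i = u := hcell
            rw [show 2048 + 1024 * 0 + i = 2048 + i by omega, tb_st ha hd, hb0, tb_cm]
            have e1 : decide (i < 1024) = true := by rw [decide_eq_true_eq]; exact hi
            have e2 : x.m.testBit i = false := by
              by_contra hcc
              rw [Bool.not_eq_false] at hcc
              exact hu1 ⟨i, hi, hcell, hcc⟩
            rw [e1, e2]
            simp
          · rw [List.mem_singleton] at hv
            rw [hv, eA]
            exact hu2
      · exact h8 x hx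

/-- the form used in the data modules -/
theorem run_ok {K : List ℕ} (hK : ∀ st ∈ K, GP st 3) {n : ℕ} {hs : List Hdr} {s : ℕ}
    (h : runAll K n hs s 0 [] 0 = true) : ∀ h ∈ hs, Holds h := (run_sound hK h).2

theorem gp_nil : ∀ st ∈ ([] : List ℕ), GP st 3 := fun st h => absurd h (by simp)

theorem happ {a b : List Hdr} (ha : ∀ h ∈ a, Holds h) (hb : ∀ h ∈ b, Holds h) : ∀ h ∈ a ++ b, Holds h :=
  fun h hh => (List.mem_append.1 hh).elim (ha h) (hb h)

/-- known positions from earlier lists -/
def kOK (hs : List Hdr) : Bool :=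
  @List.rec Hdr (fun _ => Bool) true (fun h _ t => AND (vH h) (AND (Nat.beq h.k 0) t)) hs

theorem gp_map {hs : List Hdr} (hk : kOK hs = true) (H : ∀ h ∈ hs, Holds h) : ∀ st ∈ hs.map stH, GP st 3 := by
  induction hs with
  | nil => intro st hst; exact absurd hst (by simp)
  | cons a t ih =>
    have hk : AND (vH a) (AND (Nat.beq a.k 0) (kOK t)) = true := hk
    rw [AND_iff, AND_iff] at hk
    obtain ⟨h1, h2, h3⟩ := hk
    intro st hst
    rw [List.map_cons, List.mem_cons] at hst
    rcases hst with rfl | hst
    · exact gp_of_holds h1 (Nat.eq_of_beq_eq_true h2) (H a List.mem_cons_self)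
    · exact ih h3 (fun x hx => H x (List.mem_cons_of_mem _ hx)) st hst

end Pool.Agent.H184.G2
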